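import Pool.Agent.K9h51.SH.Stm
import Pool.Agent.Q68.LC.Bas2
import Pool.Agent.Q277.LC.Pe

/-!
# Project SH: elementary lemmas
-/

set_option autoImplicit false
set_option linter.unusedSectionVars false

namespace Pool.Agent.K9h51.SH

open Finset Equiv Matrix Q292.LC
open Pool.Agent.Q68.LC (agree Mx_sh EE_add EE_smul EE_mono EE_const)

section meas

variable {V : Type} [Fintype V] [DecidableEq V]

theorem Mx_agree {e : ℕ → V × V} {ω ω' : ℕ → Bool} {A : Finset V} {n : ℕ}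
    (h : ∀ k < n, tch e ω A k → ω k = ω' k) (δ : ℝ) (k : ℕ) (hk : k < n) :
    Mx e ω A δ k = Mx e ω' A δ k := by
  obtain ⟨-, h2⟩ := agree h
  unfold Mx
  by_cases ht : tch e ω A k
  · rw [if_pos ht, if_pos ((h2 k hk).1 ht), h k hk ht]
  · rw [if_neg ht, if_neg (fun h3 => ht ((h2 k hk).2 h3))]

theorem T2_agree {e : ℕ → V × V} {ω ω' : ℕ → Bool} {A : Finset V} {n : ℕ}
    (h : ∀ k < n, tch e ω A k → ω k = ω' k) (δ : ℝ) (i m : ℕ) (him : i + m ≤ n) :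
    TT (sh i e) (sh i ω) (A.image (gp e ω i)) δ m =
      TT (sh i e) (sh i ω') (A.image (gp e ω' i)) δ m := by
  induction m with
  | zero => rfl
  | succ m ih =>
    show TT (sh i e) (sh i ω) (A.image (gp e ω i)) δ m *
      Mx (sh i e) (sh i ω) (A.image (gp e ω i)) δ m =
      TT (sh i e) (sh i ω') (A.image (gp e ω' i)) δ m *
      Mx (sh i e) (sh i ω') (A.image (gp e ω' i)) δ m
    rw [ih (by omega), ← Mx_sh, ← Mx_sh, Mx_agree h δ (i + m) (by omega)]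

theorem cc_agree {e : ℕ → V × V} {ω ω' : ℕ → Bool} {A : Finset V} {n : ℕ}
    (h : ∀ k < n, tch e ω A k → ω k = ω' k) (δ : ℝ) (x : V) :
    cc e ω A δ n x = cc e ω' A δ n x := by
  obtain ⟨-, h2⟩ := agree h
  unfold cc
  congr 1
  refine Finset.sum_congr rfl fun k hk => ?_
  rw [Finset.mem_range] at hk
  by_cases ht : tch e ω A k
  · rw [if_pos ht, if_pos ((h2 k hk).1 ht), h k hk ht]
  · rw [if_neg ht, if_neg (fun h3 => ht ((h2 k hk).2 h3))]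

theorem PP_nonneg {e : ℕ → V × V} {δ : ℝ} (h0 : 0 ≤ δ) (h1 : δ ≤ 1) (k : ℕ) (x y : V) :
    0 ≤ PP e δ k x y := (Pool.Agent.Q68.LC.DS_TT e _ ∅ h0 h1 k).nn x y

theorem cc_nonneg {e : ℕ → V × V} {δ : ℝ} (h0 : 0 ≤ δ) (h1 : δ ≤ 1) (ω : ℕ → Bool)
    (A : Finset V) (n : ℕ) (x : V) : 0 ≤ cc e ω A δ n x := by
  unfold cc
  refine mul_nonneg (by norm_num) (sum_nonneg fun k _ => ?_)
  split_ifs
  · exact mul_nonneg zero_le_one (add_nonneg (PP_nonneg h0 h1 _ _ _) (PP_nonneg h0 h1 _ _ _))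
  · exact mul_nonneg h0 (add_nonneg (PP_nonneg h0 h1 _ _ _) (PP_nonneg h0 h1 _ _ _))
  · exact le_rfl

theorem cc_mono {e : ℕ → V × V} {δ : ℝ} (h0 : 0 ≤ δ) (h1 : δ ≤ 1) (ω : ℕ → Bool)
    (A : Finset V) (x : V) {m n : ℕ} (hmn : m ≤ n) : cc e ω A δ m x ≤ cc e ω A δ n x := by
  unfold cc
  refine mul_le_mul_of_nonneg_left ?_ (by norm_num)
  refine sum_le_sum_of_subset_of_nonneg (range_subset_range.2 hmn) fun k _ _ => ?_
  split_ifs
  · exact mul_nonneg zero_le_one (add_nonneg (PP_nonneg h0 h1 _ _ _) (PP_nonneg h0 h1 _ _ _))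
  · exact mul_nonneg h0 (add_nonneg (PP_nonneg h0 h1 _ _ _) (PP_nonneg h0 h1 _ _ _))
  · exact le_rfl

/-! ### properties of `PX` -/

theorem px_wt_nonneg (g : Perm V) (w : ℝ) (h0 : 0 ≤ w) (h1 : w < 1) (x : V) (A : Finset V) :
    0 ≤ w ^ A.card * dS w (univ \ insert x A) (pm g) := by
  have := (Pool.Agent.Q153.LC.p4 V g 1 w (univ \ insert x A) h0 h1).1.1
  positivity

theorem px_wt_sum (g : Perm V) (w : ℝ) (h0 : 0 ≤ w) (h1 : w < 1) (x : V) :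
    ∑ A : Finset V, (if Inv g A ∧ x ∉ A then
      w ^ A.card * dS w (univ \ insert x A) (pm g) else 0) = 1 := by
  have h := Pool.Agent.Q277.LC.p1_all V g w {x} h0 h1
  rw [← h]
  refine sum_congr rfl fun A _ => ?_
  have h2 : A ∪ {x} = insert x A := by
    ext a
    simp [or_comm]
  rw [h2]
  simp only [disjoint_singleton_right]

theorem PX_mono (e : ℕ → V × V) (n : ℕ) {δ w : ℝ} (x : V) (hδ0 : 0 ≤ δ) (hδ1 : δ ≤ 1)
    (h0 : 0 ≤ w) (h1 : w < 1) {F G : (ℕ → Bool) → Finset V → ℝ}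
    (h : ∀ ω A, Inv (gp e ω n) A → x ∉ A → F ω A ≤ G ω A) :
    PX e n δ w x F ≤ PX e n δ w x G := by
  unfold PX
  refine EE_mono hδ0 hδ1 fun ω => sum_le_sum fun A _ => ?_
  split_ifs with hi
  · exact mul_le_mul_of_nonneg_left (h ω A hi.1 hi.2) (px_wt_nonneg _ w h0 h1 x A)
  · exact le_rfl

theorem PX_const (e : ℕ → V × V) (n : ℕ) {δ w : ℝ} (x : V) (h0 : 0 ≤ w) (h1 : w < 1) (c : ℝ) :
    PX e n δ w x (fun _ _ => c) = c := by
  unfold PX
  have h : (fun ω : ℕ → Bool => ∑ A : Finset V, if Inv (gp e ω n) A ∧ x ∉ A then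
      w ^ A.card * dS w (univ \ insert x A) (pm (gp e ω n)) * c else 0) = fun _ => c := by
    funext ω
    have h2 : (∑ A : Finset V, if Inv (gp e ω n) A ∧ x ∉ A then
        w ^ A.card * dS w (univ \ insert x A) (pm (gp e ω n)) * c else 0) =
        (∑ A : Finset V, if Inv (gp e ω n) A ∧ x ∉ A then
        w ^ A.card * dS w (univ \ insert x A) (pm (gp e ω n)) else 0) * c := by
      rw [Finset.sum_mul]
      refine Finset.sum_congr rfl fun A _ => ?_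
      split_ifs <;> simp
    rw [h2, px_wt_sum _ w h0 h1 x, one_mul]
  rw [h]
  exact EE_const n δ c

theorem PX_add (e : ℕ → V × V) (n : ℕ) (δ w : ℝ) (x : V) (F G : (ℕ → Bool) → Finset V → ℝ) :
    PX e n δ w x (fun ω A => F ω A + G ω A) = PX e n δ w x F + PX e n δ w x G := by
  unfold PX
  rw [← EE_add]
  congr 1
  funext ω
  rw [← Finset.sum_add_distrib]
  refine Finset.sum_congr rfl fun A _ => ?_
  split_ifs
  · ring
  · simp

theorem PX_smul (e : ℕ → V × V) (n : ℕ) (δ w : ℝ) (x : V) (c : ℝ)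
    (F : (ℕ → Bool) → Finset V → ℝ) :
    PX e n δ w x (fun ω A => c * F ω A) = c * PX e n δ w x F := by
  unfold PX
  rw [← EE_smul]
  congr 1
  funext ω
  rw [Finset.mul_sum]
  refine Finset.sum_congr rfl fun A _ => ?_
  split_ifs
  · ring
  · simp

theorem PX_sum {ι : Type} (e : ℕ → V × V) (n : ℕ) (δ w : ℝ) (x : V) (s : Finset ι)
    (F : ι → (ℕ → Bool) → Finset V → ℝ) :
    PX e n δ w x (fun ω A => ∑ i ∈ s, F i ω A) = ∑ i ∈ s, PX e n δ w x (F i) := by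
  classical
  induction s using Finset.induction_on with
  | empty =>
    simp only [Finset.sum_empty]
    have h := PX_smul e n δ w x 0 (fun _ _ => (0 : ℝ))
    simpa using h
  | insert a s ha ih =>
    rw [Finset.sum_insert ha, ← ih, ← PX_add]
    congr 1
    funext ω A
    rw [Finset.sum_insert ha]

end meas

/-! ### the tail of the series -/

theorem rpow_tele (d : ℕ) (hd : 3 ≤ d) (k : ℕ) (hk : 1 ≤ k) :
    ((k : ℝ) + 1) ^ (-(d / 2 : ℝ)) ≤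
      2 * ((k : ℝ) ^ (-(1 / 2 : ℝ)) - ((k : ℝ) + 1) ^ (-(1 / 2 : ℝ))) := by
  have hk1 : (1 : ℝ) ≤ k := by exact_mod_cast hk
  have hd3 : (3 : ℝ) ≤ d := by exact_mod_cast hd
  have h1 : ((k : ℝ) + 1) ^ (-(d / 2 : ℝ)) ≤ ((k : ℝ) + 1) ^ (-(3 / 2 : ℝ)) :=
    Real.rpow_le_rpow_of_exponent_le (by linarith) (by linarith)
  refine h1.trans ?_
  set a := Real.sqrt k with ha
  set b := Real.sqrt (k + 1) with hb
  have ha0 : 0 < a := Real.sqrt_pos.2 (by linarith)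
  have hb0 : 0 < b := Real.sqrt_pos.2 (by linarith)
  have hab : a ≤ b := Real.sqrt_le_sqrt (by linarith)
  have ha2 : a ^ 2 = k := Real.sq_sqrt (by linarith)
  have hb2 : b ^ 2 = k + 1 := Real.sq_sqrt (by linarith)
  have e1 : (k : ℝ) ^ (-(1 / 2 : ℝ)) = 1 / a := by
    rw [Real.rpow_neg (by linarith), ← Real.sqrt_eq_rpow, one_div]
  have e2 : ((k : ℝ) + 1) ^ (-(1 / 2 : ℝ)) = 1 / b := by
    rw [Real.rpow_neg (by linarith), ← Real.sqrt_eq_rpow, one_div]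
  have e3 : ((k : ℝ) + 1) ^ (-(3 / 2 : ℝ)) = 1 / b ^ 3 := by
    rw [hb, Real.sqrt_eq_rpow, ← Real.rpow_natCast, ← Real.rpow_mul (by linarith), one_div,
      ← Real.rpow_neg (by linarith)]
    norm_num
  rw [e1, e2, e3]
  have h2 : 1 / a - 1 / b = 1 / (a * b * (a + b)) := by
    have h3 : (b - a) * (a + b) = 1 := by nlinarith
    field_simp
    linarith
  rw [h2, mul_one_div, div_le_div_iff₀ (by positivity) (by positivity), one_mul]
  have h4 : a * b * (a + b) ≤ b * b * (b + b) := by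
    refine mul_le_mul (mul_le_mul_of_nonneg_right hab hb0.le) (by linarith) (by positivity)
      (by positivity)
  nlinarith

theorem rpow_tail (d : ℕ) (hd : 3 ≤ d) (J : ℕ) (hJ : 1 ≤ J) (N : ℕ) (hN : J ≤ N) :
    ∑ k ∈ Finset.Ico J N, ((k : ℝ) + 1) ^ (-(d / 2 : ℝ)) ≤ 2 * (J : ℝ) ^ (-(1 / 2 : ℝ)) := by
  have h : ∀ M : ℕ, J ≤ M → ∑ k ∈ Finset.Ico J M, ((k : ℝ) + 1) ^ (-(d / 2 : ℝ)) ≤
      2 * ((J : ℝ) ^ (-(1 / 2 : ℝ)) - (M : ℝ) ^ (-(1 / 2 : ℝ))) := by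
    intro M hM
    induction M, hM using Nat.le_induction with
    | base => simp
    | succ M hM ih =>
      rw [Finset.sum_Ico_succ_top hM]
      have := rpow_tele d hd M (by omega)
      push_cast
      linarith
  refine (h N hN).trans ?_
  have : 0 ≤ (N : ℝ) ^ (-(1 / 2 : ℝ)) := by positivity
  linarith

/-- comparison of the series -/
theorem green_cmp (a b : ℕ → ℝ) (w B C m0 κ' : ℝ) (d J N : ℕ) (hd : 3 ≤ d) (hJ : 1 ≤ J)
    (hN : J ≤ N) (hw0 : 0 ≤ w) (hw1 : w < 1) (hC : 0 ≤ C) (hm0 : 0 ≤ m0) (hκ : 0 ≤ κ')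
    (hab : ∀ k < J, |a k - b k| ≤ B) (ha0 : ∀ k, 0 ≤ a k)
    (ha : ∀ k, a k ≤ C * (m0 + κ' * ((k : ℝ) + 1) ^ (-(d / 2 : ℝ)))) :
    |∑ k ∈ range N, w ^ (k + 1) * a k - ∑ k ∈ range J, w ^ (k + 1) * b k| ≤
      J * B + C * (m0 / (1 - w) + 2 * κ' * (J : ℝ) ^ (-(1 / 2 : ℝ))) := by
  have h1w : 0 < 1 - w := by linarith
  have hw : ∀ k : ℕ, 0 ≤ w ^ (k + 1) ∧ w ^ (k + 1) ≤ 1 := fun k =>
    ⟨pow_nonneg hw0 _, pow_le_one₀ hw0 hw1.le⟩
  have h1 : ∑ k ∈ range N, w ^ (k + 1) * a k = ∑ k ∈ range J, w ^ (k + 1) * a k +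
      ∑ k ∈ Finset.Ico J N, w ^ (k + 1) * a k := (Finset.sum_range_add_sum_Ico _ hN).symm
  have h2 : |∑ k ∈ range J, w ^ (k + 1) * a k - ∑ k ∈ range J, w ^ (k + 1) * b k| ≤ J * B := by
    rw [← Finset.sum_sub_distrib]
    refine (Finset.abs_sum_le_sum_abs _ _).trans ?_
    have h3 : ∀ k ∈ range J, |w ^ (k + 1) * a k - w ^ (k + 1) * b k| ≤ B := by
      intro k hk
      rw [← mul_sub, abs_mul, abs_of_nonneg (hw k).1]
      have h4 := hab k (Finset.mem_range.1 hk)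
      exact (mul_le_of_le_one_left (abs_nonneg _) (hw k).2).trans h4
    refine (Finset.sum_le_sum h3).trans (le_of_eq ?_)
    rw [Finset.sum_const, Finset.card_range, nsmul_eq_mul]
  have h5 : 0 ≤ ∑ k ∈ Finset.Ico J N, w ^ (k + 1) * a k :=
    Finset.sum_nonneg fun k _ => mul_nonneg (hw k).1 (ha0 k)
  have h6 : ∑ k ∈ Finset.Ico J N, w ^ (k + 1) * a k ≤
      C * (m0 / (1 - w) + 2 * κ' * (J : ℝ) ^ (-(1 / 2 : ℝ))) := by
    have h7 : ∀ k ∈ Finset.Ico J N, w ^ (k + 1) * a k ≤ C * m0 * w ^ k +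
        C * κ' * ((k : ℝ) + 1) ^ (-(d / 2 : ℝ)) := by
      intro k _
      have h8 : w ^ (k + 1) ≤ w ^ k := pow_le_pow_of_le_one hw0 hw1.le (Nat.le_succ k)
      have h9 : 0 ≤ C * κ' * ((k : ℝ) + 1) ^ (-(d / 2 : ℝ)) := by positivity
      calc w ^ (k + 1) * a k ≤ w ^ (k + 1) * (C * (m0 + κ' * ((k : ℝ) + 1) ^ (-(d / 2 : ℝ)))) :=
            mul_le_mul_of_nonneg_left (ha k) (hw k).1
        _ = w ^ (k + 1) * (C * m0) + w ^ (k + 1) * (C * κ' * ((k : ℝ) + 1) ^ (-(d / 2 : ℝ))) := by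
            ring
        _ ≤ w ^ k * (C * m0) + 1 * (C * κ' * ((k : ℝ) + 1) ^ (-(d / 2 : ℝ))) :=
            add_le_add (mul_le_mul_of_nonneg_right h8 (by positivity))
              (mul_le_mul_of_nonneg_right (hw k).2 h9)
        _ = _ := by ring
    have h10 : ∑ k ∈ Finset.Ico J N, w ^ k ≤ (1 - w)⁻¹ :=
      sum_le_hasSum _ (fun k _ => pow_nonneg hw0 k) (hasSum_geometric_of_lt_one hw0 hw1)
    calc ∑ k ∈ Finset.Ico J N, w ^ (k + 1) * a k
        ≤ ∑ k ∈ Finset.Ico J N, (C * m0 * w ^ k + C * κ' * ((k : ℝ) + 1) ^ (-(d / 2 : ℝ))) :=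
          Finset.sum_le_sum h7
      _ = C * m0 * ∑ k ∈ Finset.Ico J N, w ^ k +
          C * κ' * ∑ k ∈ Finset.Ico J N, ((k : ℝ) + 1) ^ (-(d / 2 : ℝ)) := by
          rw [Finset.sum_add_distrib, Finset.mul_sum, Finset.mul_sum]
      _ ≤ C * m0 * (1 - w)⁻¹ + C * κ' * (2 * (J : ℝ) ^ (-(1 / 2 : ℝ))) :=
          add_le_add (mul_le_mul_of_nonneg_left h10 (by positivity))
            (mul_le_mul_of_nonneg_left (rpow_tail d hd J hJ N hN) (by positivity))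
      _ = _ := by
          rw [div_eq_mul_inv]
          ring
  rw [h1]
  have h11 := abs_le.1 h2
  rw [abs_le]
  constructor <;> linarith [h11.1, h11.2]

end Pool.Agent.K9h51.SH

namespace Pool.Agent.K9h51.SH

open Finset Equiv Matrix Q292.LC

theorem PX_lin {V : Type} [Fintype V] [DecidableEq V] (e : ℕ → V × V) (n : ℕ) {δ w : ℝ} (x : V)
    (h0 : 0 ≤ w) (h1 : w < 1) (J : ℕ) (α : ℕ → V → ℝ) (S : V → (ℕ → Bool) → Finset V → ℝ)
    (S2 : (ℕ → Bool) → Finset V → ℝ) (c1 c0 : ℝ) :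
    PX e n δ w x (fun ω A => c1 * (∑ i ∈ range J, ∑ z, α i z * S z ω A + S2 ω A) + c0) =
      c1 * (∑ i ∈ range J, ∑ z, α i z * PX e n δ w x (S z) + PX e n δ w x S2) + c0 := by
  rw [PX_add e n δ w x (fun ω A => c1 * (∑ i ∈ range J, ∑ z, α i z * S z ω A + S2 ω A))
    (fun _ _ => c0), PX_const e n x h0 h1, PX_smul e n δ w x c1
    (fun ω A => ∑ i ∈ range J, ∑ z, α i z * S z ω A + S2 ω A),
    PX_add e n δ w x (fun ω A => ∑ i ∈ range J, ∑ z, α i z * S z ω A) S2,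
    PX_sum e n δ w x (range J) (fun i ω A => ∑ z, α i z * S z ω A)]
  congr 3
  refine sum_congr rfl fun i _ => ?_
  rw [PX_sum e n δ w x univ (fun z ω A => α i z * S z ω A)]
  refine sum_congr rfl fun z _ => ?_
  rw [PX_smul e n δ w x (α i z) (S z)]

theorem le_final (CE CT CD Cs κd D θ K B0 J Jh F PWb s κ X : ℝ) (hCE : 1 ≤ CE) (hCT : 1 ≤ CT)
    (hCD : 1 ≤ CD) (hCs : 1 ≤ Cs) (hκd : 0 ≤ κd) (hD : 0 ≤ D) (hθ : 0 ≤ θ) (hK : 0 ≤ K)
    (hJ : 1 ≤ J) (hJh : 0 ≤ Jh) (hF : F ≤ J) (hPW0 : 0 ≤ PWb) (hPW : PWb ≤ CE * D)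
    (hs0 : 0 ≤ s) (hs : s ≤ 2 * Cs * κd) (hκ0 : 0 ≤ κ) (hκ : κ ≤ 2 * CT * κd) (hB0 : 0 ≤ B0)
    (hKB : K * κd * B0 ≤ CD * θ) (hκθ : κd ≤ θ)
    (hX : X ≤ (1 + F) * PWb + (J * s * (J * (K * κ * B0) + K * κ * B0) +
      (J * (J * s ^ 2) + CE * (D + 2 * κd * Jh)))) :
    X ≤ (8 * Cs * CT * CD + 4 * Cs ^ 2 + 3 * CE) * (κd * (J ^ 2 * θ + Jh) + J * D) := by
  have h1 : (1 + F) * PWb ≤ 2 * CE * (J * D) := by
    calc (1 + F) * PWb ≤ (2 * J) * (CE * D) :=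
          mul_le_mul (by linarith) hPW hPW0 (by linarith)
      _ = _ := by ring
  have h2 : K * κ * B0 ≤ 2 * CT * (CD * θ) := by
    calc K * κ * B0 ≤ K * (2 * CT * κd) * B0 := by gcongr
      _ = 2 * CT * (K * κd * B0) := by ring
      _ ≤ _ := by gcongr
  have h2' : 0 ≤ K * κ * B0 := by positivity
  have h3 : J * s * (J * (K * κ * B0) + K * κ * B0) ≤ 8 * Cs * CT * CD * (κd * (J ^ 2 * θ)) := by
    calc J * s * (J * (K * κ * B0) + K * κ * B0) ≤ J * (2 * Cs * κd) * ((2 * J) * (2 * CT * (CD * θ))) := by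
          refine mul_le_mul (by gcongr) ?_ (by positivity) (by positivity)
          nlinarith
      _ = _ := by ring
  have h4 : J * (J * s ^ 2) ≤ 4 * Cs ^ 2 * (κd * (J ^ 2 * θ)) := by
    have h5 : s ^ 2 ≤ (2 * Cs * κd) * (2 * Cs * θ) := by
      rw [sq]
      refine mul_le_mul hs (hs.trans (by gcongr)) hs0 (by positivity)
    calc J * (J * s ^ 2) ≤ J * (J * ((2 * Cs * κd) * (2 * Cs * θ))) := by gcongr
      _ = _ := by ring
  have h6 : CE * (D + 2 * κd * Jh) ≤ CE * (J * D) + 2 * CE * (κd * Jh) := by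
    have : D ≤ J * D := le_mul_of_one_le_left hD hJ
    nlinarith
  have h7 : 0 ≤ κd * (J ^ 2 * θ) := by positivity
  have h8 : 0 ≤ κd * Jh := by positivity
  have h9 : 0 ≤ J * D := by positivity
  have h10 : 0 ≤ 8 * Cs * CT * CD + 4 * Cs ^ 2 := by positivity
  calc X ≤ 2 * CE * (J * D) + (8 * Cs * CT * CD * (κd * (J ^ 2 * θ)) +
        (4 * Cs ^ 2 * (κd * (J ^ 2 * θ)) + (CE * (J * D) + 2 * CE * (κd * Jh)))) := by
        linarith
    _ ≤ _ := by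
        have e1 : (8 * Cs * CT * CD + 4 * Cs ^ 2 + 3 * CE) * (κd * (J ^ 2 * θ + Jh) + J * D) =
          (8 * Cs * CT * CD + 4 * Cs ^ 2) * (κd * (J ^ 2 * θ)) + 3 * CE * (κd * (J ^ 2 * θ)) +
          ((8 * Cs * CT * CD + 4 * Cs ^ 2) * (κd * Jh) + 3 * CE * (κd * Jh)) +
          ((8 * Cs * CT * CD + 4 * Cs ^ 2) * (J * D) + 3 * CE * (J * D)) := by ring
        rw [e1]
        have f1 : 0 ≤ 3 * CE * (κd * (J ^ 2 * θ)) := by positivity
        have f2 : 0 ≤ (8 * Cs * CT * CD + 4 * Cs ^ 2) * (κd * Jh) := mul_nonneg h10 h8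
        have f3 : 0 ≤ (8 * Cs * CT * CD + 4 * Cs ^ 2) * (J * D) := mul_nonneg h10 h9
        have f4 : 0 ≤ CE * (κd * Jh) := by positivity
        linarith

end Pool.Agent.K9h51.SH
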