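import Pool.Agent.K9h51.SH.Stm

/-!
# Project SH, leaf CMP: comparison of the powers of two stochastic matrices

Written by helper74 for helper51.
-/

set_option autoImplicit false
set_option linter.unusedSectionVars false

namespace Pool.Agent.K9h51.SH

open Finset Equiv Matrix Q292.LC

section cmp

variable {V : Type} [Fintype V] [DecidableEq V]

theorem cmp_nn_mul {M N : Matrix V V ℝ} (hM : ∀ a b, 0 ≤ M a b) (hN : ∀ a b, 0 ≤ N a b) :
    ∀ a b, 0 ≤ (M * N) a b := by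
  intro a b
  rw [Matrix.mul_apply]
  exact Finset.sum_nonneg fun z _ => mul_nonneg (hM _ _) (hN _ _)

theorem cmp_nn_pow {M : Matrix V V ℝ} (hM : ∀ a b, 0 ≤ M a b) (j : ℕ) :
    ∀ a b, 0 ≤ (M ^ j) a b := by
  induction j with
  | zero =>
    intro a b
    rw [pow_zero, Matrix.one_apply]
    split_ifs <;> norm_num
  | succ j ih => rw [pow_succ]; exact cmp_nn_mul ih hM

theorem cmp_row_mul {M N : Matrix V V ℝ} (hM : ∀ a, ∑ b, M a b = 1) (hN : ∀ a, ∑ b, N a b = 1) :
    ∀ a, ∑ b, (M * N) a b = 1 := by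
  intro a
  simp only [Matrix.mul_apply]
  rw [Finset.sum_comm]
  simp only [← Finset.mul_sum, hN, mul_one, hM]

theorem cmp_row_pow {M : Matrix V V ℝ} (hM : ∀ a, ∑ b, M a b = 1) (j : ℕ) :
    ∀ a, ∑ b, (M ^ j) a b = 1 := by
  induction j with
  | zero => intro a; simp [Matrix.one_apply]
  | succ j ih => rw [pow_succ]; exact cmp_row_mul ih hM

/-- a substochastic row times a column bounded by `s` -/
theorem cmp_le {M N : Matrix V V ℝ} (hM : ∀ a b, 0 ≤ M a b) (hM1 : ∀ a, ∑ b, M a b = 1)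
    {s : ℝ} (y x : V) (hN : ∀ z, N z x ≤ s) : (M * N) y x ≤ s := by
  rw [Matrix.mul_apply]
  calc ∑ z, M y z * N z x ≤ ∑ z, M y z * s :=
        Finset.sum_le_sum fun z _ => mul_le_mul_of_nonneg_left (hN z) (hM _ _)
    _ = s := by rw [← Finset.sum_mul, hM1, one_mul]

theorem cmp_tel (T P : Matrix V V ℝ) (k : ℕ) :
    T ^ (k + 1) = P ^ (k + 1) + ∑ i ∈ range (k + 1), P ^ i * (T - P) * T ^ (k - i) := by
  induction k with
  | zero => simp
  | succ k ih =>
    rw [pow_succ T (k + 1), ih, add_mul, Finset.sum_mul, Finset.sum_range_succ _ (k + 1)]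
    have h1 : ∀ i ∈ range (k + 1), P ^ i * (T - P) * T ^ (k - i) * T =
        P ^ i * (T - P) * T ^ (k + 1 - i) := by
      intro i hi
      have : k + 1 - i = (k - i) + 1 := by have := Finset.mem_range.mp hi; omega
      rw [this, pow_succ, Matrix.mul_assoc _ (T ^ (k - i)) T]
    rw [Finset.sum_congr rfl h1]
    have h2 : P ^ (k + 1) * T = P ^ (k + 1 + 1) + P ^ (k + 1) * (T - P) * T ^ (k + 1 - (k + 1)) := by
      rw [Nat.sub_self, pow_zero, Matrix.mul_one, pow_succ P (k + 1), Matrix.mul_sub]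
      abel
    rw [h2]
    abel

theorem cmp_tel2 (T D : Matrix V V ℝ) (k : ℕ) :
    T ^ (k + 1) = T * (D * T) ^ k +
      ∑ i ∈ range k, T * (D * T) ^ i * (1 - D) * T ^ (k - i) := by
  induction k with
  | zero => simp
  | succ k ih =>
    rw [pow_succ T (k + 1), ih, add_mul, Finset.sum_mul, Finset.sum_range_succ _ k]
    have h1 : ∀ i ∈ range k, T * (D * T) ^ i * (1 - D) * T ^ (k - i) * T =
        T * (D * T) ^ i * (1 - D) * T ^ (k + 1 - i) := by
      intro i hi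
      have : k + 1 - i = (k - i) + 1 := by have := Finset.mem_range.mp hi; omega
      rw [this, pow_succ, Matrix.mul_assoc _ (T ^ (k - i)) T]
    rw [Finset.sum_congr rfl h1]
    have h2 : T * (D * T) ^ k * T = T * (D * T) ^ (k + 1) +
        T * (D * T) ^ k * (1 - D) * T ^ (k + 1 - k) := by
      have : k + 1 - k = 1 := by omega
      rw [this, pow_one, pow_succ, Matrix.mul_sub, Matrix.mul_one, Matrix.sub_mul]
      simp only [Matrix.mul_assoc]
      abel
    rw [h2]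
    abel

theorem cmp_dg_mul (S : Finset V) (M : Matrix V V ℝ) (a b : V) :
    (dg S * M) a b = if a ∈ S then M a b else 0 := by
  rw [dg, Matrix.diagonal_mul]
  split_ifs <;> simp

theorem cmp_part2 (T : Matrix V V ℝ) (A : Finset V) (x : V) (s : ℝ)
    (hT : ∀ a b, 0 ≤ T a b) (hx : x ∉ A) (hA : ∀ a, a ∉ A → ∀ b ∈ A, T a b = 0) (hs : 0 ≤ s)
    (hTs : ∀ j : ℕ, (T ^ (j + 1)) x x ≤ s) (k : ℕ) :
    |(T * (dg (univ \ insert x A) * T) ^ k) x x - (T ^ (k + 1)) x x| ≤ k * s ^ 2 := by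
  set D : Matrix V V ℝ := dg (univ \ insert x A) with hD
  have hDT : ∀ a b, (D * T) a b = if a ∈ univ \ insert x A then T a b else 0 := fun a b =>
    cmp_dg_mul _ _ _ _
  have hDT0 : ∀ a b, 0 ≤ (D * T) a b := by
    intro a b
    rw [hDT]
    split_ifs
    · exact hT _ _
    · exact le_rfl
  have hDTle : ∀ a b, (D * T) a b ≤ T a b := by
    intro a b
    rw [hDT]
    split_ifs
    · exact le_rfl
    · exact hT _ _
  have hR0 : ∀ i a b, 0 ≤ (T * (D * T) ^ i) a b := fun i => cmp_nn_mul hT (cmp_nn_pow hDT0 i)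
  have hRle : ∀ i a b, (T * (D * T) ^ i) a b ≤ (T ^ (i + 1)) a b := by
    intro i
    induction i with
    | zero => intro a b; simp
    | succ i ih =>
      intro a b
      rw [pow_succ, ← Matrix.mul_assoc, pow_succ T (i + 1), Matrix.mul_apply, Matrix.mul_apply]
      exact Finset.sum_le_sum fun z _ => mul_le_mul (ih a z) (hDTle z b) (hDT0 _ _)
        (cmp_nn_pow hT _ _ _)
  have hRA : ∀ i, ∀ a ∈ A, (T * (D * T) ^ i) x a = 0 := by
    intro i a ha
    cases i with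
    | zero => simpa using hA x hx a ha
    | succ i =>
      rw [pow_succ, ← Matrix.mul_assoc, Matrix.mul_apply]
      refine Finset.sum_eq_zero fun z _ => ?_
      rw [hDT]
      split_ifs with hz
      · rw [hA z (fun h => by simp [h] at hz) a ha, mul_zero]
      · rw [mul_zero]
  have hterm : ∀ i ∈ range k, (T * (D * T) ^ i * (1 - D) * T ^ (k - i)) x x =
      (T * (D * T) ^ i) x x * (T ^ (k - i)) x x := by
    intro i hi
    have h1D : (1 - D : Matrix V V ℝ) = Matrix.diagonal fun a => if a ∈ insert x A then 1 else 0 := by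
      rw [hD, dg, ← Matrix.diagonal_one, Matrix.diagonal_sub]
      congr 1
      funext a
      by_cases h : a ∈ insert x A <;> simp [h]
    rw [Matrix.mul_assoc, h1D, Matrix.mul_apply]
    rw [Finset.sum_eq_single x]
    · rw [Matrix.diagonal_mul, if_pos (Finset.mem_insert_self _ _), one_mul]
    · intro y _ hy
      rw [Matrix.diagonal_mul]
      by_cases h : y ∈ A
      · rw [hRA i y h, zero_mul]
      · rw [if_neg (by simp [hy, h]), zero_mul, mul_zero]
    · intro h; exact absurd (mem_univ _) h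
  have htel := congrFun (congrFun (cmp_tel2 T D k) x) x
  rw [Matrix.add_apply, Matrix.sum_apply, Finset.sum_congr rfl hterm] at htel
  have hnn : 0 ≤ ∑ i ∈ range k, (T * (D * T) ^ i) x x * (T ^ (k - i)) x x :=
    Finset.sum_nonneg fun i _ => mul_nonneg (hR0 _ _ _) (cmp_nn_pow hT _ _ _)
  have hub : ∑ i ∈ range k, (T * (D * T) ^ i) x x * (T ^ (k - i)) x x ≤ k * s ^ 2 := by
    calc ∑ i ∈ range k, (T * (D * T) ^ i) x x * (T ^ (k - i)) x x ≤ ∑ i ∈ range k, s ^ 2 := by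
          refine Finset.sum_le_sum fun i hi => ?_
          have h1 : (T * (D * T) ^ i) x x ≤ s := (hRle i x x).trans (hTs i)
          have h2 : (T ^ (k - i)) x x ≤ s := by
            obtain ⟨j, hj⟩ : ∃ j, k - i = j + 1 := ⟨k - i - 1, by
              have := Finset.mem_range.mp hi; omega⟩
            rw [hj]; exact hTs j
          rw [pow_two]
          exact mul_le_mul h1 h2 (cmp_nn_pow hT _ _ _) hs
      _ = k * s ^ 2 := by rw [Finset.sum_const, Finset.card_range, nsmul_eq_mul]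
  rw [abs_le]
  constructor <;> linarith

theorem cmp_part1 (T1 T2 P1 P2 : Matrix V V ℝ) (x : V) (s γ : ℝ) (c : V → ℝ)
    (hT1 : ∀ a b, 0 ≤ T1 a b) (hT1' : ∀ a, ∑ b, T1 a b = 1)
    (hT2 : ∀ a b, 0 ≤ T2 a b) (hT2' : ∀ a, ∑ b, T2 a b = 1)
    (hP1 : ∀ a b, 0 ≤ P1 a b) (hP1' : ∀ a, ∑ b, P1 a b = 1)
    (hP2 : ∀ a b, 0 ≤ P2 a b) (hP2' : ∀ a, ∑ b, P2 a b = 1)
    (hs : 0 ≤ s) (hT2s : ∀ a, T2 a x ≤ s) (hP1s : ∀ a b, P1 a b ≤ s)
    (hc : ∀ a, ∑ b, |(P1 * P2) a b - (T1 * T2) a b| ≤ c a)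
    (hc1 : ∀ a, ∑ b, |P1 a b - T1 a b| ≤ c a) (hγ : ∑ a, |P2 a x - T2 a x| ≤ γ) (k : ℕ) :
    |((T1 * T2) ^ (k + 1)) x x - ((P1 * P2) ^ (k + 1)) x x| ≤
      s * (∑ i ∈ range (k + 1), ∑ z, ((P1 * P2) ^ i) x z * c z + γ) := by
  have hT := cmp_nn_mul hT1 hT2
  have hTr := cmp_row_mul hT1' hT2'
  have hP := cmp_nn_mul hP1 hP2
  have hPr := cmp_row_mul hP1' hP2'
  have hTs : ∀ (j : ℕ) (y : V), ((T1 * T2) ^ (j + 1)) y x ≤ s := by
    intro j y
    rw [pow_succ, ← Matrix.mul_assoc]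
    exact cmp_le (cmp_nn_mul (cmp_nn_pow hT j) hT1) (cmp_row_mul (cmp_row_pow hTr j) hT1') y x hT2s
  have key : ∀ (j : ℕ) (M N : Matrix V V ℝ), (∀ a, ∑ b, |M a b| ≤ c a) → (∀ z, |N z x| ≤ s) →
      |((P1 * P2) ^ j * M * N) x x| ≤ s * ∑ z, ((P1 * P2) ^ j) x z * c z := by
    intro j M N hM hN
    rw [Matrix.mul_assoc, Matrix.mul_apply]
    refine (Finset.abs_sum_le_sum_abs _ _).trans ?_
    rw [Finset.mul_sum]
    refine Finset.sum_le_sum fun z _ => ?_
    rw [abs_mul, abs_of_nonneg (cmp_nn_pow hP j x z)]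
    have h1 : |(M * N) z x| ≤ c z * s := by
      rw [Matrix.mul_apply]
      refine (Finset.abs_sum_le_sum_abs _ _).trans ?_
      calc ∑ y, |M z y * N y x| ≤ ∑ y, |M z y| * s := by
            refine Finset.sum_le_sum fun y _ => ?_
            rw [abs_mul]
            exact mul_le_mul_of_nonneg_left (hN y) (abs_nonneg _)
        _ = (∑ y, |M z y|) * s := by rw [Finset.sum_mul]
        _ ≤ c z * s := mul_le_mul_of_nonneg_right (hM z) hs
    calc ((P1 * P2) ^ j) x z * |(M * N) z x| ≤ ((P1 * P2) ^ j) x z * (c z * s) :=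
          mul_le_mul_of_nonneg_left h1 (cmp_nn_pow hP j x z)
      _ = s * (((P1 * P2) ^ j) x z * c z) := by ring
  have hcM : ∀ a, ∑ b, |((T1 * T2) - (P1 * P2)) a b| ≤ c a := by
    intro a
    refine le_trans (le_of_eq ?_) (hc a)
    refine Finset.sum_congr rfl fun b _ => ?_
    rw [Matrix.sub_apply, abs_sub_comm]
  have htel := congrFun (congrFun (cmp_tel (T1 * T2) (P1 * P2) k) x) x
  rw [Matrix.add_apply, Matrix.sum_apply] at htel
  have e1 : ((T1 * T2) ^ (k + 1)) x x - ((P1 * P2) ^ (k + 1)) x x =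
      ∑ i ∈ range (k + 1), ((P1 * P2) ^ i * ((T1 * T2) - (P1 * P2)) * (T1 * T2) ^ (k - i)) x x := by
    linarith
  rw [e1, Finset.sum_range_succ, Nat.sub_self, pow_zero, Matrix.mul_one, mul_add, Finset.sum_range_succ,
    mul_add]
  refine (abs_add_le _ _).trans ?_
  have hfirst : |∑ i ∈ range k, ((P1 * P2) ^ i * ((T1 * T2) - (P1 * P2)) * (T1 * T2) ^ (k - i)) x x| ≤
      s * ∑ i ∈ range k, ∑ z, ((P1 * P2) ^ i) x z * c z := by
    refine (Finset.abs_sum_le_sum_abs _ _).trans ?_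
    rw [Finset.mul_sum]
    refine Finset.sum_le_sum fun i hi => ?_
    refine key i _ _ hcM fun z => ?_
    obtain ⟨j, hj⟩ : ∃ j, k - i = j + 1 := ⟨k - i - 1, by
      have := Finset.mem_range.mp hi; omega⟩
    rw [hj, abs_of_nonneg (cmp_nn_pow hT _ _ _)]
    exact hTs j z
  have hlast : |((P1 * P2) ^ k * ((T1 * T2) - (P1 * P2))) x x| ≤
      s * ∑ z, ((P1 * P2) ^ k) x z * c z + s * γ := by
    have e2 : (P1 * P2) ^ k * ((T1 * T2) - (P1 * P2)) =
        (P1 * P2) ^ k * (T1 - P1) * T2 + (P1 * P2) ^ k * P1 * (T2 - P2) := by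
      simp only [Matrix.mul_sub, Matrix.sub_mul, Matrix.mul_assoc]
      abel
    rw [e2, Matrix.add_apply]
    refine (abs_add_le _ _).trans (add_le_add ?_ ?_)
    · refine key k _ _ (fun a => ?_) fun z => ?_
      · refine le_trans (le_of_eq ?_) (hc1 a)
        refine Finset.sum_congr rfl fun b _ => ?_
        rw [Matrix.sub_apply, abs_sub_comm]
      · rw [abs_of_nonneg (hT2 _ _)]; exact hT2s z
    · rw [Matrix.mul_apply]
      refine (Finset.abs_sum_le_sum_abs _ _).trans ?_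
      calc ∑ y, |((P1 * P2) ^ k * P1) x y * (T2 - P2) y x| ≤ ∑ y, s * |P2 y x - T2 y x| := by
            refine Finset.sum_le_sum fun y _ => ?_
            rw [abs_mul, Matrix.sub_apply, abs_sub_comm (P2 y x),
              abs_of_nonneg (cmp_nn_mul (cmp_nn_pow hP k) hP1 x y)]
            refine mul_le_mul_of_nonneg_right ?_ (abs_nonneg _)
            exact cmp_le (cmp_nn_pow hP k) (cmp_row_pow hPr k) x y fun z => hP1s z y
        _ = s * ∑ y, |P2 y x - T2 y x| := by rw [Finset.mul_sum]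
        _ ≤ s * γ := mul_le_mul_of_nonneg_left hγ hs
  linarith

end cmp

/-- Leaf CMP. -/
theorem cmp_pow : S_CMP := by
  intro V _ _ T1 T2 P1 P2 A x s γ c hT1 hT1' hT2 hT2' hP1 hP1' hP2 hP2' hx hA hs hT2s hP1s hc hc1 hγ k
  have h1 := cmp_part1 T1 T2 P1 P2 x s γ c hT1 hT1' hT2 hT2' hP1 hP1' hP2 hP2' hs hT2s hP1s hc hc1 hγ k
  have h2 := cmp_part2 (T1 * T2) A x s (cmp_nn_mul hT1 hT2) hx hA hs (fun j => by
    rw [pow_succ, ← Matrix.mul_assoc]
    exact cmp_le (cmp_nn_mul (cmp_nn_pow (cmp_nn_mul hT1 hT2) j) hT1)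
      (cmp_row_mul (cmp_row_pow (cmp_row_mul hT1' hT2') j) hT1') x x hT2s) k
  have h3 := abs_sub_le (((T1 * T2) * (dg (univ \ insert x A) * (T1 * T2)) ^ k) x x)
    (((T1 * T2) ^ (k + 1)) x x) (((P1 * P2) ^ (k + 1)) x x)
  linarith

end Pool.Agent.K9h51.SH
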