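import Pool.Agent.K9h51.SH.Stm
import Pool.Agent.Q151.LC.Con2
import Pool.Agent.Q187.LC.Tch
import Pool.Agent.Q277.LC.Ex

/-! Project SH, leaf CTD: contact numbers are dominated by sums over the positions at unit times. -/

set_option autoImplicit false

namespace Pool.Agent.K9h51.SH

open Finset Equiv Matrix Q292.LC
open Pool.Agent.Q151.LC (mem_bal td_comm td_self td_tri tch_single tch_exists tch_shift jumps_mono
  td_jumps td_ed sh_per sum_units wt_unit)

section gen

variable {V : Type} [DecidableEq V]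

lemma ctd_gp (e : ℕ → V × V) (k : ℕ) : gp e (fun _ => false) k = 1 := by
  induction k with
  | zero => rfl
  | succ k ih => rw [gp]; simp [ih]

variable [Fintype V]

/-- one free step -/
lemma ctd_step (e : ℕ → V × V) (δ : ℝ) (h0 : 0 ≤ δ) (h1 : δ ≤ 1 / 2) (k : ℕ) (x p : V) :
    PP e δ k x p ≤ (if tch e (fun _ => false) {p} k then Real.exp (2 * δ) else 1) *
      PP e δ (k + 1) x p := by
  have hDS : ∀ k, Pool.Agent.Q68.LC.DS (PP e δ k) := fun k =>
    Pool.Agent.Q68.LC.DS_TT e _ ∅ h0 (by linarith) k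
  have e1 : PP e δ (k + 1) = PP e δ k * fr δ (e k) := by
    unfold PP
    rw [TT]
    have e3 : Mx e (fun _ => false) ∅ δ k = fr δ (e k) := by
      unfold Mx
      rw [if_neg]
      unfold tch
      simp
    rw [e3]
  have e2 : PP e δ (k + 1) x p = (1 - δ) * PP e δ k x p +
      δ * PP e δ k x (swap (e k).1 (e k).2 p) := by
    rw [e1]
    unfold fr
    rw [Matrix.mul_add, Matrix.mul_smul, Matrix.mul_smul, Matrix.mul_one]
    simp only [Matrix.add_apply, Matrix.smul_apply, smul_eq_mul]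
    congr 2
    rw [Matrix.mul_apply, sum_eq_single (swap (e k).1 (e k).2 p)]
    · unfold pm
      rw [Matrix.of_apply, swap_apply_self, if_pos rfl, mul_one]
    · intro b _ hb
      unfold pm
      rw [Matrix.of_apply, if_neg, mul_zero]
      intro h
      apply hb
      rw [← h, swap_apply_self]
    · intro h
      exact absurd (mem_univ _) h
  have hn1 := (hDS k).nn x p
  have hn2 := (hDS k).nn x (swap (e k).1 (e k).2 p)
  split_ifs with ht
  · have h3 : 1 + 2 * δ ≤ Real.exp (2 * δ) := by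
      have := Real.add_one_le_exp (2 * δ)
      linarith
    have h4 : (1 - δ) * PP e δ k x p ≤ PP e δ (k + 1) x p := by
      rw [e2]
      have := mul_nonneg h0 hn2
      linarith
    have h5 : 1 ≤ Real.exp (2 * δ) * (1 - δ) := by
      calc (1 : ℝ) ≤ (1 + 2 * δ) * (1 - δ) := by nlinarith
        _ ≤ Real.exp (2 * δ) * (1 - δ) := mul_le_mul_of_nonneg_right h3 (by linarith)
    calc PP e δ k x p = 1 * PP e δ k x p := (one_mul _).symm
      _ ≤ (Real.exp (2 * δ) * (1 - δ)) * PP e δ k x p := mul_le_mul_of_nonneg_right h5 hn1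
      _ = Real.exp (2 * δ) * ((1 - δ) * PP e δ k x p) := by ring
      _ ≤ _ := mul_le_mul_of_nonneg_left h4 (Real.exp_nonneg _)
  · rw [one_mul, e2]
    rw [tch_single, ctd_gp] at ht
    simp only [Perm.coe_one, id_eq] at ht
    push Not at ht
    rw [swap_apply_of_ne_of_ne ht.1 ht.2]
    linarith

/-- staying -/
lemma ctd_stay (e : ℕ → V × V) (δ : ℝ) (h0 : 0 ≤ δ) (h1 : δ ≤ 1 / 2) (k m : ℕ) (x p : V) :
    PP e δ k x p ≤ Real.exp (2 * δ * ((Finset.Ico k (k + m)).filter
      fun i => tch e (fun _ => false) {p} i).card) * PP e δ (k + m) x p := by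
  induction m with
  | zero => simp
  | succ m ih =>
    have hnn : 0 ≤ PP e δ (k + m + 1) x p :=
      (Pool.Agent.Q68.LC.DS_TT e (fun _ => false) ∅ h0 (by linarith) (k + m + 1)).nn x p
    have h2 := ctd_step e δ h0 h1 (k + m) x p
    refine ih.trans ?_
    refine (mul_le_mul_of_nonneg_left h2 (Real.exp_nonneg _)).trans (le_of_eq ?_)
    rw [← mul_assoc, ← add_assoc k m 1]
    congr 1
    have e3 : Finset.Ico k (k + m + 1) = insert (k + m) (Finset.Ico k (k + m)) := by
      ext i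
      simp only [mem_insert, mem_Ico]
      omega
    rw [e3, filter_insert]
    split_ifs with ht
    · rw [card_insert_of_notMem (by simp), ← Real.exp_add]
      congr 1
      push_cast
      ring
    · rw [mul_one]

end gen

section torus

variable {d L : ℕ} [NeZero L]

/-- a fixed site is touched at most `2 d q` times in a unit -/
lemma ctd_cnt (hL : 3 ≤ L) (σ : ℕ → (Fin d → ZMod L) × Fin d) (hσ : Per σ) (q j : ℕ)
    (p : Fin d → ZMod L) :
    ((Finset.Ico (j * (q * ms d L)) ((j + 1) * (q * ms d L))).filter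
      fun i => tch (ed ∘ σ) (fun _ => false) {p} i).card ≤ 2 * d * q := by
  have ht := Pool.Agent.Q187.LC.Tch.tch d L hL σ hσ (fun _ => false) q p
  have hJ : jumps (ed ∘ σ) (fun _ => false) 0 (q * ms d L) p = 0 := by
    unfold jumps
    simp
  rw [hJ, add_zero] at ht
  refine le_trans ?_ ht
  have hsh : sh (j * (q * ms d L)) (ed ∘ σ) = ed ∘ σ := by
    rw [← mul_assoc]; exact sh_per hσ _
  apply card_le_card_of_injOn (fun i => i - j * (q * ms d L))
  · intro i hi
    simp only [coe_filter, Set.mem_setOf_eq, mem_Ico, mem_range] at hi ⊢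
    have e1 : (j + 1) * (q * ms d L) = j * (q * ms d L) + q * ms d L := by ring
    refine ⟨by omega, ?_⟩
    have h4 := tch_shift (ed ∘ σ) (fun _ => false) p (j * (q * ms d L)) (i - j * (q * ms d L))
    rw [hsh, ctd_gp] at h4
    have e2 : j * (q * ms d L) + (i - j * (q * ms d L)) = i := by omega
    rw [e2] at h4
    exact h4.1 hi.2
  · intro i hi i' hi' h
    simp only [coe_filter, Set.mem_setOf_eq, mem_Ico] at hi hi' h
    omega

/-- comparison with the end of the unit -/
lemma ctd_end (hd : 1 ≤ d) (hL : 3 ≤ L) (σ : ℕ → (Fin d → ZMod L) × Fin d) (hσ : Per σ) (δ : ℝ)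
    (h0 : 0 < δ) (h4 : 4 * d * δ ≤ 1) (q j m : ℕ) (hq : δ * q ≤ 2) (hm : m ≤ q * ms d L)
    (x p : Fin d → ZMod L) :
    PP (ed ∘ σ) δ (j * (q * ms d L) + m) x p ≤
      Real.exp (8 * d) * PP (ed ∘ σ) δ ((j + 1) * (q * ms d L)) x p := by
  have hd1 : (1 : ℝ) ≤ d := by exact_mod_cast hd
  have hδ : δ ≤ 1 / 2 := by nlinarith
  have h5 := ctd_stay (ed ∘ σ) δ h0.le hδ (j * (q * ms d L) + m) (q * ms d L - m) x p
  have e1 : j * (q * ms d L) + m + (q * ms d L - m) = (j + 1) * (q * ms d L) := by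
    have : (j + 1) * (q * ms d L) = j * (q * ms d L) + q * ms d L := by ring
    omega
  rw [e1] at h5
  refine h5.trans (mul_le_mul_of_nonneg_right (Real.exp_le_exp.2 ?_)
    ((Pool.Agent.Q68.LC.DS_TT (ed ∘ σ) (fun _ => false) ∅ h0.le (by linarith) _).nn x p))
  have h6 : (((Finset.Ico (j * (q * ms d L) + m) ((j + 1) * (q * ms d L))).filter
      fun i => tch (ed ∘ σ) (fun _ => false) {p} i).card : ℝ) ≤ 2 * d * q := by
    have h7 : ((Finset.Ico (j * (q * ms d L) + m) ((j + 1) * (q * ms d L))).filter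
      fun i => tch (ed ∘ σ) (fun _ => false) {p} i).card ≤ 2 * d * q := by
      refine le_trans (card_le_card ?_) (ctd_cnt hL σ hσ q j p)
      apply filter_subset_filter
      exact Finset.Ico_subset_Ico (by omega) le_rfl
    exact_mod_cast h7
  calc 2 * δ * (((Finset.Ico (j * (q * ms d L) + m) ((j + 1) * (q * ms d L))).filter
      fun i => tch (ed ∘ σ) (fun _ => false) {p} i).card : ℝ) ≤ 2 * δ * (2 * d * q) :=
        mul_le_mul_of_nonneg_left h6 (by linarith)
    _ = 4 * d * (δ * q) := by ring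
    _ ≤ 4 * d * 2 := mul_le_mul_of_nonneg_left hq (by positivity)
    _ = 8 * d := by ring

end torus

theorem ctd : S_CTD := by
  classical
  intro d hd
  have hd1 : (1 : ℝ) ≤ d := by exact_mod_cast hd
  refine ⟨16 * d * Real.exp (8 * d) * 3 ^ d, ?_, ?_⟩
  · have h1 : (1 : ℝ) ≤ Real.exp (8 * d) := by
      apply Real.one_le_exp
      positivity
    have h2 : (1 : ℝ) ≤ 3 ^ d := one_le_pow₀ (by norm_num)
    have h3 : (1 : ℝ) ≤ 16 * d := by linarith
    calc (1 : ℝ) = 1 * 1 * 1 := by norm_num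
      _ ≤ 16 * d * Real.exp (8 * d) * 3 ^ d := by gcongr
  intro L _ hL σ hσ δ q K ρ x h0 h4 hq
  set N := q * ms d L with hN
  have hδ1 : δ ≤ 1 := by nlinarith
  have h2 : 2 * d * δ ≤ 1 := by nlinarith
  have hDS : ∀ k, Pool.Agent.Q68.LC.DS (PP (ed ∘ σ) δ k) := fun k =>
    Pool.Agent.Q68.LC.DS_TT (ed ∘ σ) _ ∅ h0.le hδ1 k
  have hθ0 : ∀ j (y : Fin d → ZMod L), 0 ≤ ∑ p ∈ bal y (ρ + 1), PP (ed ∘ σ) δ ((j + 1) * N) x p :=
    fun j y => sum_nonneg fun p _ => (hDS _).nn x p
  refine ⟨fun j y => (8 * ρ + 16 * d) * (Real.exp (8 * d) *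
    ∑ p ∈ bal y (ρ + 1), PP (ed ∘ σ) δ ((j + 1) * N) x p), ?_, ?_, ?_⟩
  · intro j y
    exact mul_nonneg (by positivity) (mul_nonneg (Real.exp_nonneg _) (hθ0 j y))
  · intro j _
    rw [← mul_sum, ← mul_sum]
    have h5 : ∑ y : Fin d → ZMod L, ∑ p ∈ bal y (ρ + 1), PP (ed ∘ σ) δ ((j + 1) * N) x p ≤
        (2 * (ρ + 1) + 1) ^ d := by
      have e1 : ∀ y : Fin d → ZMod L, ∑ p ∈ bal y (ρ + 1), PP (ed ∘ σ) δ ((j + 1) * N) x p =
          ∑ p, PP (ed ∘ σ) δ ((j + 1) * N) x p * (if y ∈ bal p (ρ + 1) then 1 else 0) := by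
        intro y
        rw [← sum_filter_add_sum_filter_not univ (fun p => p ∈ bal y (ρ + 1))]
        rw [filter_mem_eq_inter, univ_inter]
        rw [sum_eq_zero (s := univ.filter fun p => ¬ p ∈ bal y (ρ + 1)), add_zero]
        · apply sum_congr rfl
          intro p hp
          rw [mem_bal] at hp
          rw [if_pos, mul_one]
          rw [mem_bal, td_comm]
          exact hp
        · intro p hp
          rw [mem_filter, mem_bal] at hp
          rw [if_neg, mul_zero]
          rw [mem_bal, td_comm]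
          exact hp.2
      rw [sum_congr rfl fun y _ => e1 y, sum_comm]
      calc ∑ p, ∑ y : Fin d → ZMod L, PP (ed ∘ σ) δ ((j + 1) * N) x p *
            (if y ∈ bal p (ρ + 1) then 1 else 0)
          = ∑ p, PP (ed ∘ σ) δ ((j + 1) * N) x p * ((bal p (ρ + 1)).card : ℝ) := by
            apply sum_congr rfl
            intro p _
            rw [← mul_sum, sum_boole, filter_mem_eq_inter, univ_inter]
        _ ≤ ∑ p, PP (ed ∘ σ) δ ((j + 1) * N) x p * (2 * (ρ + 1) + 1) ^ d := by
            apply sum_le_sum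
            intro p _
            apply mul_le_mul_of_nonneg_left _ ((hDS _).nn x p)
            exact_mod_cast Pool.Agent.Q277.LC.card_bal_le p (ρ + 1)
        _ = (2 * (ρ + 1) + 1) ^ d := by
            rw [← sum_mul, (hDS _).row x, one_mul]
    have h6 : ((2 : ℝ) * (ρ + 1) + 1) ^ d ≤ (3 * (ρ + 1)) ^ d := by
      apply pow_le_pow_left₀ (by positivity)
      have : (0 : ℝ) ≤ ρ := Nat.cast_nonneg _
      linarith
    have h7 : (8 * (ρ : ℝ) + 16 * d) ≤ 16 * d * (ρ + 1) := by
      have : (0 : ℝ) ≤ ρ := Nat.cast_nonneg _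
      nlinarith
    calc (8 * (ρ : ℝ) + 16 * d) * (Real.exp (8 * d) * ∑ y : Fin d → ZMod L,
          ∑ p ∈ bal y (ρ + 1), PP (ed ∘ σ) δ ((j + 1) * N) x p)
        ≤ (16 * d * (ρ + 1)) * (Real.exp (8 * d) * (3 * (ρ + 1)) ^ d) := by
          apply mul_le_mul h7 (mul_le_mul_of_nonneg_left (h5.trans h6) (Real.exp_nonneg _))
          · exact mul_nonneg (Real.exp_nonneg _) (sum_nonneg fun y _ => hθ0 j y)
          · positivity
      _ = 16 * d * Real.exp (8 * d) * 3 ^ d * (ρ + 1) ^ (d + 1) := by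
          rw [mul_pow]; ring
  intro ω A hJ
  set w : ℕ → ℝ := fun k => if ω k then 1 else δ with hw
  have hw0 : ∀ k, 0 ≤ w k := fun k => by rw [hw]; simp only; split_ifs <;> linarith
  set G : ℕ → ℝ := fun k => PP (ed ∘ σ) δ k x ((ed ∘ σ) k).1 + PP (ed ∘ σ) δ k x ((ed ∘ σ) k).2
    with hG
  have hG0 : ∀ k, 0 ≤ G k := fun k => add_nonneg ((hDS _).nn _ _) ((hDS _).nn _ _)
  have h1 : cc (ed ∘ σ) ω A δ (K * N) x =
      2 * ∑ k ∈ range (K * N), (if tch (ed ∘ σ) ω A k then w k * G k else 0) := rfl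
  have h3 : ∀ k, (if tch (ed ∘ σ) ω A k then w k * G k else 0) ≤
      ∑ a ∈ A, (if tch (ed ∘ σ) ω {a} k then w k * G k else 0) := by
    intro k
    have hnn : ∀ a ∈ A, 0 ≤ (if tch (ed ∘ σ) ω {a} k then w k * G k else 0) := by
      intro a _
      split_ifs
      · exact mul_nonneg (hw0 k) (hG0 k)
      · exact le_refl _
    split_ifs with ht
    · obtain ⟨a, ha, hta⟩ := tch_exists.1 ht
      refine le_trans (le_of_eq ?_) (single_le_sum hnn ha)
      rw [if_pos hta]
    · exact sum_nonneg hnn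
  have h4' : ∑ k ∈ range (K * N), (if tch (ed ∘ σ) ω A k then w k * G k else 0) ≤
      ∑ a ∈ A, ∑ j ∈ range K, ∑ m ∈ range N, (if tch (ed ∘ σ) ω {a} (j * N + m) then
        w (j * N + m) * G (j * N + m) else 0) := by
    refine (sum_le_sum fun k _ => h3 k).trans (le_of_eq ?_)
    rw [sum_comm]
    apply sum_congr rfl
    intro a _
    rw [sum_units]
  have h5 : ∀ a ∈ A, ∀ j ∈ range K, ∑ m ∈ range N, (if tch (ed ∘ σ) ω {a} (j * N + m) then
      w (j * N + m) * G (j * N + m) else 0) ≤ (4 * ρ + 8 * d) * (Real.exp (8 * d) *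
        ∑ p ∈ bal (gp (ed ∘ σ) ω (j * N) a) (ρ + 1), PP (ed ∘ σ) δ ((j + 1) * N) x p) := by
    intro a ha j hj
    rw [mem_range] at hj
    have hJa := hJ j hj a ha
    have hwt := wt_unit Pool.Agent.Q187.LC.Tch.tch hL σ hσ ω δ q ρ j a h0 h2 hq hJa
    rw [← hN] at hwt
    set θ : ℝ := Real.exp (8 * d) *
        ∑ p ∈ bal (gp (ed ∘ σ) ω (j * N) a) (ρ + 1), PP (ed ∘ σ) δ ((j + 1) * N) x p with hθ
    have hθ1 : 0 ≤ θ := mul_nonneg (Real.exp_nonneg _) (hθ0 j _)
    have hend : ∀ m, m < N → tch (ed ∘ σ) ω {a} (j * N + m) → G (j * N + m) ≤ 2 * θ := by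
      intro m hm ht
      have hmove := td_jumps σ ω (j * N) m a
      have hmove2 : jumps (ed ∘ σ) ω (j * N) (j * N + m) a ≤ ρ := by
        refine le_trans (jumps_mono (ed ∘ σ) ω a (le_refl _) ?_) hJa
        have e : (j + 1) * N = j * N + N := by ring
        omega
      have hed := td_ed (σ (j * N + m))
      have hpt : ∀ y, td y (gp (ed ∘ σ) ω (j * N + m) a) ≤ 1 →
          PP (ed ∘ σ) δ (j * N + m) x y ≤ θ := by
        intro y hy
        refine (ctd_end hd hL σ hσ δ h0 h4 q j m hq hm.le x y).trans ?_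
        apply mul_le_mul_of_nonneg_left _ (Real.exp_nonneg _)
        apply single_le_sum (f := fun p => PP (ed ∘ σ) δ ((j + 1) * N) x p)
          (fun p _ => (hDS _).nn x p)
        rw [mem_bal, td_comm]
        have t3 := td_tri y (gp (ed ∘ σ) ω (j * N + m) a) (gp (ed ∘ σ) ω (j * N) a)
        omega
      have g1 : PP (ed ∘ σ) δ (j * N + m) x ((ed ∘ σ) (j * N + m)).1 ≤ θ := by
        apply hpt
        rcases tch_single.1 ht with h | h
        · rw [h, td_self]; exact Nat.zero_le _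
        · rw [h]; exact hed
      have g2 : PP (ed ∘ σ) δ (j * N + m) x ((ed ∘ σ) (j * N + m)).2 ≤ θ := by
        apply hpt
        rcases tch_single.1 ht with h | h
        · rw [h, td_comm]; exact hed
        · rw [h, td_self]; exact Nat.zero_le _
      rw [hG]
      simp only
      linarith
    have h6 : ∀ m ∈ range N, (if tch (ed ∘ σ) ω {a} (j * N + m) then
        w (j * N + m) * G (j * N + m) else 0) ≤
        2 * θ * (if tch (ed ∘ σ) ω {a} (j * N + m) then
          (if ω (j * N + m) then (1 : ℝ) else δ) else 0) := by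
      intro m hm
      rw [mem_range] at hm
      split_ifs with ht ho
      · have := mul_le_mul_of_nonneg_left (hend m hm ht) (hw0 (j * N + m))
        have e : w (j * N + m) = 1 := by rw [hw]; simp only; rw [if_pos ho]
        rw [e] at this ⊢
        linarith
      · have := mul_le_mul_of_nonneg_left (hend m hm ht) (hw0 (j * N + m))
        have e : w (j * N + m) = δ := by rw [hw]; simp only; rw [if_neg ho]
        rw [e] at this ⊢
        linarith
      · simp
    refine (sum_le_sum h6).trans ?_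
    rw [← mul_sum]
    calc 2 * θ * ∑ m ∈ range N, (if tch (ed ∘ σ) ω {a} (j * N + m) then
          (if ω (j * N + m) then (1 : ℝ) else δ) else 0)
        ≤ 2 * θ * (2 * ρ + 4 * d) := mul_le_mul_of_nonneg_left hwt (by linarith)
      _ = (4 * ρ + 8 * d) * θ := by ring
  rw [h1]
  have h6 : ∑ a ∈ A, ∑ j ∈ range K, ∑ m ∈ range N, (if tch (ed ∘ σ) ω {a} (j * N + m) then
      w (j * N + m) * G (j * N + m) else 0) ≤
      ∑ a ∈ A, ∑ j ∈ range K, (4 * ρ + 8 * d) * (Real.exp (8 * d) *
        ∑ p ∈ bal (gp (ed ∘ σ) ω (j * N) a) (ρ + 1), PP (ed ∘ σ) δ ((j + 1) * N) x p) :=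
    sum_le_sum fun a ha => sum_le_sum fun j hj => h5 a ha j hj
  calc 2 * ∑ k ∈ range (K * N), (if tch (ed ∘ σ) ω A k then w k * G k else 0) ≤
        2 * ∑ a ∈ A, ∑ j ∈ range K, (4 * ρ + 8 * d) * (Real.exp (8 * d) *
        ∑ p ∈ bal (gp (ed ∘ σ) ω (j * N) a) (ρ + 1), PP (ed ∘ σ) δ ((j + 1) * N) x p) := by
        linarith [h4'.trans h6]
    _ = _ := by
        rw [sum_comm, mul_sum]
        apply sum_congr rfl
        intro j _
        rw [mul_sum]
        apply sum_congr rfl
        intro a _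
        ring

end Pool.Agent.K9h51.SH
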