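import Pool.Agent.K9h51.SH.Stm
import Pool.Agent.Q277.LC.Pe
import Pool.Agent.Q68.LC.Rot
import Pool.Agent.Q68.LC.Bas3
import Pool.Agent.Q257.LC.Badp

/-!
# Project SH, leaf CTM (helper90): mean of a sum over the positions of the marked particles
-/

set_option autoImplicit false

namespace Pool.Agent.K9h51.SH

open Finset Equiv Matrix Q292.LC
open Pool.Agent.Q68.LC (EE_congr EE_const EE_add EE_smul EE_mono EE_rot)

section ctm

variable {V : Type} [Fintype V] [DecidableEq V]

/-- an invariant set which contains `z` and not `x` -/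
theorem ctm_point (g : Perm V) (w : ℝ) (h0 : 0 ≤ w) (h1 : w < 1) (x z : V) :
    ∑ A : Finset V, (if (Inv g A ∧ x ∉ A) ∧ z ∈ A then
      w ^ A.card * dS w (univ \ insert x A) (pm g) else 0) ≤ w ^ (cyc g z).card := by
  by_cases hx : x ∈ cyc g z
  · have h2 : ∑ A : Finset V, (if (Inv g A ∧ x ∉ A) ∧ z ∈ A then
        w ^ A.card * dS w (univ \ insert x A) (pm g) else 0) = 0 := by
      refine Finset.sum_eq_zero fun A _ => ?_
      rw [if_neg]
      rintro ⟨⟨hA, hxA⟩, hz⟩
      exact hxA (Pool.Agent.Q153.LC.cyc_sub g A hA z hz hx)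
    rw [h2]
    positivity
  · have h := Pool.Agent.Q277.LC.p1_all V g w (insert x (cyc g z)) h0 h1
    have h2 : ∑ A : Finset V, (if (Inv g A ∧ x ∉ A) ∧ z ∈ A then
        w ^ A.card * dS w (univ \ insert x A) (pm g) else 0) =
        ∑ A : Finset V, w ^ (cyc g z).card * (if Inv g A ∧ Disjoint A (insert x (cyc g z)) then
          w ^ A.card * dS w (univ \ (A ∪ insert x (cyc g z))) (pm g) else 0) := by
      simp_rw [mul_ite, mul_zero]
      rw [← Finset.sum_filter, ← Finset.sum_filter]
      refine Finset.sum_bij' (fun A _ => A \ cyc g z) (fun A _ => A ∪ cyc g z) ?_ ?_ ?_ ?_ ?_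
      · intro A hA
        rw [Finset.mem_filter] at hA ⊢
        refine ⟨Finset.mem_univ _, Pool.Agent.Q153.LC.inv_sdiff g A _ hA.2.1.1
          (Pool.Agent.Q153.LC.inv_cyc g z), ?_⟩
        rw [Finset.disjoint_insert_right]
        refine ⟨?_, Finset.sdiff_disjoint⟩
        intro hc
        exact hA.2.1.2 (Finset.mem_sdiff.1 hc).1
      · intro A hA
        rw [Finset.mem_filter] at hA ⊢
        have hd := hA.2.2
        rw [Finset.disjoint_insert_right] at hd
        refine ⟨Finset.mem_univ _, ⟨Pool.Agent.Q153.LC.inv_union g A _ hA.2.1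
          (Pool.Agent.Q153.LC.inv_cyc g z), ?_⟩, ?_⟩
        · rw [Finset.mem_union]
          rintro (hc | hc)
          · exact hd.1 hc
          · exact hx hc
        · exact Finset.mem_union_right _ ((Pool.Agent.Q153.LC.mem_cyc g z z).2 (Perm.SameCycle.refl g z))
      · intro A hA
        rw [Finset.mem_filter] at hA
        exact Finset.sdiff_union_of_subset (Pool.Agent.Q153.LC.cyc_sub g A hA.2.1.1 z hA.2.2)
      · intro A hA
        rw [Finset.mem_filter] at hA
        have hd := hA.2.2
        rw [Finset.disjoint_insert_right] at hd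
        exact Finset.union_sdiff_cancel_right hd.2
      · intro A hA
        rw [Finset.mem_filter] at hA
        have hs := Pool.Agent.Q153.LC.cyc_sub g A hA.2.1.1 z hA.2.2
        have hset : (A \ cyc g z) ∪ insert x (cyc g z) = insert x A := by
          rw [Finset.union_insert, Finset.sdiff_union_of_subset hs]
        rw [hset, ← mul_assoc, ← pow_add]
        congr 2
        rw [Finset.card_sdiff_of_subset hs]
        have := Finset.card_le_card hs
        omega
    rw [h2, ← Finset.mul_sum, h, mul_one]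

theorem ctm_EE_sum {ι : Type} (n : ℕ) (δ : ℝ) (s : Finset ι) (F : ι → (ℕ → Bool) → ℝ) :
    EE n δ (fun ω => ∑ i ∈ s, F i ω) = ∑ i ∈ s, EE n δ (F i) := by
  unfold EE
  rw [Finset.sum_comm]
  refine Finset.sum_congr rfl fun S _ => ?_
  rw [Finset.mul_sum]

end ctm

theorem ctm : S_CTM := by
  intro V _ _ e u K j δ w κ x f hδ0 hδ1 hw0 hw1 hu hK hj he hf hκ
  have hn : 0 < K * u := Nat.mul_pos hK hu
  -- pointwise
  have hpt : ∀ ω : ℕ → Bool, ∑ A : Finset V, (if Inv (gp e ω (K * u)) A ∧ x ∉ A then
      w ^ A.card * dS w (univ \ insert x A) (pm (gp e ω (K * u))) *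
        ∑ a ∈ A, f (gp e ω (j * u) a) else 0) ≤
      ∑ y : V, f y * w ^ (cyc (gp e (rot (K * u) (j * u) ω) (K * u)) y).card := by
    intro ω
    set g := gp e ω (K * u) with hg
    set h := gp e ω (j * u) with hh
    have h1 : ∑ A : Finset V, (if Inv g A ∧ x ∉ A then
        w ^ A.card * dS w (univ \ insert x A) (pm g) * ∑ a ∈ A, f (h a) else 0) =
        ∑ z : V, f (h z) * ∑ A : Finset V, (if (Inv g A ∧ x ∉ A) ∧ z ∈ A then
          w ^ A.card * dS w (univ \ insert x A) (pm g) else 0) := by
      simp_rw [Finset.mul_sum]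
      rw [Finset.sum_comm]
      refine Finset.sum_congr rfl fun A _ => ?_
      by_cases hA : Inv g A ∧ x ∉ A
      · rw [if_pos hA, ← Finset.sum_filter_add_sum_filter_not univ (fun z => z ∈ A)]
        have h2 : ∑ z ∈ univ.filter (fun z => z ∉ A), f (h z) * (if (Inv g A ∧ x ∉ A) ∧ z ∈ A then
          w ^ A.card * dS w (univ \ insert x A) (pm g) else 0) = 0 := by
          refine Finset.sum_eq_zero fun z hz => ?_
          rw [Finset.mem_filter] at hz
          rw [if_neg (fun hc => hz.2 hc.2), mul_zero]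
        rw [h2, add_zero, Finset.filter_mem_eq_inter, Finset.univ_inter]
        refine Finset.sum_congr rfl fun z hz => ?_
        rw [if_pos ⟨hA, hz⟩]
        ring
      · rw [if_neg hA]
        symm
        refine Finset.sum_eq_zero fun z _ => ?_
        rw [if_neg (fun hc => hA hc.1), mul_zero]
    rw [h1]
    have h3 : ∑ z : V, f (h z) * ∑ A : Finset V, (if (Inv g A ∧ x ∉ A) ∧ z ∈ A then
          w ^ A.card * dS w (univ \ insert x A) (pm g) else 0) ≤
        ∑ z : V, f (h z) * w ^ (cyc g z).card :=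
      Finset.sum_le_sum fun z _ => mul_le_mul_of_nonneg_left (ctm_point g w hw0 hw1 x z) (hf _)
    refine h3.trans (le_of_eq ?_)
    have hrot := (Pool.Agent.Q68.LC.t_rot V e u K j hu hj he ω).2.2
    rw [hrot, ← hg, ← hh, ← Equiv.sum_comp h (fun y => f y * w ^ (cyc (h * g * h⁻¹) y).card)]
    refine Finset.sum_congr rfl fun z _ => ?_
    rw [Pool.Agent.Q257.LC.cyc_conj, Finset.card_image_of_injective _ h.injective]
  unfold PX
  refine (EE_mono hδ0 hδ1 hpt).trans ?_
  have h4 : EE (K * u) δ (fun ω => ∑ y : V, f y * w ^ (cyc (gp e (rot (K * u) (j * u) ω) (K * u)) y).card) =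
      ∑ y : V, f y * EE (K * u) δ (fun ω => w ^ (cyc (gp e ω (K * u)) y).card) := by
    rw [ctm_EE_sum]
    refine Finset.sum_congr rfl fun y _ => ?_
    rw [EE_smul]
    congr 1
    exact EE_rot δ (j * u) (fun ω => w ^ (cyc (gp e ω (K * u)) y).card) hn
  rw [h4, Finset.mul_sum]
  refine Finset.sum_le_sum fun y _ => ?_
  rw [mul_comm κ]
  exact mul_le_mul_of_nonneg_left (hκ y) (hf y)

end Pool.Agent.K9h51.SH
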