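import Pool.Agent.K9h51.SH.Kr2
import Pool.Agent.Q297.LC.Par
import Pool.Agent.Q297.LC.Tlc

/-!
# Project SH: choice of the parameters, the environment of the marked particles
-/

set_option autoImplicit false

namespace Pool.Agent.K9h51.SH

open Finset Equiv Matrix Q292.LC
open Pool.Agent.Q297.LC (exists_root pow_exp fail_bound)

/-- the conclusion of `kr2` for one environment -/
def KB {d L : ℕ} [NeZero L] (σ : ℕ → (Fin d → ZMod L) × Fin d) (q K : ℕ) (δ C : ℝ)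
    (ω : ℕ → Bool) (R : Finset (Fin d → ZMod L)) (x : Fin d → ZMod L) : Prop :=
  (∀ U : Finset (Fin d → ZMod L), Disjoint U R → ∀ k : ℕ,
    (TT (ed ∘ σ) ω R δ (K * (q * ms d L)) *
      (dg U * TT (ed ∘ σ) ω R δ (K * (q * ms d L))) ^ k) x x ≤
      C * (1 / (L : ℝ) ^ d + (K : ℝ) ^ (-(d / 2 : ℝ)) * ((k : ℝ) + 1) ^ (-(d / 2 : ℝ)))) ∧
  ∀ a : Fin d → ZMod L,
    TT (ed ∘ σ) (sh ((K / 2) * (q * ms d L)) ω)
      (R.image (gp (ed ∘ σ) ω ((K / 2) * (q * ms d L)))) δ ((K - K / 2) * (q * ms d L)) a x ≤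
      C * (1 / (L : ℝ) ^ d + (K : ℝ) ^ (-(d / 2 : ℝ)))

theorem KB_mono {d L : ℕ} [NeZero L] (σ : ℕ → (Fin d → ZMod L) × Fin d) (q K : ℕ) (δ C C' : ℝ)
    (hCC : C ≤ C') (ω : ℕ → Bool) (R : Finset (Fin d → ZMod L)) (x : Fin d → ZMod L)
    (h : KB σ q K δ C ω R x) : KB σ q K δ C' ω R x := by
  refine ⟨fun U hU k => (h.1 U hU k).trans ?_, fun a => (h.2 a).trans ?_⟩
  · exact mul_le_mul_of_nonneg_right hCC (by positivity)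
  · exact mul_le_mul_of_nonneg_right hCC (by positivity)

/-- BTL (first part) and KR2 together -/
theorem both : ∀ d : ℕ, 3 ≤ d → ∃ (C m : ℕ), 1 ≤ C ∧ 1 ≤ m ∧ ∀ Z : ℕ, C ≤ Z →
  ∀ (L K lam r ρ κ₀ : ℕ) [NeZero L], lam ≤ Z → ρ ≤ Z → 2 * κ₀ + 1 ≤ Z →
  (L : ℝ) ^ d ≤ Real.exp Z → Z ^ m ≤ r → 8 * Z ^ m ≤ L → Z ^ m ≤ K → K ≤ L ^ d →
  ∃ q₀ : ℕ, ∀ q ≥ q₀,
  ∀ σ : ℕ → (Fin d → ZMod L) × Fin d, Per σ → ∀ δ : ℝ, 1 ≤ δ * q → δ * q ≤ 2 →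
  (∀ w : ℝ, 0 ≤ w → w < 1 → ∀ κ : ℝ,
  κ = C * ((K : ℝ) ^ (-(d / 2 : ℝ)) + 1 / ((L : ℝ) ^ d * (1 - w))) → (lam + 2) * κ ≤ 1 →
  PW (ed ∘ σ) (K * (q * ms d L)) δ w (fun ω A => ¬ Gd σ q K lam r ρ (2 * κ₀) ω A) ≤
    C * ((L : ℝ) ^ (2 * d) * Real.exp (-(ρ : ℝ)) + (L : ℝ) ^ (2 * d) * (1 / 2) ^ (κ₀ / C)) +
    K * (L : ℝ) ^ (2 * d) * (lam + 1) * ((2 * r + 1 : ℕ) : ℝ) ^ d *
      (((2 * r + 1 : ℕ) : ℝ) ^ d * ((lam + 2) * κ)) ^ lam) ∧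
  ∀ (ω : ℕ → Bool) (R : Finset (Fin d → ZMod L)), Gd σ q K lam r ρ (2 * κ₀) ω R →
  Inv (gp (ed ∘ σ) ω (K * (q * ms d L))) R → ∀ x : Fin d → ZMod L, x ∉ R →
  KB σ q K δ C ω R x := by
  intro d hd
  obtain ⟨C1, m1, hC1, hB⟩ := Q292.LC.all_btl d hd
  obtain ⟨C2, m2, hC2, hK⟩ := kr2 d hd
  obtain ⟨C, hC⟩ : ∃ C, C = max C1 C2 := ⟨_, rfl⟩
  obtain ⟨m, hm⟩ : ∃ m, m = max m1 m2 + 1 := ⟨_, rfl⟩
  have c1 : C1 ≤ C := by rw [hC]; exact le_max_left _ _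
  have c2 : C2 ≤ C := by rw [hC]; exact le_max_right _ _
  have m1' : m1 ≤ m := by rw [hm]; exact (le_max_left _ _).trans (Nat.le_succ _)
  have m2' : m2 ≤ m := by rw [hm]; exact (le_max_right _ _).trans (Nat.le_succ _)
  refine ⟨C, m, by omega, by omega, ?_⟩
  intro Z hZ L K lam r ρ κ₀ _ h1 h2 h3 h4 h5 h6 h7 h8
  have hZ1 : 1 ≤ Z := by omega
  have p1 : Z ^ m1 ≤ Z ^ m := Nat.pow_le_pow_right hZ1 m1'
  have p2 : Z ^ m2 ≤ Z ^ m := Nat.pow_le_pow_right hZ1 m2'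
  obtain ⟨q1, hq1⟩ := hB Z (by omega) L K lam r ρ κ₀ h1 h2 h3 h4 (by omega) (by omega)
    (by omega) h8
  obtain ⟨q2, hq2⟩ := hK Z (by omega) L K lam r ρ (2 * κ₀) h1 h2 h3 h4 (by omega) (by omega)
    (by omega)
  refine ⟨q1 + q2, ?_⟩
  intro q hq σ hσ δ hδ1 hδ2
  have hL0 : 0 < L := Nat.pos_of_ne_zero (NeZero.ne L)
  have hLp : (0 : ℝ) < (L : ℝ) ^ d := by
    have : (0 : ℝ) < L := by exact_mod_cast hL0
    positivity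
  constructor
  · intro w hw0 hw1 κ hκ hlκ
    have hbr : 0 ≤ ((K : ℝ) ^ (-(d / 2 : ℝ)) + 1 / ((L : ℝ) ^ d * (1 - w))) := by
      have : 0 < 1 - w := by linarith
      positivity
    obtain ⟨κ', hκ'⟩ : ∃ κ', κ' = C1 * ((K : ℝ) ^ (-(d / 2 : ℝ)) + 1 / ((L : ℝ) ^ d * (1 - w))) :=
      ⟨_, rfl⟩
    have hκκ : κ' ≤ κ := by
      rw [hκ', hκ]
      exact mul_le_mul_of_nonneg_right (by exact_mod_cast c1) hbr
    have hκ0' : 0 ≤ κ' := by rw [hκ']; positivity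
    have hl' : ((lam : ℝ) + 2) * κ' ≤ 1 :=
      le_trans (mul_le_mul_of_nonneg_left hκκ (by positivity)) hlκ
    refine (hq1 q (by omega) σ hσ δ hδ1 hδ2 w hw0 hw1 κ' hκ' hl').1.trans ?_
    have s0 : (C1 : ℝ) ≤ C := by exact_mod_cast c1
    have s1 : (1 / 2 : ℝ) ^ (κ₀ / C1) ≤ (1 / 2) ^ (κ₀ / C) := by
      refine pow_le_pow_of_le_one (by norm_num) (by norm_num) ?_
      exact Nat.div_le_div_left c1 (by omega)
    have s5 : (0 : ℝ) ≤ ((2 * r + 1 : ℕ) : ℝ) ^ d * (((lam : ℝ) + 2) * κ') := by positivity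
    have s6 : ((2 * r + 1 : ℕ) : ℝ) ^ d * (((lam : ℝ) + 2) * κ') ≤
        ((2 * r + 1 : ℕ) : ℝ) ^ d * (((lam : ℝ) + 2) * κ) := by
      refine mul_le_mul_of_nonneg_left (mul_le_mul_of_nonneg_left hκκ (by positivity))
        (by positivity)
    refine add_le_add ?_ ?_
    · have s4 : (0 : ℝ) ≤ (L : ℝ) ^ (2 * d) := by positivity
      calc (C1 : ℝ) * ((L : ℝ) ^ (2 * d) * Real.exp (-(ρ : ℝ)) +
            (L : ℝ) ^ (2 * d) * (1 / 2) ^ (κ₀ / C1))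
          ≤ (C : ℝ) * ((L : ℝ) ^ (2 * d) * Real.exp (-(ρ : ℝ)) +
            (L : ℝ) ^ (2 * d) * (1 / 2) ^ (κ₀ / C1)) :=
            mul_le_mul_of_nonneg_right s0 (by positivity)
        _ ≤ _ := by
            refine mul_le_mul_of_nonneg_left ?_ (by positivity)
            have := mul_le_mul_of_nonneg_left s1 s4
            linarith
    · exact mul_le_mul_of_nonneg_left (pow_le_pow_left₀ s5 s6 _) (by positivity)
  · intro ω R hGd hInv x hx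
    exact KB_mono σ q K δ C2 C (by exact_mod_cast c2) ω R x
      (hq2 q (by omega) σ hσ δ hδ1 hδ2 ω R hGd hInv x hx)

/-- ENV. The environment of the marked particles, with parameters chosen. -/
theorem env : ∀ d : ℕ, 3 ≤ d → ∃ (C : ℝ) (m : ℕ), 1 ≤ C ∧ ∀ (L K : ℕ) [NeZero L] (w : ℝ),
  m ≤ K → K ≤ L ^ d → (Real.log L) ^ m ≤ K → 0 ≤ w → w < 1 →
  1 / ((L : ℝ) ^ d * (1 - w)) ≤ 2 / K →
  ∃ Z r : ℕ, 1 ≤ Z ∧ Z ≤ r ∧ 64 ≤ L ∧ 2 ≤ K ∧ (Z + 1) ^ (4 * (d + 1)) ≤ K ∧ ∃ q₀ : ℕ, ∀ q ≥ q₀,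
  ∀ σ : ℕ → (Fin d → ZMod L) × Fin d, Per σ → ∀ δ : ℝ, 1 ≤ δ * q → δ * q ≤ 2 →
  PW (ed ∘ σ) (K * (q * ms d L)) δ w (fun ω A => ¬ Gd σ q K Z r Z (2 * ((Z - 1) / 2)) ω A) ≤
    C * (1 / (L : ℝ) ^ d) ∧
  ∀ (ω : ℕ → Bool) (R : Finset (Fin d → ZMod L)), Gd σ q K Z r Z (2 * ((Z - 1) / 2)) ω R →
  Inv (gp (ed ∘ σ) ω (K * (q * ms d L))) R → ∀ x : Fin d → ZMod L, x ∉ R →
  KB σ q K δ C ω R x := by
  intro d hd
  obtain ⟨C₁, m₁, hC₁, hm₁, hB⟩ := both d hd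
  set Z₀ : ℕ := 18 * 3 ^ d * C₁ with hZ₀
  set m₂ : ℕ := 2 * d * m₁ + m₁ + 4 + 8 * (d + 1) with hm₂
  set C₂ : ℕ := 100 * d * C₁ with hC₂
  set M : ℕ := ⌈Real.exp (d * (C₂ + 1))⌉₊ with hM
  refine ⟨5 * C₁ + 1, 2 * m₂ + (Z₀ + 1) ^ m₂ + M, ?_, ?_⟩
  · have : (1 : ℝ) ≤ C₁ := by exact_mod_cast hC₁
    linarith
  intro L K _ w hmK hKL hlogK hw0 hw1 hwK
  have hLpos : 1 ≤ L := Nat.pos_of_ne_zero (NeZero.ne L)
  have hLr : (0 : ℝ) < L := by exact_mod_cast hLpos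
  have hC₁' : (1 : ℝ) ≤ C₁ := by exact_mod_cast hC₁
  have hd' : (3 : ℝ) ≤ d := by exact_mod_cast hd
  have p3d : 27 ≤ 3 ^ d := by
    calc 27 = 3 ^ 3 := by norm_num
      _ ≤ 3 ^ d := Nat.pow_le_pow_right (by norm_num) hd
  have hZ₀C : C₁ ≤ Z₀ := by
    rw [hZ₀]; exact Nat.le_mul_of_pos_left _ (by positivity)
  have hZ₀3 : 18 * 3 ^ d ≤ Z₀ := by
    rw [hZ₀]; exact Nat.le_mul_of_pos_right _ hC₁
  -- the logarithm
  set ℓ := Real.log L with hℓ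
  have hKpos : 1 ≤ K := by
    have : 1 ≤ (Z₀ + 1) ^ m₂ := Nat.one_le_pow _ _ (by omega)
    omega
  have hKr : (1 : ℝ) ≤ K := by exact_mod_cast hKpos
  have hℓC : (C₂ : ℝ) + 1 ≤ ℓ := by
    have h1 : Real.exp (d * (C₂ + 1)) ≤ (L : ℝ) ^ d := by
      have h2 : Real.exp (d * (C₂ + 1)) ≤ M := Nat.le_ceil _
      have h3 : (M : ℝ) ≤ K := by exact_mod_cast (by omega : M ≤ K)
      have h4 : (K : ℝ) ≤ (L : ℝ) ^ d := by exact_mod_cast hKL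
      linarith
    rw [pow_exp hLpos, Real.exp_le_exp] at h1
    have : (0 : ℝ) < d := by linarith
    exact le_of_mul_le_mul_left h1 this
  have hC₂r : (300 : ℝ) ≤ C₂ := by
    rw [hC₂]; push_cast
    nlinarith
  have hℓ1 : 1 ≤ ℓ := by linarith
  have hL64 : 64 ≤ L := by
    have h1 : ℓ + 1 ≤ Real.exp ℓ := Real.add_one_le_exp ℓ
    rw [hℓ, Real.exp_log hLr, ← hℓ] at h1
    have h2 : (64 : ℝ) ≤ L := by linarith
    exact_mod_cast h2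
  -- the number Z
  obtain ⟨Z, hZ1, hZ2⟩ := exists_root m₂ K (by omega)
  have hZZ₀ : Z₀ ≤ Z := by
    have h1 : (Z₀ + 1) ^ m₂ < (Z + 1) ^ m₂ := by omega
    have h2 := lt_of_pow_lt_pow_left₀ m₂ (Nat.zero_le _) h1
    omega
  have hZℓ : (C₂ : ℝ) * ℓ ≤ Z := by
    have h1 : (ℓ ^ 2) ^ m₂ < ((Z : ℝ) + 1) ^ m₂ := by
      have h2 : (ℓ ^ 2) ^ m₂ ≤ ℓ ^ (2 * m₂ + (Z₀ + 1) ^ m₂ + M) := by
        rw [← pow_mul]
        exact pow_le_pow_right₀ hℓ1 (by omega)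
      have h3 : (K : ℝ) < ((Z : ℝ) + 1) ^ m₂ := by exact_mod_cast hZ2
      linarith
    have h4 : ℓ ^ 2 < (Z : ℝ) + 1 := lt_of_pow_lt_pow_left₀ m₂ (by positivity) h1
    nlinarith
  have hZpos : 1 ≤ Z := by omega
  have hZr : (1 : ℝ) ≤ Z := by exact_mod_cast hZpos
  -- powers of Z
  have hroot : Z ^ (2 * m₁) ≤ L := by
    have h1 : (Z ^ (2 * m₁)) ^ d ≤ L ^ d := by
      rw [← pow_mul]
      refine le_trans ?_ (hZ1.trans hKL)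
      refine Nat.pow_le_pow_right hZpos ?_
      rw [hm₂]
      have : 2 * m₁ * d = 2 * d * m₁ := by ring
      omega
    exact le_of_pow_le_pow_left₀ (by omega) (Nat.zero_le _) h1
  have hZL : 8 * Z ^ m₁ ≤ L := by
    have h1 : (Z ^ m₁) ^ 2 ≤ L := by rw [← pow_mul, Nat.mul_comm]; exact hroot
    by_contra hcon
    push Not at hcon
    have h2 : L * L < (8 * Z ^ m₁) * (8 * Z ^ m₁) := Nat.mul_lt_mul'' hcon hcon
    nlinarith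
  have hZK : Z ^ m₁ ≤ K := (Nat.pow_le_pow_right hZpos (by omega)).trans hZ1
  set r := Z ^ m₁ with hr
  have hr1 : 1 ≤ r := Nat.one_le_pow _ _ hZpos
  -- kappa
  set κ : ℝ := C₁ * ((K : ℝ) ^ (-(d / 2 : ℝ)) + 1 / ((L : ℝ) ^ d * (1 - w))) with hκ
  have h1w : 0 < 1 - w := by linarith
  have hLd : (0 : ℝ) < (L : ℝ) ^ d := by positivity
  have hκ0 : 0 ≤ κ := by
    have : 0 ≤ (K : ℝ) ^ (-(d / 2 : ℝ)) := Real.rpow_nonneg (by linarith) _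
    positivity
  have hKd : (K : ℝ) ^ (-(d / 2 : ℝ)) ≤ 1 / K := by
    rw [one_div, ← Real.rpow_neg_one]
    refine Real.rpow_le_rpow_of_exponent_le hKr ?_
    linarith
  have hκK : κ * K ≤ 3 * C₁ := by
    have h1 : κ ≤ C₁ * (1 / K + 2 / K) := by
      rw [hκ]
      exact mul_le_mul_of_nonneg_left (add_le_add hKd hwK) (by linarith)
    have h2 : C₁ * (1 / (K : ℝ) + 2 / K) * K = 3 * C₁ := by field_simp; ring
    calc κ * K ≤ C₁ * (1 / K + 2 / K) * K := mul_le_mul_of_nonneg_right h1 (by linarith)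
      _ = 3 * C₁ := h2
  have hZ4 : (Z : ℝ) ^ (d * m₁ + 4) ≤ K := by
    have : Z ^ (d * m₁ + 4) ≤ K := by
      refine (Nat.pow_le_pow_right hZpos ?_).trans hZ1
      rw [hm₂]
      nlinarith
    exact_mod_cast this
  have hκ1 : κ * ((Z : ℝ) ^ (d * m₁) * Z ^ 4) ≤ 3 * C₁ := by
    rw [← pow_add]
    exact (mul_le_mul_of_nonneg_left hZ4 hκ0).trans hκK
  have hZbig : 18 * (3 : ℝ) ^ d * C₁ ≤ Z := by
    have : ((18 * 3 ^ d * C₁ : ℕ) : ℝ) ≤ Z := by exact_mod_cast hZZ₀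
    push_cast at this
    exact this
  have p3d' : (27 : ℝ) ≤ 3 ^ d := by exact_mod_cast p3d
  have hr2 : ((2 * r + 1 : ℕ) : ℝ) ^ d ≤ 3 ^ d * (Z : ℝ) ^ (d * m₁) := by
    have h1 : ((2 * r + 1 : ℕ) : ℝ) ≤ 3 * (Z : ℝ) ^ m₁ := by
      have h2 : 2 * r + 1 ≤ 3 * Z ^ m₁ := by rw [← hr]; omega
      exact_mod_cast h2
    calc ((2 * r + 1 : ℕ) : ℝ) ^ d ≤ (3 * (Z : ℝ) ^ m₁) ^ d := pow_le_pow_left₀ (by positivity) h1 d
      _ = 3 ^ d * (Z : ℝ) ^ (d * m₁) := by rw [mul_pow, ← pow_mul, Nat.mul_comm]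
  have hZP : (0 : ℝ) < (Z : ℝ) ^ (d * m₁) := by positivity
  have hkey : ((2 * r + 1 : ℕ) : ℝ) ^ d * ((Z + 2) * κ) ≤ Real.exp (-1) := by
    have h1 : ((2 * r + 1 : ℕ) : ℝ) ^ d * ((Z + 2) * κ) ≤
        3 ^ d * (Z : ℝ) ^ (d * m₁) * ((3 * Z) * κ) := by
      refine mul_le_mul hr2 (mul_le_mul_of_nonneg_right (by linarith) hκ0) (by positivity)
        (by positivity)
    have h2 : 3 ^ d * (Z : ℝ) ^ (d * m₁) * ((3 * Z) * κ) * Z ^ 3 ≤ 9 * 3 ^ d * C₁ := by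
      have e1 : 3 ^ d * (Z : ℝ) ^ (d * m₁) * ((3 * Z) * κ) * Z ^ 3 =
          3 * 3 ^ d * (κ * ((Z : ℝ) ^ (d * m₁) * Z ^ 4)) := by ring
      rw [e1]
      have := mul_le_mul_of_nonneg_left hκ1 (by positivity : (0 : ℝ) ≤ 3 * 3 ^ d)
      linarith
    have h3 : Real.exp (-1) ≥ 1 / 3 := by
      rw [Real.exp_neg, ge_iff_le, one_div]
      refine inv_anti₀ (Real.exp_pos 1) ?_
      have := Real.exp_one_lt_d9
      linarith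
    have h4 : 2 * (Z : ℝ) ≤ Z ^ 3 := by
      have : (2 : ℝ) ≤ Z := by nlinarith
      nlinarith [mul_le_mul this this (by norm_num) (by linarith)]
    have h5 : 3 ^ d * (Z : ℝ) ^ (d * m₁) * ((3 * Z) * κ) * (2 * Z) ≤ 9 * 3 ^ d * C₁ := by
      refine le_trans ?_ h2
      exact mul_le_mul_of_nonneg_left h4 (by positivity)
    have h6 : 3 ^ d * (Z : ℝ) ^ (d * m₁) * ((3 * Z) * κ) ≤ 1 / 4 := by
      by_contra hcon
      push Not at hcon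
      have h7 : 1 / 4 * (2 * (Z : ℝ)) < 3 ^ d * (Z : ℝ) ^ (d * m₁) * ((3 * Z) * κ) * (2 * Z) :=
        mul_lt_mul_of_pos_right hcon (by linarith)
      linarith
    linarith
  have hκZ : ((Z : ℝ) + 2) * κ ≤ 1 := by
    have h1 : 1 ≤ ((2 * r + 1 : ℕ) : ℝ) ^ d := one_le_pow₀ (by
      have : 1 ≤ 2 * r + 1 := by omega
      exact_mod_cast this)
    have h2 : Real.exp (-1) ≤ 1 := Real.exp_le_one_iff.2 (by norm_num)
    have h3 : 0 ≤ ((Z : ℝ) + 2) * κ := by positivity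
    nlinarith
  have hrL : (Z + 1) * (2 * r + 1) ^ d ≤ L ^ d := by
    have h1 : 2 * r + 1 ≤ 3 * Z ^ m₁ := by rw [← hr]; omega
    have h2 : (2 * r + 1) ^ d ≤ 3 ^ d * Z ^ (m₁ * d) := by
      rw [pow_mul, ← mul_pow]
      exact Nat.pow_le_pow_left h1 d
    have h3 : 2 * 3 ^ d ≤ Z := by omega
    calc (Z + 1) * (2 * r + 1) ^ d ≤ (2 * Z) * (3 ^ d * Z ^ (m₁ * d)) :=
          Nat.mul_le_mul (by omega) h2
      _ = (2 * 3 ^ d) * (Z * Z ^ (m₁ * d)) := by ring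
      _ ≤ Z * (Z * Z ^ (m₁ * d)) := Nat.mul_le_mul_right _ h3
      _ = Z ^ (m₁ * d + 2) := by ring
      _ ≤ Z ^ m₂ := by
          refine Nat.pow_le_pow_right hZpos ?_
          rw [hm₂]
          nlinarith
      _ ≤ K := hZ1
      _ ≤ L ^ d := hKL
  have hLZ : (L : ℝ) ^ d ≤ Real.exp Z := by
    rw [pow_exp hLpos, Real.exp_le_exp, ← hℓ]
    refine le_trans ?_ hZℓ
    refine mul_le_mul_of_nonneg_right ?_ (by linarith)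
    rw [hC₂]; push_cast
    nlinarith
  have hZZ : (Z + 1) ^ (4 * (d + 1)) ≤ K := by
    have h1 : Z + 1 ≤ Z ^ 2 := by nlinarith
    calc (Z + 1) ^ (4 * (d + 1)) ≤ (Z ^ 2) ^ (4 * (d + 1)) := Nat.pow_le_pow_left h1 _
      _ = Z ^ (8 * (d + 1)) := by rw [← pow_mul]; congr 1; ring
      _ ≤ Z ^ m₂ := Nat.pow_le_pow_right hZpos (by rw [hm₂]; omega)
      _ ≤ K := hZ1
  obtain ⟨q₀, hq₀⟩ := hB Z (hZ₀C.trans hZZ₀) L K Z r Z ((Z - 1) / 2) le_rfl le_rfl (by omega) hLZ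
    le_rfl hZL hZK hKL
  refine ⟨Z, r, hZpos, Nat.le_self_pow (by omega) _, hL64, ?_, hZZ, q₀, fun q hq σ hσ δ h1 h2 => ?_⟩
  · have h2 : 2 ≤ (Z + 1) ^ (4 * (d + 1)) := by
      calc 2 ≤ Z + 1 := by omega
        _ ≤ (Z + 1) ^ (4 * (d + 1)) := Nat.le_self_pow (by omega) _
    omega
  · obtain ⟨b1, b2⟩ := hq₀ q hq σ hσ δ h1 h2
    have b4 := fail_bound (d := d) (C₁ := C₁) (L := L) (K := K) (Z := Z) (r := r) (κ := κ)
      (by omega) hC₁ hLpos (by rw [hC₂] at hZℓ; push_cast at hZℓ; exact hZℓ) hKL hrL hκ0 hkey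
    refine ⟨(b1 w hw0 hw1 κ hκ hκZ).trans b4, fun ω R hG hI x hx => ?_⟩
    exact KB_mono σ q K δ C₁ _ (by linarith) ω R x (b2 ω R hG hI x hx)

end Pool.Agent.K9h51.SH
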