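import Pool.Agent.K9h51.SH.Stm
import Pool.Agent.Q68.LC.Grn

/-!
# Project SH: bordered determinant and Green function, both directions
-/

set_option autoImplicit false

namespace Pool.Agent.K9h51.SH

open Finset Equiv Matrix Q292.LC Filter Topology
open Pool.Agent.Q68.LC (SS SS_dg SS_pow SS_le det_pos)

theorem gr2 {V : Type} [Fintype V] [DecidableEq V] (T : Matrix V V ℝ) (w F err : ℝ) (J : ℕ)
    (U : Finset V) (x y : V) (hT0 : ∀ a b, 0 ≤ T a b) (hT1 : ∀ a, ∑ b, T a b ≤ 1) (h0 : 0 ≤ w)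
    (h1 : w < 1)
    (hN : ∀ N : ℕ, J ≤ N →
      |∑ k ∈ Finset.range N, w ^ (k + 1) * (T * (dg U * T) ^ k) x y - F| ≤ err) :
    |bd w U T x y - dS w U T - F * dS w U T| ≤ err * dS w U T := by
  have hT : SS T := ⟨hT0, hT1⟩
  have hS := SS_dg hT U
  obtain ⟨S, hSd⟩ : ∃ S, S = dg U * T := ⟨_, rfl⟩
  rw [← hSd] at hS
  have hpos := det_pos hS h0 h1
  have hd : dS w U T = (1 - w • S).det := by
    unfold dS
    rw [hSd]
  rw [← hSd] at hN
  obtain ⟨M, hM⟩ : ∃ M, M = 1 - w • S := ⟨_, rfl⟩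
  rw [← hM] at hpos hd
  have hunit : IsUnit M.det := isUnit_iff_ne_zero.2 hpos.ne'
  -- bordered determinant
  have hbd : bd w U T x y = M.det * (1 + w * (T * M⁻¹) x y) := by
    have e1 : (1 - w • (dg U * T) + w • Matrix.of fun a b => if a = y then T x b else 0) =
        M + replicateCol Unit (fun a => if a = y then (1:ℝ) else 0) *
          replicateRow Unit (fun b => w * T x b) := by
      rw [← hSd, ← hM]
      congr 1
      ext a b
      rw [Matrix.smul_apply, Matrix.of_apply, Matrix.mul_apply]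
      simp
    unfold bd
    rw [e1, Matrix.det_add_replicateCol_mul_replicateRow hunit]
    congr 1
    rw [Matrix.det_unique, Matrix.add_apply, Matrix.one_apply_eq]
    congr 1
    rw [Matrix.mul_assoc, Matrix.mul_apply]
    simp only [Matrix.replicateRow_apply]
    rw [Matrix.mul_apply, Finset.mul_sum]
    refine Finset.sum_congr rfl fun z _ => ?_
    rw [Matrix.mul_apply]
    simp only [Matrix.replicateCol_apply, mul_ite, mul_one, mul_zero]
    rw [Finset.sum_ite_eq' Finset.univ y, if_pos (Finset.mem_univ _)]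
    ring
  have hlim : Tendsto (fun N : ℕ => ∑ k ∈ Finset.range N, w ^ (k + 1) * (T * S ^ k) x y) atTop
      (𝓝 (w * (T * M⁻¹) x y)) := by
    -- partial sums
    have e1 : ∀ N : ℕ, M * ∑ k ∈ Finset.range N, (w • S) ^ k = 1 - (w • S) ^ N := by
      intro N
      rw [hM]
      exact mul_neg_geom_sum _ _
    have e2 : ∀ N : ℕ, ∑ k ∈ Finset.range N, (w • S) ^ k = M⁻¹ - w ^ N • (M⁻¹ * S ^ N) := by
      intro N
      have h2 : M⁻¹ * (M * ∑ k ∈ Finset.range N, (w • S) ^ k) = M⁻¹ * (1 - (w • S) ^ N) := by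
        rw [e1 N]
      rw [Matrix.nonsing_inv_mul_cancel_left _ _ hunit] at h2
      rw [h2, Matrix.mul_sub, Matrix.mul_one, smul_pow, Matrix.mul_smul]
    have e3 : ∀ N : ℕ, ∑ k ∈ Finset.range N, w ^ (k + 1) * (T * S ^ k) x y =
        w * (T * M⁻¹) x y - w * (w ^ N * (T * (M⁻¹ * S ^ N)) x y) := by
      intro N
      have h3 : ∑ k ∈ Finset.range N, w ^ (k + 1) * (T * S ^ k) x y =
          w * (T * ∑ k ∈ Finset.range N, (w • S) ^ k) x y := by
        rw [Matrix.mul_sum, Matrix.sum_apply, Finset.mul_sum]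
        refine Finset.sum_congr rfl fun k _ => ?_
        rw [smul_pow, Matrix.mul_smul, Matrix.smul_apply, smul_eq_mul, pow_succ]
        ring
      rw [h3, e2, Matrix.mul_sub, Matrix.mul_smul, Matrix.sub_apply, Matrix.smul_apply, smul_eq_mul]
      ring
    -- the error tends to zero
    have e4 : ∀ N : ℕ, |(T * (M⁻¹ * S ^ N)) x y| ≤ ∑ z, |(T * M⁻¹) x z| := by
      intro N
      rw [← Matrix.mul_assoc, Matrix.mul_apply]
      refine (Finset.abs_sum_le_sum_abs _ _).trans (Finset.sum_le_sum fun z _ => ?_)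
      rw [abs_mul]
      have h4 := SS_pow hS N
      rw [abs_of_nonneg (h4.nn z y)]
      exact mul_le_of_le_one_right (abs_nonneg _) (SS_le h4 z y)
    have e5 : Tendsto (fun N : ℕ => w ^ N * (T * (M⁻¹ * S ^ N)) x y) atTop (𝓝 0) := by
      have h5 : Tendsto (fun N : ℕ => w ^ N * ∑ z, |(T * M⁻¹) x z|) atTop (𝓝 0) := by
        have := (tendsto_pow_atTop_nhds_zero_of_lt_one h0 h1).mul_const (∑ z, |(T * M⁻¹) x z|)
        rwa [zero_mul] at this
      refine squeeze_zero_norm (fun N => ?_) h5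
      rw [Real.norm_eq_abs, abs_mul, abs_of_nonneg (pow_nonneg h0 N)]
      exact mul_le_mul_of_nonneg_left (e4 N) (pow_nonneg h0 N)
    have e6 : Tendsto (fun N : ℕ => w * (T * M⁻¹) x y - w * (w ^ N * (T * (M⁻¹ * S ^ N)) x y)) atTop
        (𝓝 (w * (T * M⁻¹) x y - w * 0)) := tendsto_const_nhds.sub (e5.const_mul w)
    rw [mul_zero, sub_zero] at e6
    exact e6.congr fun N => (e3 N).symm
  have hle : |w * (T * M⁻¹) x y - F| ≤ err := by
    refine le_of_tendsto (hlim.sub_const F).abs ?_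
    filter_upwards [eventually_ge_atTop J] with N hJN
    exact hN N hJN
  have h2 : bd w U T x y - dS w U T - F * dS w U T = (w * (T * M⁻¹) x y - F) * M.det := by
    rw [hbd, hd]
    ring
  rw [h2, abs_mul, abs_of_pos hpos, hd]
  exact mul_le_mul_of_nonneg_right hle hpos.le

end Pool.Agent.K9h51.SH
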