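import Pool.Agent.K9h51.SH.Stm
import Pool.Agent.Q277.LC.Pe

/-!
# Project SH: the exact identity with marks, `S_PXF`
-/

set_option autoImplicit false
set_option linter.unusedSectionVars false

namespace Pool.Agent.K9h51.SH.Pxf

open Finset Equiv Matrix Q292.LC Pool.Agent.K9h51.SH
open Pool.Agent.Q257.LC (EE_mono EE_sum EE_mul EE_sub gp_touch bd_eq dS_eq l1)
open Pool.Agent.Q153.LC (p3 p4 first_return inv_same mem_cyc self_mem_cyc cyc_disj inv_union
  inv_cyc p4d cyc_sub)

section gen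

variable {V : Type} [Fintype V] [DecidableEq V]

/-- invariance only sees the trajectories of the particles of the set -/
theorem Inv_touch {g g' : Perm V} {A : Finset V} (h : ∀ a ∈ A, g a = g' a) (hA : Inv g A) :
    Inv g' A := fun a ha => by
  rw [← h a ha]
  exact hA a ha

theorem EE_abs (n : ℕ) (δ : ℝ) (h0 : 0 ≤ δ) (h1 : δ ≤ 1) {F G : (ℕ → Bool) → ℝ}
    (h : ∀ ω, |F ω| ≤ G ω) : |EE n δ F| ≤ EE n δ G := by
  rw [abs_le]
  constructor
  · have h2 : EE n δ (fun ω => (-1) * G ω) ≤ EE n δ F :=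
      EE_mono n δ h0 h1 fun ω => by linarith [(abs_le.1 (h ω)).1]
    rw [EE_mul] at h2
    linarith
  · exact EE_mono n δ h0 h1 fun ω => (abs_le.1 (h ω)).2

/-- the weights of the invariant sets without `x` sum up to `1` -/
theorem sum_one (g : Perm V) (w : ℝ) (h0 : 0 ≤ w) (h1 : w < 1) (x : V) :
    ∑ A : Finset V, (if Inv g A ∧ x ∉ A then
      w ^ A.card * dS w (univ \ insert x A) (pm g) else 0) = 1 := by
  rw [← Pool.Agent.Q277.LC.p1_all V g w {x} h0 h1]
  refine sum_congr rfl fun A _ => ?_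
  have h2 : A ∪ {x} = insert x A := by
    ext a
    simp only [mem_union, mem_singleton, mem_insert]
    tauto
  have h3 : (Inv g A ∧ Disjoint A {x}) ↔ (Inv g A ∧ x ∉ A) := by
    rw [disjoint_singleton_right]
  rw [h2, if_congr h3 rfl rfl]

/-- P3 for the cycle of `x` -/
theorem bd_cyc {g : Perm V} {w : ℝ} (h0 : 0 ≤ w) (h1 : w < 1) {x : V} {A : Finset V}
    (hA : Inv g A) (hx : x ∉ A) :
    bd w (univ \ insert x A) (pm g) x x - dS w (univ \ insert x A) (pm g) =
      w ^ (cyc g x).card * dS w (univ \ insert x A) (pm g) := by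
  obtain ⟨h2, h3, h4⟩ := first_return g x
  have hxU : x ∉ univ \ insert x A := by simp
  refine (p3 V g w (univ \ insert x A) x x h0 h1 hxU).1 _ h2 (fun i hi him => ?_) h3
  simp only [mem_sdiff, mem_univ, true_and, mem_insert, not_or]
  refine ⟨h4 i hi him, fun h5 => hx ?_⟩
  exact inv_same g A hA _ _ h5 (Equiv.Perm.SameCycle.symm ⟨i, by simp⟩)

/-- the weight of `A` without `x` is the weight of `A` plus the weight of `A` with the cycle of
`x` -/
theorem wt_split {g : Perm V} {w : ℝ} {x : V} {A : Finset V} (hA : Inv g A) (hx : x ∉ A) :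
    w ^ A.card * dS w (univ \ insert x A) (pm g) = w ^ A.card * dS w (univ \ A) (pm g) +
      w ^ (A ∪ cyc g x).card * dS w (univ \ (A ∪ cyc g x)) (pm g) := by
  have hdis : Disjoint (cyc g x) A := (cyc_disj g A hA x hx).symm
  have hxS : x ∈ univ \ A := by simp [hx]
  have hCS : cyc g x ⊆ univ \ A := fun a ha => by
    simp only [mem_sdiff, mem_univ, true_and]
    exact fun h => (disjoint_left.1 hdis) ha h
  have e1 := p4d w (univ \ A) g x hxS hCS
  have e2 : (univ \ A) \ cyc g x = univ \ (A ∪ cyc g x) := by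
    ext a
    simp only [mem_sdiff, mem_univ, true_and, mem_union, not_or]
  have hxU : x ∉ univ \ insert x A := by simp
  have e3 := Pool.Agent.Q153.LC.dS_sdiff w (univ \ insert x A) g x hxU (cyc g x) subset_rfl
  have e4 : (univ \ insert x A) \ cyc g x = univ \ (A ∪ cyc g x) := by
    ext a
    simp only [mem_sdiff, mem_univ, true_and, mem_union, mem_insert, not_or]
    constructor
    · rintro ⟨⟨_, h5⟩, h6⟩
      exact ⟨h5, h6⟩
    · rintro ⟨h5, h6⟩
      refine ⟨⟨fun h7 => h6 ?_, h5⟩, h6⟩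
      rw [h7]
      exact self_mem_cyc g x
  rw [e2] at e1
  rw [e4] at e3
  rw [e1, e3, card_union_of_disjoint hdis.symm, pow_add]
  ring

open Classical in
/-- the sets without `x` which violate a monotone property -/
theorem sum_bad (g : Perm V) (w : ℝ) (h0 : 0 ≤ w) (h1 : w < 1) (x : V) (Gd : Finset V → Prop)
    (hGd : ∀ R R', R' ⊆ R → Gd R → Gd R') :
    ∑ A : Finset V, (if Inv g A ∧ x ∉ A then
      w ^ A.card * dS w (univ \ insert x A) (pm g) * (if Gd A then 0 else 1) else 0) ≤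
    ∑ A : Finset V, (if Inv g A ∧ ¬ Gd A then w ^ A.card * dS w (univ \ A) (pm g) else 0) := by
  set t : Finset V → ℝ := fun A =>
    if Inv g A ∧ ¬ Gd A then w ^ A.card * dS w (univ \ A) (pm g) else 0 with ht
  have ht0 : ∀ A, 0 ≤ t A := by
    intro A
    rw [ht]
    beta_reduce
    split_ifs
    · exact Pool.Agent.Q277.LC.wt_nonneg g w h0 h1 A
    · exact le_rfl
  set P : Finset V → Prop := fun A => Inv g A ∧ x ∉ A ∧ ¬ Gd A with hP
  have e1 : ∑ A : Finset V, (if Inv g A ∧ x ∉ A then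
      w ^ A.card * dS w (univ \ insert x A) (pm g) * (if Gd A then 0 else 1) else 0) =
      ∑ A ∈ univ.filter P, (t A + t (A ∪ cyc g x)) := by
    rw [sum_filter]
    refine sum_congr rfl fun A _ => ?_
    by_cases hA : Inv g A ∧ x ∉ A
    · rw [if_pos hA]
      by_cases hG : Gd A
      · rw [if_pos hG, mul_zero, if_neg (fun h : P A => h.2.2 hG)]
      · rw [if_neg hG, mul_one, if_pos (⟨hA.1, hA.2, hG⟩ : P A)]
        have h2 : Inv g (A ∪ cyc g x) := inv_union g A _ hA.1 (inv_cyc g x)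
        have h3 : ¬ Gd (A ∪ cyc g x) := fun h => hG (hGd _ _ subset_union_left h)
        rw [ht]
        beta_reduce
        rw [if_pos ⟨hA.1, hG⟩, if_pos ⟨h2, h3⟩]
        exact wt_split hA.1 hA.2
    · rw [if_neg hA, if_neg (fun h : P A => hA ⟨h.1, h.2.1⟩)]
  have hinj : Set.InjOn (fun A : Finset V => A ∪ cyc g x) (univ.filter P : Finset (Finset V)) := by
    intro A hA B hB hAB
    have hA' := (mem_filter.1 (mem_coe.1 hA)).2
    have hB' := (mem_filter.1 (mem_coe.1 hB)).2
    beta_reduce at hAB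
    have key : ∀ D : Finset V, P D → (D ∪ cyc g x) \ cyc g x = D := by
      intro D hD
      have h5 : Disjoint D (cyc g x) := cyc_disj g D hD.1 x hD.2.1
      exact union_sdiff_cancel_right h5
    rw [← key A hA', ← key B hB', hAB]
  rw [e1, sum_add_distrib]
  have e2 : ∑ A ∈ univ.filter P, t (A ∪ cyc g x) =
      ∑ B ∈ (univ.filter P).image (fun A => A ∪ cyc g x), t B := by
    rw [sum_image hinj]
  have hsub : (univ.filter P).image (fun A => A ∪ cyc g x) ⊆
      univ.filter fun B : Finset V => x ∈ B := by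
    intro B hB
    obtain ⟨A, _, rfl⟩ := mem_image.1 hB
    exact mem_filter.2 ⟨mem_univ _, mem_union_right _ (self_mem_cyc g x)⟩
  have hsub2 : univ.filter P ⊆ univ.filter fun B : Finset V => ¬ x ∈ B := by
    intro A hA
    exact mem_filter.2 ⟨mem_univ _, (mem_filter.1 hA).2.2.1⟩
  have e3 : ∑ A ∈ univ.filter P, t A ≤ ∑ A ∈ univ.filter fun B : Finset V => ¬ x ∈ B, t A :=
    sum_le_sum_of_subset_of_nonneg hsub2 fun A _ _ => ht0 A
  have e4 : ∑ B ∈ (univ.filter P).image (fun A => A ∪ cyc g x), t B ≤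
      ∑ A ∈ univ.filter fun B : Finset V => x ∈ B, t A :=
    sum_le_sum_of_subset_of_nonneg hsub fun A _ _ => ht0 A
  rw [e2]
  have e5 := sum_filter_add_sum_filter_not (univ : Finset (Finset V))
    (fun B : Finset V => x ∈ B) t
  linarith

end gen

open Classical in
theorem pxf : S_PXF := by
  intro V _ _ e n δ w F x Gd err hδ0 hδ1 h0 h1 hF hRm hGd hEm hbd
  -- the factor of a set
  set Θ : Finset V → (ℕ → Bool) → ℝ := fun A ω =>
    if Inv (gp e ω n) A ∧ x ∉ A ∧ Gd ω A then w ^ A.card else 0 with hΘ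
  have hInv : ∀ (A : Finset V) (ω ω' : ℕ → Bool), (∀ k < n, tch e ω A k → ω k = ω' k) →
      (Inv (gp e ω n) A ↔ Inv (gp e ω' n) A) := fun A ω ω' h => by
    have h3 := gp_touch e ω ω' A n h n le_rfl
    exact ⟨Inv_touch h3, Inv_touch fun a ha => (h3 a ha).symm⟩
  have hΘm : ∀ A, Rmeas e n A (Θ A) := by
    intro A ω ω' h
    have h2 : Gd ω A = Gd ω' A := hRm A ω ω' h
    rw [hΘ]
    beta_reduce
    rw [h2, if_congr (and_congr_left' (hInv A ω ω' h)) rfl rfl]
  have hΘem : ∀ A, Rmeas e n A (fun ω => Θ A ω * err ω A) := by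
    intro A ω ω' h
    have h2 := hΘm A ω ω' h
    have h3 : err ω A = err ω' A := hEm A ω ω' h
    beta_reduce
    rw [h2, h3]
  set dSp : Finset V → (ℕ → Bool) → ℝ := fun A ω =>
    dS w (univ \ insert x A) (pm (gp e ω n)) with hdSp
  set dST : Finset V → (ℕ → Bool) → ℝ := fun A ω =>
    dS w (univ \ insert x A) (TT e ω A δ n) with hdST
  set bdp : Finset V → (ℕ → Bool) → ℝ := fun A ω =>
    bd w (univ \ insert x A) (pm (gp e ω n)) x x with hbdp
  set bdT : Finset V → (ℕ → Bool) → ℝ := fun A ω =>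
    bd w (univ \ insert x A) (TT e ω A δ n) x x with hbdT
  have hconst : ∀ (A : Finset V) (M : Matrix V V ℝ), Rmeas e n A fun _ => M :=
    fun A M ω ω' _ => rfl
  have hdS : ∀ (A : Finset V) (T : (ℕ → Bool) → ℝ), Rmeas e n A T →
      EE n δ (fun ω => T ω * dSp A ω) = EE n δ (fun ω => T ω * dST A ω) := by
    intro A T hT
    simp only [hdSp, hdST, dS_eq]
    exact l1 V e n δ A T (fun _ => 1) (fun _ => -(w • dg (univ \ insert x A)))
      hδ0 hδ1 hT (hconst A _) (hconst A _)
  have hbd' : ∀ (A : Finset V) (T : (ℕ → Bool) → ℝ), Rmeas e n A T →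
      EE n δ (fun ω => T ω * bdp A ω) = EE n δ (fun ω => T ω * bdT A ω) := by
    intro A T hT
    simp only [hbdp, hbdT, bd_eq]
    exact l1 V e n δ A T (fun _ => 1)
      (fun _ => -(w • dg (univ \ insert x A)) + w • Matrix.single x x 1)
      hδ0 hδ1 hT (hconst A _) (hconst A _)
  -- (1) the difference as a sum over the sets
  set W : Finset V → (ℕ → Bool) → ℝ := fun A ω =>
    if Inv (gp e ω n) A ∧ x ∉ A then w ^ A.card * dSp A ω else 0 with hW
  have hW0 : ∀ A ω, 0 ≤ W A ω := by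
    intro A ω
    rw [hW]
    beta_reduce
    split_ifs
    · refine mul_nonneg (pow_nonneg h0 _) ?_
      exact (p4 V (gp e ω n) 1 w (univ \ insert x A) h0 h1).1.1.le
    · exact le_rfl
  have hWsum : ∀ ω, ∑ A : Finset V, W A ω = 1 := fun ω => sum_one (gp e ω n) w h0 h1 x
  set m : (ℕ → Bool) → ℕ := fun ω => (cyc (gp e ω n) x).card with hm
  have s1 : EE n δ (fun ω => w ^ m ω) - F =
      EE n δ (fun ω => ∑ A : Finset V, W A ω * (w ^ m ω - F)) := by
    have h2 : EE n δ (fun _ => F) = F := by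
      have := Pool.Agent.Q68.LC.EE_const n δ F
      exact this
    calc EE n δ (fun ω => w ^ m ω) - F = EE n δ (fun ω => w ^ m ω) - EE n δ (fun _ => F) := by
          rw [h2]
      _ = EE n δ (fun ω => w ^ m ω - F) := (EE_sub n δ _ _).symm
      _ = _ := by
          congr 1
          funext ω
          rw [← sum_mul, hWsum, one_mul]
  -- split into good and bad
  have s2 : ∀ ω, ∑ A : Finset V, W A ω * (w ^ m ω - F) =
      (∑ A : Finset V, Θ A ω * (bdp A ω - dSp A ω - F * dSp A ω)) +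
      ∑ A : Finset V, (W A ω * (if Gd ω A then 0 else 1)) * (w ^ m ω - F) := by
    intro ω
    rw [← sum_add_distrib]
    refine sum_congr rfl fun A _ => ?_
    by_cases hA : Inv (gp e ω n) A ∧ x ∉ A
    · have e1 : W A ω = w ^ A.card * dSp A ω := if_pos hA
      by_cases hG : Gd ω A
      · have e2 : Θ A ω = w ^ A.card := if_pos ⟨hA.1, hA.2, hG⟩
        have e3 : bdp A ω - dSp A ω = w ^ m ω * dSp A ω := bd_cyc h0 h1 hA.1 hA.2
        rw [e1, e2, e3, if_pos hG]
        ring
      · have e2 : Θ A ω = 0 := if_neg fun h => hG h.2.2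
        rw [e2, if_neg hG]
        ring
    · have e1 : W A ω = 0 := if_neg hA
      have e2 : Θ A ω = 0 := if_neg fun h => hA ⟨h.1, h.2.1⟩
      rw [e1, e2]
      ring
  have s3 : EE n δ (fun ω => w ^ m ω) - F =
      (∑ A : Finset V, EE n δ fun ω => Θ A ω * (bdp A ω - dSp A ω - F * dSp A ω)) +
      EE n δ fun ω => ∑ A : Finset V, (W A ω * (if Gd ω A then 0 else 1)) * (w ^ m ω - F) := by
    rw [s1, ← EE_sum, ← Pool.Agent.Q68.LC.EE_add]
    congr 1
    funext ω
    exact s2 ω
  -- the good part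
  have good : ∀ A : Finset V,
      |EE n δ fun ω => Θ A ω * (bdp A ω - dSp A ω - F * dSp A ω)| ≤
      EE n δ fun ω => (Θ A ω * err ω A) * dSp A ω := by
    intro A
    have e1 : (EE n δ fun ω => Θ A ω * (bdp A ω - dSp A ω - F * dSp A ω)) =
        EE n δ fun ω => Θ A ω * (bdT A ω - dST A ω - F * dST A ω) := by
      have g1 : ∀ (b dd : (ℕ → Bool) → ℝ),
          (EE n δ fun ω => Θ A ω * (b ω - dd ω - F * dd ω)) =
          EE n δ (fun ω => Θ A ω * b ω) - EE n δ (fun ω => Θ A ω * dd ω) -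
            F * EE n δ (fun ω => Θ A ω * dd ω) := by
        intro b dd
        rw [← EE_mul, ← EE_sub, ← EE_sub]
        congr 1
        funext ω
        ring
      rw [g1 (fun ω => bdp A ω) (fun ω => dSp A ω), g1 (fun ω => bdT A ω) (fun ω => dST A ω),
        hdS A (Θ A) (hΘm A), hbd' A (Θ A) (hΘm A)]
    rw [e1, hdS A (fun ω => Θ A ω * err ω A) (hΘem A)]
    refine EE_abs n δ hδ0 hδ1 fun ω => ?_
    by_cases hA : Inv (gp e ω n) A ∧ x ∉ A ∧ Gd ω A
    · have e2 : Θ A ω = w ^ A.card := if_pos hA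
      have e3 := hbd ω A hA.2.2 hA.2.1 hA.1
      have e4 : |bdT A ω - dST A ω - F * dST A ω| ≤ err ω A * dST A ω := e3
      rw [e2, abs_mul, abs_of_nonneg (pow_nonneg h0 _), mul_assoc]
      exact mul_le_mul_of_nonneg_left e4 (pow_nonneg h0 _)
    · have e2 : Θ A ω = 0 := if_neg hA
      rw [e2]
      simp
  have good2 : ∑ A : Finset V, (EE n δ fun ω => (Θ A ω * err ω A) * dSp A ω) =
      PX e n δ w x (fun ω A => if Gd ω A then err ω A else 0) := by
    rw [← EE_sum]
    unfold PX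
    congr 1
    funext ω
    refine sum_congr rfl fun A _ => ?_
    by_cases hA : Inv (gp e ω n) A ∧ x ∉ A
    · rw [if_pos hA]
      beta_reduce
      by_cases hG : Gd ω A
      · have e2 : Θ A ω = w ^ A.card := if_pos ⟨hA.1, hA.2, hG⟩
        rw [e2, if_pos hG]
        ring
      · have e2 : Θ A ω = 0 := if_neg fun h => hG h.2.2
        rw [e2, if_neg hG]
        ring
    · have e2 : Θ A ω = 0 := if_neg fun h => hA ⟨h.1, h.2.1⟩
      rw [e2, if_neg hA]
      ring
  -- the bad part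
  have bad : |EE n δ fun ω => ∑ A : Finset V,
      (W A ω * (if Gd ω A then 0 else 1)) * (w ^ m ω - F)| ≤
      (1 + F) * PW e n δ w (fun ω A => ¬ Gd ω A) := by
    unfold PW
    rw [← EE_mul]
    refine EE_abs n δ hδ0 hδ1 fun ω => ?_
    rw [← sum_mul, abs_mul, mul_comm]
    have hs0 : 0 ≤ ∑ A : Finset V, W A ω * (if Gd ω A then (0 : ℝ) else 1) :=
      sum_nonneg fun A _ => mul_nonneg (hW0 A ω) (by split_ifs <;> norm_num)
    rw [abs_of_nonneg hs0]
    have hw1 : w ^ m ω ≤ 1 := pow_le_one₀ h0 h1.le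
    have hw0 : 0 ≤ w ^ m ω := pow_nonneg h0 _
    have ha : |w ^ m ω - F| ≤ 1 + F := by
      rw [abs_le]
      constructor <;> linarith
    refine mul_le_mul ha ?_ hs0 (by linarith)
    have h5 := sum_bad (gp e ω n) w h0 h1 x (Gd ω) (hGd ω)
    refine le_trans (le_of_eq ?_) (h5.trans (le_of_eq ?_))
    · refine sum_congr rfl fun A _ => ?_
      by_cases hA : Inv (gp e ω n) A ∧ x ∉ A
      · have e1 : W A ω = w ^ A.card * dSp A ω := if_pos hA
        rw [e1, if_pos hA]
      · have e1 : W A ω = 0 := if_neg hA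
        rw [e1, if_neg hA, zero_mul]
    · refine sum_congr rfl fun A _ => ?_
      by_cases hA : Inv (gp e ω n) A ∧ ¬ Gd ω A
      · rw [if_pos hA, if_pos hA]
      · rw [if_neg hA, if_neg hA]
  calc |EE n δ (fun ω => w ^ (cyc (gp e ω n) x).card) - F|
      ≤ |∑ A : Finset V, EE n δ fun ω => Θ A ω * (bdp A ω - dSp A ω - F * dSp A ω)| +
        |EE n δ fun ω => ∑ A : Finset V,
          (W A ω * (if Gd ω A then 0 else 1)) * (w ^ m ω - F)| := by
        rw [s3]
        exact abs_add_le _ _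
    _ ≤ PX e n δ w x (fun ω A => if Gd ω A then err ω A else 0) +
        (1 + F) * PW e n δ w (fun ω A => ¬ Gd ω A) := by
        refine add_le_add ?_ bad
        refine (abs_sum_le_sum_abs _ _).trans ?_
        rw [← good2]
        exact sum_le_sum fun A _ => good A
    _ = _ := by ring

end Pool.Agent.K9h51.SH.Pxf

namespace Pool.Agent.K9h51.SH

theorem pxf : S_PXF := Pxf.pxf

end Pool.Agent.K9h51.SH
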