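import Pool.Agent.K9h51.SH.Aux1
import Pool.Agent.K9h51.SH.Gr2
import Pool.Agent.K9h51.SH.Env
import Pool.Agent.K9h51.SH.Cmp
import Pool.Agent.K9h51.SH.Ctd
import Pool.Agent.K9h51.SH.Ctm
import Pool.Agent.K9h51.SH.Pxf

/-!
# Project SH: the sharp estimate for circuits
-/

set_option autoImplicit false
set_option linter.unusedVariables false

namespace Pool.Agent.K9h51.SH

open Finset Equiv Matrix Q292.LC
open Pool.Agent.Q257.LC (TT_units sh_ed)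

/-- CIR. The sharp estimate for circuits. -/
def S_CIR : Prop := ∀ d : ℕ, 3 ≤ d → ∃ (C : ℝ) (m : ℕ), 1 ≤ C ∧ ∀ (L K J : ℕ) [NeZero L] (w : ℝ),
  m ≤ K → K ≤ L ^ d → (Real.log L) ^ m ≤ K → 0 ≤ w → w < 1 →
  1 / ((L : ℝ) ^ d * (1 - w)) ≤ (K : ℝ) ^ (-(d / 2 : ℝ)) → 1 ≤ J →
  ∃ q₀ : ℕ, ∀ q ≥ q₀, ∀ σ : ℕ → (Fin d → ZMod L) × Fin d, Per σ → ∀ δ : ℝ,
  1 ≤ δ * q → δ * q ≤ 2 → ∀ x,
  |EE (K * (q * ms d L)) δ (fun ω => w ^ (cyc (gp (ed ∘ σ) ω (K * (q * ms d L))) x).card) -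
    ∑ k ∈ range J, w ^ (k + 1) * ((PP (ed ∘ σ) δ (K * (q * ms d L))) ^ (k + 1)) x x| ≤
  C * ((K : ℝ) ^ (-(d / 2 : ℝ)) * ((J : ℝ) ^ 2 * (K : ℝ) ^ (-(1 / 4 : ℝ)) +
    (J : ℝ) ^ (-(1 / 2 : ℝ))) + J / ((L : ℝ) ^ d * (1 - w)))

section env

variable {d L : ℕ} [NeZero L]

/-- the column distance is a contact number of the reversed circuit -/
theorem col_rev (hd1 : 1 ≤ d) (hL3 : 3 ≤ L) {σ : ℕ → (Fin d → ZMod L) × Fin d} (hσ : Per σ)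
    (q lam r ρ κ₀ K2 : ℕ) (ω1 : ℕ → Bool) (A1 : Finset (Fin d → ZMod L)) (δ : ℝ) (h0 : 0 ≤ δ)
    (h1 : δ ≤ 1) (x : Fin d → ZMod L) :
    ∑ a, |PP (ed ∘ σ) δ (K2 * (q * ms d L)) a x - TT (ed ∘ σ) ω1 A1 δ (K2 * (q * ms d L)) a x| ≤
    cc (ed ∘ rvs σ) (rvo (K2 * (q * ms d L)) ω1) (A1.image (gp (ed ∘ σ) ω1 (K2 * (q * ms d L)))) δ
      (K2 * (q * ms d L)) x := by
  have hREV : S_REV := Pool.Agent.Q187.LC.Rev.rev
  obtain ⟨-, -, hT⟩ := hREV d L hd1 hL3 σ hσ q K2 lam r ρ κ₀ ω1 A1 δ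
  obtain ⟨-, -, hP⟩ := hREV d L hd1 hL3 σ hσ q K2 lam r ρ κ₀ (fun _ => false) ∅ δ
  have hrf : rvo (K2 * (q * ms d L)) (fun _ => false) = fun _ => false := by
    funext k
    unfold rvo
    simp
  rw [hrf, image_empty] at hP
  have hc := Pool.Agent.Q151.LC.con1 _ (ed ∘ rvs σ) (rvo (K2 * (q * ms d L)) ω1)
    (A1.image (gp (ed ∘ σ) ω1 (K2 * (q * ms d L)))) δ (K2 * (q * ms d L)) x h0 h1
  refine le_trans (le_of_eq ?_) hc
  refine sum_congr rfl fun a _ => ?_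
  rw [hT]
  unfold PP
  rw [hP]
  rfl

/-- positions in the reversed second half -/
theorem sum_rev (hd1 : 1 ≤ d) {σ : ℕ → (Fin d → ZMod L) × Fin d} (hσ : Per σ)
    (q K1 K2 : ℕ) (ω : ℕ → Bool) (A : Finset (Fin d → ZMod L)) (f : (Fin d → ZMod L) → ℝ)
    (j : ℕ) (hj : j ≤ K2) :
    ∑ a ∈ (A.image (gp (ed ∘ σ) ω (K1 * (q * ms d L)))).image
      (gp (ed ∘ σ) (sh (K1 * (q * ms d L)) ω) (K2 * (q * ms d L))),
      f (gp (ed ∘ rvs σ) (rvo (K2 * (q * ms d L)) (sh (K1 * (q * ms d L)) ω))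
        (j * (q * ms d L)) a) =
    ∑ a ∈ A, f (gp (ed ∘ σ) ω ((K1 + K2 - j) * (q * ms d L)) a) := by
  obtain ⟨ω1, hω1⟩ : ∃ ω1 : ℕ → Bool, ω1 = sh (K1 * (q * ms d L)) ω := ⟨_, rfl⟩
  obtain ⟨n, hn⟩ : ∃ n, n = K2 * (q * ms d L) := ⟨_, rfl⟩
  have hn' : n = (K2 * q) * ms d L := by rw [hn]; ring
  rw [← hω1, ← hn]
  rw [sum_image (fun _ _ _ _ h => (gp (ed ∘ σ) ω1 n).injective h),
    sum_image (fun _ _ _ _ h => (gp (ed ∘ σ) ω (K1 * (q * ms d L))).injective h)]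
  refine sum_congr rfl fun a _ => ?_
  have he : ∀ k < n, (ed ∘ rvs σ) k = (ed ∘ σ) (n - 1 - k) := by
    intro k hk
    simp only [Function.comp]
    rw [hn'] at hk ⊢
    rw [Pool.Agent.Q187.LC.Rev.rvs_eq hd1 hσ (K2 * q) k hk]
  have hω : ∀ k < n, rvo n ω1 k = ω1 (n - 1 - k) := by
    intro k hk
    unfold rvo
    rw [if_pos hk]
  have hjn : j * (q * ms d L) ≤ n := by
    rw [hn]
    exact Nat.mul_le_mul_right _ hj
  have hg := Pool.Agent.Q187.LC.Rev.gp_rev (ed ∘ σ) (ed ∘ rvs σ) ω1 (rvo n ω1) n he hω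
    (j * (q * ms d L)) hjn
  have hg' : gp (ed ∘ rvs σ) (rvo n ω1) (j * (q * ms d L)) (gp (ed ∘ σ) ω1 n
      (gp (ed ∘ σ) ω (K1 * (q * ms d L)) a)) =
      gp (ed ∘ σ) ω1 (n - j * (q * ms d L)) (gp (ed ∘ σ) ω (K1 * (q * ms d L)) a) := by
    rw [← hg]; rfl
  rw [hg']
  have h2 : (K1 + K2 - j) * (q * ms d L) = K1 * (q * ms d L) + (n - j * (q * ms d L)) := by
    have h3 : K1 + K2 - j = K1 + (K2 - j) := by omega
    rw [h3, add_mul, Nat.sub_mul, hn]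
  rw [h2, Pool.Agent.Q68.LC.gp_add, sh_ed hσ, ← hω1]
  rfl

end env

section env2

variable {d L : ℕ} [NeZero L]

open Classical in
/-- the comparison in one good environment -/
theorem env_cmp (hd : 3 ≤ d) (hL3 : 3 ≤ L) {σ : ℕ → (Fin d → ZMod L) × Fin d} (hσ : Per σ)
    (q K J : ℕ) (δ w CE s : ℝ) (hδ0 : 0 ≤ δ) (hδ1 : δ ≤ 1) (hw0 : 0 ≤ w) (hw1 : w < 1)
    (hCE : 0 ≤ CE) (hJ : 1 ≤ J) (hs0 : 0 ≤ s)
    (hs : CE * (1 / (L : ℝ) ^ d + (K : ℝ) ^ (-(d / 2 : ℝ))) ≤ s)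
    (hP1 : ∀ a b, PP (ed ∘ σ) δ ((K / 2) * (q * ms d L)) a b ≤ s)
    (ω : ℕ → Bool) (A : Finset (Fin d → ZMod L)) (x : Fin d → ZMod L) (hxA : x ∉ A)
    (hInv : Inv (gp (ed ∘ σ) ω (K * (q * ms d L))) A) (hkb : KB σ q K δ CE ω A x) :
    |bd w (univ \ insert x A) (TT (ed ∘ σ) ω A δ (K * (q * ms d L))) x x -
      dS w (univ \ insert x A) (TT (ed ∘ σ) ω A δ (K * (q * ms d L))) -
      (∑ k ∈ range J, w ^ (k + 1) * ((PP (ed ∘ σ) δ (K * (q * ms d L))) ^ (k + 1)) x x) *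
        dS w (univ \ insert x A) (TT (ed ∘ σ) ω A δ (K * (q * ms d L)))| ≤
    (J * (s * (∑ i ∈ range J, ∑ z, ((PP (ed ∘ σ) δ (K * (q * ms d L))) ^ i) x z *
        cc (ed ∘ σ) ω A δ (K * (q * ms d L)) z +
        ∑ a, |PP (ed ∘ σ) δ ((K - K / 2) * (q * ms d L)) a x -
          TT (ed ∘ σ) (sh ((K / 2) * (q * ms d L)) ω)
            (A.image (gp (ed ∘ σ) ω ((K / 2) * (q * ms d L)))) δ
            ((K - K / 2) * (q * ms d L)) a x|) + J * s ^ 2) +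
      CE * ((1 / (L : ℝ) ^ d) / (1 - w) + 2 * (K : ℝ) ^ (-(d / 2 : ℝ)) *
        (J : ℝ) ^ (-(1 / 2 : ℝ)))) *
      dS w (univ \ insert x A) (TT (ed ∘ σ) ω A δ (K * (q * ms d L))) := by
  have hB2 : S_BAS2 := Pool.Agent.Q68.LC.bas2
  have hKK : K = K / 2 + (K - K / 2) := by omega
  obtain ⟨T, hT⟩ : ∃ T, T = TT (ed ∘ σ) ω A δ (K * (q * ms d L)) := ⟨_, rfl⟩
  obtain ⟨T1, hT1⟩ : ∃ T1, T1 = TT (ed ∘ σ) ω A δ ((K / 2) * (q * ms d L)) := ⟨_, rfl⟩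
  obtain ⟨T2, hT2⟩ : ∃ T2, T2 = TT (ed ∘ σ) (sh ((K / 2) * (q * ms d L)) ω)
    (A.image (gp (ed ∘ σ) ω ((K / 2) * (q * ms d L)))) δ ((K - K / 2) * (q * ms d L)) := ⟨_, rfl⟩
  obtain ⟨P, hP⟩ : ∃ P, P = PP (ed ∘ σ) δ (K * (q * ms d L)) := ⟨_, rfl⟩
  obtain ⟨P1, hP1e⟩ : ∃ P1, P1 = PP (ed ∘ σ) δ ((K / 2) * (q * ms d L)) := ⟨_, rfl⟩
  obtain ⟨P2, hP2e⟩ : ∃ P2, P2 = PP (ed ∘ σ) δ ((K - K / 2) * (q * ms d L)) := ⟨_, rfl⟩
  have hTT : T = T1 * T2 := by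
    rw [hT, hT1, hT2]
    conv_lhs => rw [hKK]
    exact TT_units hB2 hσ ω A hδ0 hδ1 q (K / 2) (K - K / 2)
  have hPP : P = P1 * P2 := by
    rw [hP, hP1e, hP2e]
    conv_lhs => rw [hKK]
    have h := TT_units hB2 hσ (fun _ => false) ∅ hδ0 hδ1 q (K / 2) (K - K / 2)
    rw [image_empty] at h
    exact h
  have bT := hB2 _ (ed ∘ σ) ω A δ hδ0 hδ1
  have bT2 := hB2 _ (ed ∘ σ) (sh ((K / 2) * (q * ms d L)) ω)
    (A.image (gp (ed ∘ σ) ω ((K / 2) * (q * ms d L)))) δ hδ0 hδ1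
  have bP := hB2 _ (ed ∘ σ) (fun _ => false) ∅ δ hδ0 hδ1
  have hAim : A.image (gp (ed ∘ σ) ω (K * (q * ms d L))) = A := by
    refine eq_of_subset_of_card_le ?_ ?_
    · intro b hb
      obtain ⟨a, ha, rfl⟩ := mem_image.1 hb
      exact hInv a ha
    · rw [card_image_of_injective _ (Equiv.injective _)]
  have hT0 : ∀ a b, 0 ≤ T a b := by rw [hT]; exact bT.1 _
  have hTr : ∀ a, ∑ b, T a b = 1 := by rw [hT]; exact bT.2.1 _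
  rw [← hT, ← hT2, ← hP, ← hP2e]
  have hU : Disjoint (univ \ insert x A) A := by
    rw [disjoint_left]
    intro a ha ha'
    exact (mem_sdiff.1 ha).2 (mem_insert_of_mem ha')
  have hcc : ∀ z, 0 ≤ cc (ed ∘ σ) ω A δ (K * (q * ms d L)) z := fun z =>
    cc_nonneg hδ0 hδ1 _ _ _ _
  have hSP : Pool.Agent.Q68.LC.SS P := by
    rw [hP]
    exact ⟨bP.1 _, fun a => (bP.2.1 _ a).le⟩
  have hPi : ∀ (i : ℕ) z, 0 ≤ (P ^ i) x z := fun i z => (Pool.Agent.Q68.LC.SS_pow hSP i).nn x z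
  refine gr2 T w _ _ J (univ \ insert x A) x x hT0 (fun a => (hTr a).le) hw0 hw1 ?_
  intro N hN
  refine green_cmp (fun k => (T * (dg (univ \ insert x A) * T) ^ k) x x)
    (fun k => (P ^ (k + 1)) x x) w _ CE (1 / (L : ℝ) ^ d) ((K : ℝ) ^ (-(d / 2 : ℝ))) d J N hd hJ hN
    hw0 hw1 hCE (by positivity) (by positivity) ?_ ?_ ?_
  · intro k hk
    have h := cmp_pow _ T1 T2 P1 P2 A x s (∑ a, |P2 a x - T2 a x|)
      (fun z => cc (ed ∘ σ) ω A δ (K * (q * ms d L)) z) (by rw [hT1]; exact bT.1 _)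
      (by rw [hT1]; exact bT.2.1 _) (by rw [hT2]; exact bT2.1 _) (by rw [hT2]; exact bT2.2.1 _)
      (by rw [hP1e]; exact bP.1 _) (by rw [hP1e]; exact bP.2.1 _) (by rw [hP2e]; exact bP.1 _)
      (by rw [hP2e]; exact bP.2.1 _) hxA ?_ hs0 ?_ (by rw [hP1e]; exact hP1) ?_ ?_ le_rfl k
    · rw [← hTT, ← hPP] at h
      refine h.trans ?_
      have h1 : ∑ i ∈ range (k + 1), ∑ z, (P ^ i) x z * cc (ed ∘ σ) ω A δ (K * (q * ms d L)) z ≤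
          ∑ i ∈ range J, ∑ z, (P ^ i) x z * cc (ed ∘ σ) ω A δ (K * (q * ms d L)) z :=
        sum_le_sum_of_subset_of_nonneg (range_subset_range.2 (by omega)) fun i _ _ =>
          sum_nonneg fun z _ => mul_nonneg (hPi i z) (hcc z)
      have h2 : (k : ℝ) * s ^ 2 ≤ J * s ^ 2 := by
        refine mul_le_mul_of_nonneg_right ?_ (sq_nonneg s)
        exact_mod_cast hk.le
      have h3 := mul_le_mul_of_nonneg_left (add_le_add_left h1 (∑ a, |P2 a x - T2 a x|)) hs0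
      linarith
    · intro a ha b hb
      rw [← hTT, hT]
      exact bT.2.2.2.2.1 _ a ha b (by rw [hAim]; exact hb)
    · intro a
      rw [hT2]
      exact (hkb.2 a).trans hs
    · intro a
      rw [← hTT, ← hPP, hT, hP]
      exact Pool.Agent.Q151.LC.con1 _ (ed ∘ σ) ω A δ _ a hδ0 hδ1
    · intro a
      rw [hT1, hP1e]
      refine (Pool.Agent.Q151.LC.con1 _ (ed ∘ σ) ω A δ _ a hδ0 hδ1).trans ?_
      exact cc_mono hδ0 hδ1 ω A a (Nat.mul_le_mul_right _ (Nat.div_le_self _ _))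
  · intro k
    have hST : Pool.Agent.Q68.LC.SS T := ⟨hT0, fun a => (hTr a).le⟩
    have h1 := Pool.Agent.Q68.LC.SS_pow (Pool.Agent.Q68.LC.SS_dg hST (univ \ insert x A)) k
    show 0 ≤ (T * (dg (univ \ insert x A) * T) ^ k) x x
    rw [Matrix.mul_apply]
    exact sum_nonneg fun z _ => mul_nonneg (hT0 _ _) (h1.nn _ _)
  · intro k
    have h1 := hkb.1 (univ \ insert x A) hU k
    rw [← hT] at h1
    exact h1

end env2

end Pool.Agent.K9h51.SH
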