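import Pool.Agent.K9h51.SH.Cir

/-!
# Project SH: the sharp estimate for circuits, assembly
-/

set_option autoImplicit false
set_option linter.unusedVariables false

namespace Pool.Agent.K9h51.SH

open Finset Equiv Matrix Q292.LC
open Pool.Agent.Q257.LC (TT_units sh_ed)

section env3

variable {d L : ℕ} [NeZero L]

open Classical in
/-- the mean of the error term -/
theorem mean_err (hd : 3 ≤ d) (hL3 : 3 ≤ L) {σ : ℕ → (Fin d → ZMod L) × Fin d} (hσ : Per σ)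
    (q K J Z r κ₀ : ℕ) (δ w s κ c0 CD : ℝ) (hδ0 : 0 < δ) (hδ4 : 4 * d * δ ≤ 1)
    (hδq : δ * q ≤ 2) (hq : 1 ≤ q) (hK : 1 ≤ K) (hw0 : 0 ≤ w) (hw1 : w < 1) (hs0 : 0 ≤ s)
    (hc0 : 0 ≤ c0) (hκ0 : 0 ≤ κ) (hZr : Z ≤ r) (hCD : 0 ≤ CD)
    (hD : ∀ σ : ℕ → (Fin d → ZMod L) × Fin d, Per σ → ∀ (δ : ℝ) (q K ρ : ℕ) (x : Fin d → ZMod L),
      0 < δ → 4 * d * δ ≤ 1 → δ * q ≤ 2 →
      ∃ M : ℕ → (Fin d → ZMod L) → ℝ, (∀ j y, 0 ≤ M j y) ∧
      (∀ j < K, ∑ y, M j y ≤ CD * (ρ + 1) ^ (d + 1)) ∧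
      ∀ (ω : ℕ → Bool) (A : Finset (Fin d → ZMod L)),
      (∀ j < K, ∀ a ∈ A, jumps (ed ∘ σ) ω (j * (q * ms d L)) ((j + 1) * (q * ms d L)) a ≤ ρ) →
      cc (ed ∘ σ) ω A δ (K * (q * ms d L)) x ≤
        ∑ j ∈ range K, ∑ a ∈ A, M j (gp (ed ∘ σ) ω (j * (q * ms d L)) a))
    (hκ : ∀ y, EE (K * (q * ms d L)) δ
      (fun ω => w ^ (cyc (gp (ed ∘ σ) ω (K * (q * ms d L))) y).card) ≤ κ)
    (x : Fin d → ZMod L) :
    PX (ed ∘ σ) (K * (q * ms d L)) δ w x (fun ω A => if Gd σ q K Z r Z κ₀ ω A then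
      J * (s * (∑ i ∈ range J, ∑ z, ((PP (ed ∘ σ) δ (K * (q * ms d L))) ^ i) x z *
        cc (ed ∘ σ) ω A δ (K * (q * ms d L)) z +
        ∑ a, |PP (ed ∘ σ) δ ((K - K / 2) * (q * ms d L)) a x -
          TT (ed ∘ σ) (sh ((K / 2) * (q * ms d L)) ω)
            (A.image (gp (ed ∘ σ) ω ((K / 2) * (q * ms d L)))) δ
            ((K - K / 2) * (q * ms d L)) a x|) + J * s ^ 2) + c0 else 0) ≤
    J * s * (J * (K * κ * (CD * ((Z : ℝ) + 1) ^ (d + 1))) + K * κ * (CD * ((Z : ℝ) + 1) ^ (d + 1))) +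
      (J * (J * s ^ 2) + c0) := by
  have hd1 : 1 ≤ d := by omega
  have hdr : (1 : ℝ) ≤ d := by exact_mod_cast hd1
  have hδ1 : δ ≤ 1 := by nlinarith
  have hB1 : S_BAS1 := Pool.Agent.Q68.LC.bas1
  have hB2 : S_BAS2 := Pool.Agent.Q68.LC.bas2
  have hGE : S_GE := Pool.Agent.Q277.LC.ge
  have hSUB : S_SUB := Pool.Agent.Q277.LC.sub
  have hREV : S_REV := Pool.Agent.Q187.LC.Rev.rev
  have hKK : K / 2 + (K - K / 2) = K := by omega
  have hms : 0 < ms d L := Pool.Agent.Q277.LC.ms_pos' hd1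
  have hu : 0 < q * ms d L := Nat.mul_pos (by omega) hms
  have hσr : Per (rvs σ) := Pool.Agent.Q187.LC.Rev.per_rvs hd1 hσ
  have hper : ∀ k, (ed ∘ σ) (k + q * ms d L) = (ed ∘ σ) k := by
    intro k
    have h := congrFun (sh_ed hσ 1 q) k
    unfold sh at h
    rw [one_mul] at h
    exact h
  choose M hM0 hMs hMc using fun z => hD σ hσ δ q K Z z hδ0 hδ4 hδq
  obtain ⟨M', hM0', hMs', hMc'⟩ := hD (rvs σ) hσr δ q (K - K / 2) Z x hδ0 hδ4 hδq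
  obtain ⟨B0, hB0⟩ : ∃ B0, B0 = CD * ((Z : ℝ) + 1) ^ (d + 1) := ⟨_, rfl⟩
  rw [← hB0] at hMs' hMs ⊢
  have hB0n : 0 ≤ B0 := by rw [hB0]; positivity
  obtain ⟨S, hS⟩ : ∃ S : (Fin d → ZMod L) → (ℕ → Bool) → Finset (Fin d → ZMod L) → ℝ,
    S = fun z ω A => ∑ j ∈ range K, ∑ a ∈ A, M z j (gp (ed ∘ σ) ω (j * (q * ms d L)) a) := ⟨_, rfl⟩
  obtain ⟨S2, hS2⟩ : ∃ S2 : (ℕ → Bool) → Finset (Fin d → ZMod L) → ℝ,
    S2 = fun ω A => ∑ j ∈ range (K - K / 2), ∑ a ∈ A,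
      M' j (gp (ed ∘ σ) ω ((K - j) * (q * ms d L)) a) := ⟨_, rfl⟩
  have hSn : ∀ z ω A, 0 ≤ S z ω A := by
    intro z ω A
    rw [hS]
    exact sum_nonneg fun j _ => sum_nonneg fun a _ => hM0 z j _
  have hS2n : ∀ ω A, 0 ≤ S2 ω A := by
    intro ω A
    rw [hS2]
    exact sum_nonneg fun j _ => sum_nonneg fun a _ => hM0' j _
  have bP := hB2 _ (ed ∘ σ) (fun _ => false) ∅ δ hδ0.le hδ1
  have hSP : Pool.Agent.Q68.LC.SS (PP (ed ∘ σ) δ (K * (q * ms d L))) :=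
    ⟨bP.1 _, fun a => (bP.2.1 _ a).le⟩
  have hPi : ∀ (i : ℕ) z, 0 ≤ ((PP (ed ∘ σ) δ (K * (q * ms d L))) ^ i) x z := fun i z =>
    (Pool.Agent.Q68.LC.SS_pow hSP i).nn x z
  have hPr : ∀ i : ℕ, ∑ z, ((PP (ed ∘ σ) δ (K * (q * ms d L))) ^ i) x z ≤ 1 := fun i =>
    (Pool.Agent.Q68.LC.SS_pow hSP i).row x
  have hpt : ∀ ω A, Inv (gp (ed ∘ σ) ω (K * (q * ms d L))) A → x ∉ A →
      (if Gd σ q K Z r Z κ₀ ω A then
      J * (s * (∑ i ∈ range J, ∑ z, ((PP (ed ∘ σ) δ (K * (q * ms d L))) ^ i) x z *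
        cc (ed ∘ σ) ω A δ (K * (q * ms d L)) z +
        ∑ a, |PP (ed ∘ σ) δ ((K - K / 2) * (q * ms d L)) a x -
          TT (ed ∘ σ) (sh ((K / 2) * (q * ms d L)) ω)
            (A.image (gp (ed ∘ σ) ω ((K / 2) * (q * ms d L)))) δ
            ((K - K / 2) * (q * ms d L)) a x|) + J * s ^ 2) + c0 else 0) ≤
      (J * s) * (∑ i ∈ range J, ∑ z, ((PP (ed ∘ σ) δ (K * (q * ms d L))) ^ i) x z * S z ω A +
        S2 ω A) + (J * (J * s ^ 2) + c0) := by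
    intro ω A hI hx
    have hRn : 0 ≤ ∑ i ∈ range J, ∑ z, ((PP (ed ∘ σ) δ (K * (q * ms d L))) ^ i) x z * S z ω A :=
      sum_nonneg fun i _ => sum_nonneg fun z _ => mul_nonneg (hPi i z) (hSn z ω A)
    have hRn2 := hS2n ω A
    have hJs : 0 ≤ (J : ℝ) * s := by positivity
    split_ifs with hG
    · have h1 : ∑ i ∈ range J, ∑ z, ((PP (ed ∘ σ) δ (K * (q * ms d L))) ^ i) x z *
          cc (ed ∘ σ) ω A δ (K * (q * ms d L)) z ≤
          ∑ i ∈ range J, ∑ z, ((PP (ed ∘ σ) δ (K * (q * ms d L))) ^ i) x z * S z ω A := by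
        refine sum_le_sum fun i _ => sum_le_sum fun z _ => mul_le_mul_of_nonneg_left ?_ (hPi i z)
        rw [hS]
        exact hMc z ω A hG.2.1
      have h2 : ∑ a, |PP (ed ∘ σ) δ ((K - K / 2) * (q * ms d L)) a x -
          TT (ed ∘ σ) (sh ((K / 2) * (q * ms d L)) ω)
            (A.image (gp (ed ∘ σ) ω ((K / 2) * (q * ms d L)))) δ
            ((K - K / 2) * (q * ms d L)) a x| ≤ S2 ω A := by
        refine (col_rev hd1 hL3 hσ q Z (r - Z) Z (κ₀ + 1) (K - K / 2) _ _ δ hδ0.le hδ1 x).trans ?_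
        have hEv : Ev σ q K Z (r - Z) Z (κ₀ + 1) ω A :=
          hGE d L hL3 σ hσ q K Z (r - Z) Z κ₀ ω A (by omega) hK
            (by rw [Nat.sub_add_cancel hZr]; exact hG)
        have hE2 := (hSUB d L hL3 σ hσ q K Z (r - Z) Z (κ₀ + 1) ω A hEv (K / 2) (K - K / 2)
          (by omega)).2
        obtain ⟨-, hEvr, -⟩ := hREV d L hd1 hL3 σ hσ q (K - K / 2) Z (r - Z) Z (κ₀ + 1)
          (sh ((K / 2) * (q * ms d L)) ω) (A.image (gp (ed ∘ σ) ω ((K / 2) * (q * ms d L)))) δ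
        have hEr := hEvr hE2
        refine (hMc' _ _ hEr.2.1).trans (le_of_eq ?_)
        rw [hS2]
        refine sum_congr rfl fun j hj => ?_
        rw [sum_rev hd1 hσ q (K / 2) (K - K / 2) ω A (M' j) j (mem_range.1 hj).le, hKK]
      have h3 := mul_le_mul_of_nonneg_left (add_le_add h1 h2) hJs
      have h4 : (J : ℝ) * (s * (∑ i ∈ range J, ∑ z, ((PP (ed ∘ σ) δ (K * (q * ms d L))) ^ i) x z *
        cc (ed ∘ σ) ω A δ (K * (q * ms d L)) z +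
        ∑ a, |PP (ed ∘ σ) δ ((K - K / 2) * (q * ms d L)) a x -
          TT (ed ∘ σ) (sh ((K / 2) * (q * ms d L)) ω)
            (A.image (gp (ed ∘ σ) ω ((K / 2) * (q * ms d L)))) δ
            ((K - K / 2) * (q * ms d L)) a x|) + J * s ^ 2) =
        (J : ℝ) * s * (∑ i ∈ range J, ∑ z, ((PP (ed ∘ σ) δ (K * (q * ms d L))) ^ i) x z *
        cc (ed ∘ σ) ω A δ (K * (q * ms d L)) z +
        ∑ a, |PP (ed ∘ σ) δ ((K - K / 2) * (q * ms d L)) a x -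
          TT (ed ∘ σ) (sh ((K / 2) * (q * ms d L)) ω)
            (A.image (gp (ed ∘ σ) ω ((K / 2) * (q * ms d L)))) δ
            ((K - K / 2) * (q * ms d L)) a x|) + J * (J * s ^ 2) := by ring
      rw [h4]
      linarith
    · have : 0 ≤ (J : ℝ) * s * (∑ i ∈ range J, ∑ z,
          ((PP (ed ∘ σ) δ (K * (q * ms d L))) ^ i) x z * S z ω A + S2 ω A) :=
        mul_nonneg hJs (add_nonneg hRn hRn2)
      have h5 : 0 ≤ (J : ℝ) * (J * s ^ 2) := by positivity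
      linarith
  refine (PX_mono (ed ∘ σ) (K * (q * ms d L)) x hδ0.le hδ1 hw0 hw1 hpt).trans ?_
  rw [PX_lin (ed ∘ σ) (K * (q * ms d L)) x hw0 hw1 J
    (fun i z => ((PP (ed ∘ σ) δ (K * (q * ms d L))) ^ i) x z) S S2 (J * s) (J * (J * s ^ 2) + c0)]
  have hPS : ∀ z, PX (ed ∘ σ) (K * (q * ms d L)) δ w x (S z) ≤ K * κ * B0 := by
    intro z
    have e1 : S z = fun ω A => ∑ j ∈ range K,
        (fun (j : ℕ) (ω : ℕ → Bool) (A : Finset (Fin d → ZMod L)) =>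
          ∑ a ∈ A, M z j (gp (ed ∘ σ) ω (j * (q * ms d L)) a)) j ω A := by rw [hS]
    rw [e1, PX_sum]
    have e2 : ∀ j ∈ range K, PX (ed ∘ σ) (K * (q * ms d L)) δ w x (fun ω A =>
        ∑ a ∈ A, M z j (gp (ed ∘ σ) ω (j * (q * ms d L)) a)) ≤ κ * B0 := by
      intro j hj
      refine (ctm _ (ed ∘ σ) (q * ms d L) K j δ w κ x (M z j) hδ0.le hδ1 hw0 hw1 hu (by omega)
        (mem_range.1 hj).le hper (hM0 z j) hκ).trans ?_
      exact mul_le_mul_of_nonneg_left (hMs z j (mem_range.1 hj)) hκ0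
    refine (sum_le_sum e2).trans (le_of_eq ?_)
    rw [sum_const, card_range, nsmul_eq_mul]
    ring
  have hPS2 : PX (ed ∘ σ) (K * (q * ms d L)) δ w x S2 ≤ K * κ * B0 := by
    have e1 : S2 = fun ω A => ∑ j ∈ range (K - K / 2),
        (fun (j : ℕ) (ω : ℕ → Bool) (A : Finset (Fin d → ZMod L)) =>
          ∑ a ∈ A, M' j (gp (ed ∘ σ) ω ((K - j) * (q * ms d L)) a)) j ω A := by rw [hS2]
    rw [e1, PX_sum]
    have e2 : ∀ j ∈ range (K - K / 2), PX (ed ∘ σ) (K * (q * ms d L)) δ w x (fun ω A =>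
        ∑ a ∈ A, M' j (gp (ed ∘ σ) ω ((K - j) * (q * ms d L)) a)) ≤ κ * B0 := by
      intro j hj
      refine (ctm _ (ed ∘ σ) (q * ms d L) K (K - j) δ w κ x (M' j) hδ0.le hδ1 hw0 hw1 hu (by omega)
        (Nat.sub_le _ _) hper (hM0' j) hκ).trans ?_
      exact mul_le_mul_of_nonneg_left (hMs' j (mem_range.1 hj)) hκ0
    refine (sum_le_sum e2).trans ?_
    rw [sum_const, card_range, nsmul_eq_mul]
    have e3 : ((K - K / 2 : ℕ) : ℝ) ≤ K := by exact_mod_cast Nat.sub_le _ _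
    have e4 : 0 ≤ κ * B0 := mul_nonneg hκ0 hB0n
    have e5 := mul_le_mul_of_nonneg_right e3 e4
    linarith
  have hKκ : 0 ≤ (K : ℝ) * κ * B0 := by positivity
  have hsum : ∑ i ∈ range J, ∑ z, ((PP (ed ∘ σ) δ (K * (q * ms d L))) ^ i) x z *
      PX (ed ∘ σ) (K * (q * ms d L)) δ w x (S z) ≤ J * (K * κ * B0) := by
    have e1 : ∀ i ∈ range J, ∑ z, ((PP (ed ∘ σ) δ (K * (q * ms d L))) ^ i) x z *
        PX (ed ∘ σ) (K * (q * ms d L)) δ w x (S z) ≤ K * κ * B0 := by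
      intro i _
      refine (sum_le_sum fun z _ => mul_le_mul_of_nonneg_left (hPS z) (hPi i z)).trans ?_
      rw [← sum_mul]
      exact mul_le_of_le_one_left hKκ (hPr i)
    refine (sum_le_sum e1).trans (le_of_eq ?_)
    rw [sum_const, card_range, nsmul_eq_mul]
  have hJs : 0 ≤ (J : ℝ) * s := by positivity
  have h6 := mul_le_mul_of_nonneg_left (add_le_add hsum hPS2) hJs
  linarith

end env3

end Pool.Agent.K9h51.SH
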