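import Pool.Agent.K9h51.SH.Cir2

/-!
# Project SH: the sharp estimate for circuits, final assembly
-/

set_option autoImplicit false
set_option linter.unusedVariables false

namespace Pool.Agent.K9h51.SH

open Finset Equiv Matrix Q292.LC
open Pool.Agent.Q297.LC (pow_exp)

theorem cir : S_CIR := by
  classical
  intro d hd
  have hd1 : 1 ≤ d := by omega
  have hd3 : (3 : ℝ) ≤ d := by exact_mod_cast hd
  have hd0 : (0 : ℝ) < d := by linarith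
  obtain ⟨CE, mE, hCE, hE⟩ := env d hd
  obtain ⟨CT, mT, hCT, hTL⟩ := Pool.Agent.Q297.LC.tlc Q292.LC.all_btl Pool.Agent.Q277.LC.peb d hd
  obtain ⟨CF, hCF, hF⟩ := Pool.Agent.Q257.LC.fre d hd1
  obtain ⟨CD, hCD, hD⟩ := ctd d hd1
  obtain ⟨Cs, hCs⟩ : ∃ Cs : ℝ, Cs = CE + (2 : ℝ) ^ (d / 2 : ℝ) * CF := ⟨_, rfl⟩
  have h2d : (1 : ℝ) ≤ (2 : ℝ) ^ (d / 2 : ℝ) := Real.one_le_rpow (by norm_num) (by positivity)
  have hCFs : CF ≤ Cs := by
    rw [hCs]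
    nlinarith
  have hCFs2 : (2 : ℝ) ^ (d / 2 : ℝ) * CF ≤ Cs := by
    rw [hCs]
    linarith
  have hCEs : CE ≤ Cs := by
    rw [hCs]
    nlinarith
  have hCs1 : 1 ≤ Cs := hCE.trans hCEs
  refine ⟨8 * Cs * CT * CD + 4 * Cs ^ 2 + 3 * CE, mE + mT + 3 ^ d + 2, ?_, ?_⟩
  · have : 0 ≤ 8 * Cs * CT * CD := by positivity
    nlinarith
  intro L K J _ w hmK hKL hlogK hw0 hw1 hwK hJ
  have h3d : 1 ≤ 3 ^ d := Nat.one_le_pow _ _ (by norm_num)
  have hLpos : 1 ≤ L := Nat.pos_of_ne_zero (NeZero.ne L)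
  have hL3 : 3 ≤ L := by
    by_contra hcon
    push Not at hcon
    have h1 : L ^ d < 3 ^ d := Nat.pow_lt_pow_left hcon (by omega)
    omega
  have hLr : (3 : ℝ) ≤ L := by exact_mod_cast hL3
  have hlog1 : 1 ≤ Real.log L := by
    rw [Real.le_log_iff_exp_le (by linarith)]
    have := Real.exp_one_lt_d9
    linarith
  have hK1 : (1 : ℝ) ≤ K := by
    have : 1 ≤ K := by omega
    exact_mod_cast this
  have hK0 : (0 : ℝ) < K := by linarith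
  have hlog : ∀ m' ≤ mE + mT + 3 ^ d + 2, (Real.log L) ^ m' ≤ K := fun m' hm' =>
    (pow_le_pow_right₀ hlog1 hm').trans hlogK
  have h1w : 0 < 1 - w := by linarith
  have hLd : (0 : ℝ) < (L : ℝ) ^ d := by positivity
  obtain ⟨κd, hκd⟩ : ∃ κd : ℝ, κd = (K : ℝ) ^ (-(d / 2 : ℝ)) := ⟨_, rfl⟩
  obtain ⟨D, hDe⟩ : ∃ D : ℝ, D = 1 / ((L : ℝ) ^ d * (1 - w)) := ⟨_, rfl⟩
  have hκd0 : 0 ≤ κd := by rw [hκd]; positivity
  have hD0 : 0 ≤ D := by rw [hDe]; positivity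
  have hDκ : D ≤ κd := by rw [hDe, hκd]; exact hwK
  have hκdK : κd ≤ 1 / K := by
    rw [hκd, one_div, ← Real.rpow_neg_one]
    exact Real.rpow_le_rpow_of_exponent_le hK1 (by linarith)
  have hLD : 1 / (L : ℝ) ^ d ≤ D := by
    rw [hDe]
    refine one_div_le_one_div_of_le (by positivity) ?_
    nlinarith
  have hwK2 : 1 / ((L : ℝ) ^ d * (1 - w)) ≤ 2 / K := by
    rw [← hDe]
    refine (hDκ.trans hκdK).trans ?_
    exact div_le_div_of_nonneg_right (by norm_num) hK0.le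
  obtain ⟨Z, r, hZ1, hZr, hL64, hK2, hZK, q1, hq1⟩ := hE L K w (by omega) hKL
    (hlog mE (by omega)) hw0 hw1 hwK2
  obtain ⟨q2, hq2⟩ := hTL L K w (by omega) hKL (hlog mT (by omega)) hw0 hw1 hwK2
  obtain ⟨q3, hq3⟩ := hF L hL3 K
  refine ⟨q1 + q2 + q3 + 8 * d + 2, ?_⟩
  intro q hq σ hσ δ hδq1 hδq2 x
  have hqr : (8 * d + 2 : ℝ) ≤ q := by
    have : 8 * d + 2 ≤ q := by omega
    exact_mod_cast this
  have hδ0 : 0 < δ := by
    by_contra h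
    push Not at h
    nlinarith
  have hδ4 : 4 * d * δ ≤ 1 := by
    have h1 : (8 * d + 2) * δ ≤ 2 := by
      have := mul_le_mul_of_nonneg_right hqr hδ0.le
      linarith
    nlinarith
  have hδ1 : δ ≤ 1 := by nlinarith
  obtain ⟨hPW, hKB⟩ := hq1 q (by omega) σ hσ δ hδq1 hδq2
  have hκ := fun y => hq2 q (by omega) σ hσ δ hδq1 hδq2 y
  obtain ⟨hFa, -, -⟩ := hq3 q (by omega) σ hσ δ hδq1 hδq2
  obtain ⟨κ, hκe⟩ : ∃ κ : ℝ, κ = CT * (κd + D) := ⟨_, rfl⟩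
  have hκ' : ∀ y, EE (K * (q * ms d L)) δ
      (fun ω => w ^ (cyc (gp (ed ∘ σ) ω (K * (q * ms d L))) y).card) ≤ κ := by
    intro y
    rw [hκe, hκd, hDe]
    exact hκ y
  have hκ0 : 0 ≤ κ := by rw [hκe]; positivity
  obtain ⟨s, hse⟩ : ∃ s : ℝ, s = Cs * (1 / (L : ℝ) ^ d + κd) := ⟨_, rfl⟩
  have hs0 : 0 ≤ s := by rw [hse]; positivity
  have hsE : CE * (1 / (L : ℝ) ^ d + (K : ℝ) ^ (-(d / 2 : ℝ))) ≤ s := by
    rw [hse, ← hκd]
    exact mul_le_mul_of_nonneg_right hCEs (by positivity)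
  have hP1 : ∀ a b, PP (ed ∘ σ) δ ((K / 2) * (q * ms d L)) a b ≤ s := by
    intro a b
    have h1 := hFa ((K / 2) * q) (Nat.mul_le_mul_right _ (Nat.div_le_self _ _)) a b
    rw [mul_assoc] at h1
    refine h1.trans ?_
    have h2 : (K : ℝ) / 2 ≤ 1 + (((K / 2) * q : ℕ) : ℝ) * δ := by
      have h3 : (K : ℝ) ≤ 2 * ((K / 2 : ℕ) : ℝ) + 1 := by
        have : K ≤ 2 * (K / 2) + 1 := by omega
        exact_mod_cast this
      have h4 : ((K / 2 : ℕ) : ℝ) * 1 ≤ ((K / 2 : ℕ) : ℝ) * (δ * q) :=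
        mul_le_mul_of_nonneg_left hδq1 (Nat.cast_nonneg _)
      push_cast
      nlinarith
    have h5 : (1 + (((K / 2) * q : ℕ) : ℝ) * δ) ^ (-(d / 2 : ℝ)) ≤
        (2 : ℝ) ^ (d / 2 : ℝ) * κd := by
      have h6 : (1 + (((K / 2) * q : ℕ) : ℝ) * δ) ^ (-(d / 2 : ℝ)) ≤
          ((K : ℝ) / 2) ^ (-(d / 2 : ℝ)) :=
        Real.rpow_le_rpow_of_nonpos (by positivity) h2 (by
          rw [neg_nonpos]
          positivity)
      refine h6.trans (le_of_eq ?_)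
      rw [hκd, Real.div_rpow hK0.le (by norm_num), Real.rpow_neg (by norm_num : (0 : ℝ) ≤ 2),
        div_inv_eq_mul, mul_comm]
    calc CF * ((1 + (((K / 2) * q : ℕ) : ℝ) * δ) ^ (-(d / 2 : ℝ)) + 1 / (L : ℝ) ^ d)
        ≤ CF * ((2 : ℝ) ^ (d / 2 : ℝ) * κd + 1 / (L : ℝ) ^ d) :=
          mul_le_mul_of_nonneg_left (by linarith) (by linarith)
      _ = ((2 : ℝ) ^ (d / 2 : ℝ) * CF) * κd + CF * (1 / (L : ℝ) ^ d) := by ring
      _ ≤ Cs * κd + Cs * (1 / (L : ℝ) ^ d) :=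
          add_le_add (mul_le_mul_of_nonneg_right hCFs2 hκd0)
            (mul_le_mul_of_nonneg_right hCFs (by positivity))
      _ = s := by rw [hse]; ring
  have bP := Pool.Agent.Q68.LC.bas2 _ (ed ∘ σ) (fun _ => false) ∅ δ hδ0.le hδ1
  have hSP : Pool.Agent.Q68.LC.SS (PP (ed ∘ σ) δ (K * (q * ms d L))) :=
    ⟨bP.1 _, fun a => (bP.2.1 _ a).le⟩
  obtain ⟨F, hFe⟩ : ∃ F : ℝ, F = ∑ k ∈ range J, w ^ (k + 1) *
    ((PP (ed ∘ σ) δ (K * (q * ms d L))) ^ (k + 1)) x x := ⟨_, rfl⟩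
  have hF0 : 0 ≤ F := by
    rw [hFe]
    exact sum_nonneg fun k _ => mul_nonneg (pow_nonneg hw0 _)
      ((Pool.Agent.Q68.LC.SS_pow hSP (k + 1)).nn x x)
  have hFJ : F ≤ J := by
    rw [hFe]
    have h1 : ∀ k ∈ range J, w ^ (k + 1) *
        ((PP (ed ∘ σ) δ (K * (q * ms d L))) ^ (k + 1)) x x ≤ 1 := fun k _ =>
      mul_le_one₀ (pow_le_one₀ hw0 hw1.le) ((Pool.Agent.Q68.LC.SS_pow hSP (k + 1)).nn x x)
        (Pool.Agent.Q68.LC.SS_le (Pool.Agent.Q68.LC.SS_pow hSP (k + 1)) x x)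
    refine (sum_le_sum h1).trans (le_of_eq ?_)
    rw [sum_const, card_range, nsmul_eq_mul, mul_one]
  have hJr : (1 : ℝ) ≤ J := by exact_mod_cast hJ
  obtain ⟨c0, hc0e⟩ : ∃ c0 : ℝ, c0 = CE * ((1 / (L : ℝ) ^ d) / (1 - w) +
    2 * (K : ℝ) ^ (-(d / 2 : ℝ)) * (J : ℝ) ^ (-(1 / 2 : ℝ))) := ⟨_, rfl⟩
  have hc0 : 0 ≤ c0 := by
    rw [hc0e]
    positivity
  obtain ⟨g1, g2⟩ := Pool.Agent.Q154.LC.gdm d L σ q K Z r Z (2 * ((Z - 1) / 2))
  have hpx := pxf _ (ed ∘ σ) (K * (q * ms d L)) δ w F x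
    (fun ω A => Gd σ q K Z r Z (2 * ((Z - 1) / 2)) ω A)
    (fun ω A => J * (s * (∑ i ∈ range J, ∑ z, ((PP (ed ∘ σ) δ (K * (q * ms d L))) ^ i) x z *
        cc (ed ∘ σ) ω A δ (K * (q * ms d L)) z +
        ∑ a, |PP (ed ∘ σ) δ ((K - K / 2) * (q * ms d L)) a x -
          TT (ed ∘ σ) (sh ((K / 2) * (q * ms d L)) ω)
            (A.image (gp (ed ∘ σ) ω ((K / 2) * (q * ms d L)))) δ
            ((K - K / 2) * (q * ms d L)) a x|) + J * s ^ 2) + c0)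
    hδ0.le hδ1 hw0 hw1 hF0 g1 g2 ?_ ?_
  · have hme := mean_err hd hL3 hσ q K J Z r (2 * ((Z - 1) / 2)) δ w s κ c0 CD hδ0 hδ4 hδq2
      (by omega) (by omega) hw0 hw1 hs0 hc0 hκ0 hZr (by linarith)
      (fun σ' hσ' δ' q' K' ρ' x' => hD L hL3 σ' hσ' δ' q' K' ρ' x') hκ' x
    have hpx2 : |EE (K * (q * ms d L)) δ
        (fun ω => w ^ (cyc (gp (ed ∘ σ) ω (K * (q * ms d L))) x).card) - F| ≤
        (1 + F) * PW (ed ∘ σ) (K * (q * ms d L)) δ w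
          (fun ω A => ¬ Gd σ q K Z r Z (2 * ((Z - 1) / 2)) ω A) +
        (J * s * (J * (K * κ * (CD * ((Z : ℝ) + 1) ^ (d + 1))) +
          K * κ * (CD * ((Z : ℝ) + 1) ^ (d + 1))) + (J * (J * s ^ 2) + c0)) := by
      refine hpx.trans (add_le_add_right ?_ _)
      refine le_trans (le_of_eq ?_) hme
      congr 1
    have hPW0 : 0 ≤ PW (ed ∘ σ) (K * (q * ms d L)) δ w
          (fun ω A => ¬ Gd σ q K Z r Z (2 * ((Z - 1) / 2)) ω A) := by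
      unfold PW
      have h0 : EE (K * (q * ms d L)) δ (fun _ => 0) = 0 := Pool.Agent.Q68.LC.EE_const _ _ _
      refine le_trans (le_of_eq h0.symm) ?_
      refine Pool.Agent.Q68.LC.EE_mono hδ0.le hδ1 fun ω => sum_nonneg fun A _ => ?_
      split_ifs
      · exact Pool.Agent.Q277.LC.wt_nonneg _ w hw0 hw1 A
      · exact le_rfl
    obtain ⟨θ, hθ⟩ : ∃ θ : ℝ, θ = (K : ℝ) ^ (-(1 / 4 : ℝ)) := ⟨_, rfl⟩
    have hθ0 : 0 ≤ θ := by rw [hθ]; positivity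
    have hκθ : κd ≤ θ := by
      rw [hκd, hθ]
      exact Real.rpow_le_rpow_of_exponent_le hK1 (by linarith)
    have hKB : (K : ℝ) * κd * (CD * ((Z : ℝ) + 1) ^ (d + 1)) ≤ CD * θ := by
      have h1 : ((Z : ℝ) + 1) ^ (d + 1) ≤ (K : ℝ) ^ (1 / 4 : ℝ) := by
        have h2 : (((Z : ℝ) + 1) ^ (d + 1)) ^ 4 ≤ K := by
          rw [← pow_mul, mul_comm (d + 1) 4]
          exact_mod_cast hZK
        have h3 : 0 ≤ ((Z : ℝ) + 1) ^ (d + 1) := by positivity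
        calc ((Z : ℝ) + 1) ^ (d + 1) = ((((Z : ℝ) + 1) ^ (d + 1)) ^ 4) ^ (1 / 4 : ℝ) := by
              rw [← Real.rpow_natCast (((Z : ℝ) + 1) ^ (d + 1)) 4, ← Real.rpow_mul h3]
              norm_num
          _ ≤ (K : ℝ) ^ (1 / 4 : ℝ) := Real.rpow_le_rpow (by positivity) h2 (by norm_num)
      have h4 : (K : ℝ) * κd ≤ (K : ℝ) ^ (-(1 / 2 : ℝ)) := by
        have h5 : (K : ℝ) * κd = (K : ℝ) ^ (1 + -(d / 2 : ℝ)) := by
          rw [Real.rpow_add hK0, Real.rpow_one, hκd]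
        rw [h5]
        exact Real.rpow_le_rpow_of_exponent_le hK1 (by linarith)
      have h6 : (K : ℝ) ^ (-(1 / 2 : ℝ)) * (K : ℝ) ^ (1 / 4 : ℝ) = θ := by
        rw [← Real.rpow_add hK0, hθ]
        norm_num
      calc (K : ℝ) * κd * (CD * ((Z : ℝ) + 1) ^ (d + 1)) =
            CD * ((K : ℝ) * κd * ((Z : ℝ) + 1) ^ (d + 1)) := by ring
        _ ≤ CD * ((K : ℝ) ^ (-(1 / 2 : ℝ)) * (K : ℝ) ^ (1 / 4 : ℝ)) := by
            refine mul_le_mul_of_nonneg_left ?_ (by linarith)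
            exact mul_le_mul h4 h1 (by positivity) (by positivity)
        _ = CD * θ := by rw [h6]
    have hs2 : s ≤ 2 * Cs * κd := by
      rw [hse]
      have : 1 / (L : ℝ) ^ d ≤ κd := hLD.trans hDκ
      nlinarith
    have hκ2 : κ ≤ 2 * CT * κd := by
      rw [hκe]
      nlinarith
    have hfin := le_final CE CT CD Cs κd D θ K (CD * ((Z : ℝ) + 1) ^ (d + 1)) J
      ((J : ℝ) ^ (-(1 / 2 : ℝ))) F
      (PW (ed ∘ σ) (K * (q * ms d L)) δ w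
          (fun ω A => ¬ Gd σ q K Z r Z (2 * ((Z - 1) / 2)) ω A)) s κ
      (|EE (K * (q * ms d L)) δ
        (fun ω => w ^ (cyc (gp (ed ∘ σ) ω (K * (q * ms d L))) x).card) - F|)
      hCE hCT hCD hCs1 hκd0 hD0 hθ0 hK0.le hJr (by positivity) hFJ hPW0
      (hPW.trans (mul_le_mul_of_nonneg_left hLD (by linarith))) hs0 hs2 hκ0 hκ2 (by positivity)
      hKB hκθ ?_
    · rw [← hFe]
      refine hfin.trans (le_of_eq ?_)
      rw [hκd, hθ, hDe, mul_one_div]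
    · refine hpx2.trans (le_of_eq ?_)
      rw [hc0e, hDe, hκd, div_div]
  · intro A ω ω' h
    show _ = _
    simp only
    have h1 : ∀ z, cc (ed ∘ σ) ω A δ (K * (q * ms d L)) z =
        cc (ed ∘ σ) ω' A δ (K * (q * ms d L)) z := fun z => cc_agree h δ z
    have h2 := T2_agree h δ ((K / 2) * (q * ms d L)) ((K - K / 2) * (q * ms d L))
      (by rw [← add_mul]; exact Nat.mul_le_mul_right _ (by omega))
    rw [Pool.Agent.Q257.LC.sh_ed hσ] at h2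
    simp only [h1, h2]
  · intro ω A hG hx hI
    rw [hFe, hc0e]
    exact env_cmp hd hL3 hσ q K J δ w CE s hδ0.le hδ1 hw0 hw1 (by linarith) hJ hs0 hsE hP1 ω A x
      hx hI (hKB ω A hG hI x hx)

end Pool.Agent.K9h51.SH
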