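import Pool.Agent.K9h51.SH.Gen
import Pool.Agent.K9h51.SH.Lcr
import Pool.Agent.Q292.LC.FinT

/-!
# Project SH: the sharp law of the short cycles, fixed and polylogarithmic times
-/

set_option autoImplicit false
set_option linter.unusedVariables false

namespace Pool.Agent.K9h51.SH

open Finset Equiv Matrix Q292.LC
open Pool.Agent.Y998.ST (stirExp nnRate qq stirLaw cycleLen)

theorem fin (d : ℕ) (hd : 3 ≤ d) : ∃ (c : ℝ) (m : ℕ), 0 < c ∧ ∀ ε : ℝ, 0 < ε → ∃ C t₀ : ℝ,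
    0 ≤ C ∧ 1 ≤ t₀ ∧
    ∀ t : ℝ, t₀ ≤ t → ∀ (L : ℕ) [NeZero L] (n : ℕ), 1 ≤ n → (n : ℝ) * t ≤ (L : ℝ) ^ d →
    ((n : ℝ) ≤ Real.exp (t ^ c) ∨ (Real.log L) ^ m ≤ t) → ∀ x : Fin d → ZMod L,
    |stirExp (nnRate d L) t (fun g => if cycleLen g x ≤ n then 1 else 0) -
      (4 * Real.pi * t) ^ (-(d / 2 : ℝ)) * ∑ j ∈ range (n + 1), (j : ℝ) ^ (-(d / 2 : ℝ))| ≤
    ε * t ^ (-(d / 2 : ℝ)) + C * (n / (L : ℝ) ^ d) := by
  obtain ⟨m, hG⟩ := gen d hd
  obtain ⟨C₂, hC₂, h2⟩ := Q292.LC.all_lcs d (by omega)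
  obtain ⟨C₄, hC₄, h4⟩ := lcr d (by omega)
  obtain ⟨m', hm'⟩ : ∃ m' : ℕ, m' = m + 1 := ⟨_, rfl⟩
  have hm'0 : (0 : ℝ) < m' := by rw [hm']; positivity
  refine ⟨1 / (2 * m'), m', by positivity, fun ε hε => ?_⟩
  obtain ⟨C, t₁, hC, ht₁, hG⟩ := hG (ε / 4) (by positivity)
  obtain ⟨C', hC'⟩ : ∃ C' : ℝ, C' = (C₂ + C₄) * (4 / ε + 1) := ⟨_, rfl⟩
  have hC'1 : 1 ≤ C' := by
    rw [hC']
    have e1 : 0 < 4 / ε := by positivity
    nlinarith
  obtain ⟨t₂, ht₂, h3⟩ := tail_params d m' (by omega) C' hC'1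
  refine ⟨C, max (max t₁ t₂) (max 3 ((4 * C / ε + 1) ^ m')), hC,
    (ht₁.trans (le_max_left _ _)).trans (le_max_left _ _), ?_⟩
  intro t ht L _ n hn hnt hcase x
  have ht1 : t₁ ≤ t := ((le_max_left _ _).trans (le_max_left _ _)).trans ht
  have ht2 : t₂ ≤ t := ((le_max_right _ _).trans (le_max_left _ _)).trans ht
  have ht3 : (3 : ℝ) ≤ t := ((le_max_left _ _).trans (le_max_right _ _)).trans ht
  have ht4 : (4 * C / ε + 1) ^ m' ≤ t := ((le_max_right _ _).trans (le_max_right _ _)).trans ht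
  have ht0 : 0 < t := by linarith
  have htp : 0 ≤ t ^ (-(d / 2 : ℝ)) := by positivity
  have hL0 : (0 : ℝ) < L := by exact_mod_cast Nat.pos_of_ne_zero (NeZero.ne L)
  simp only [cycleLen_eq]
  -- the polylogarithmic case
  have hpoly : ∀ (L' : ℕ) [NeZero L'], (Real.log L') ^ m' ≤ t → (n : ℝ) * t ≤ (L' : ℝ) ^ d →
      ∀ x' : Fin d → ZMod L',
      |stirExp (nnRate d L') t (fun g => if (cyc g x').card ≤ n then 1 else 0) -
      (4 * Real.pi * t) ^ (-(d / 2 : ℝ)) * ∑ j ∈ range (n + 1), (j : ℝ) ^ (-(d / 2 : ℝ))| ≤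
      ε / 4 * t ^ (-(d / 2 : ℝ)) + C * (n / (L' : ℝ) ^ d) := by
    intro L' _ hlog hnt' x'
    refine hG t ht1 L' n hn hnt' ?_ x'
    by_cases h : Real.log L' ≤ 1
    · have hlog0 : 0 ≤ Real.log L' := by
        apply Real.log_nonneg
        exact_mod_cast Nat.one_le_iff_ne_zero.2 (NeZero.ne L')
      have : (Real.log L') ^ m ≤ 1 := pow_le_one₀ hlog0 h
      linarith
    · rw [not_le] at h
      refine le_trans ?_ hlog
      exact pow_le_pow_right₀ h.le (by omega)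
  by_cases hbig : (Real.log L) ^ m' ≤ t
  · refine (hpoly L hbig hnt x).trans ?_
    have : 0 ≤ ε * t ^ (-(d / 2 : ℝ)) := by positivity
    linarith
  · have hn2 : (n : ℝ) ≤ Real.exp (t ^ (1 / (2 * m') : ℝ)) := by
      rcases hcase with h | h
      · exact h
      · exact absurd h hbig
    obtain ⟨L₀, R₀, D, hL₀, hLe, hLge, hR, hD, hnt0, hnL, herr⟩ := h3 t ht2 n hn hn2
    haveI : NeZero L₀ := ⟨hL₀⟩
    have hL00 : (1 : ℝ) ≤ L₀ := by exact_mod_cast Nat.one_le_iff_ne_zero.2 hL₀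
    -- L₀ ≤ L
    have hLL : L₀ ≤ L := by
      rw [not_le] at hbig
      have hlog0 : 0 ≤ Real.log L := by
        apply Real.log_nonneg
        exact_mod_cast Nat.one_le_iff_ne_zero.2 (NeZero.ne L)
      have e1 : t ^ (1 / m' : ℝ) ≤ Real.log L := by
        have e2 : t ^ (1 / m' : ℝ) ≤ ((Real.log L) ^ m') ^ (1 / m' : ℝ) :=
          Real.rpow_le_rpow ht0.le hbig.le (by positivity)
        refine e2.trans (le_of_eq ?_)
        rw [← Real.rpow_natCast, ← Real.rpow_mul hlog0]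
        rw [show (m' : ℝ) * (1 / m') = 1 by field_simp, Real.rpow_one]
      have e3 : (L₀ : ℝ) ≤ L := by
        calc (L₀ : ℝ) ≤ Real.exp (t ^ (1 / m' : ℝ)) := hLe
          _ ≤ Real.exp (Real.log L) := Real.exp_le_exp.2 e1
          _ = L := Real.exp_log hL0
      exact_mod_cast e3
    have hlogL₀ : (Real.log L₀) ^ m' ≤ t := by
      have e1 : Real.log L₀ ≤ t ^ (1 / m' : ℝ) := by
        rw [← Real.log_exp (t ^ (1 / m' : ℝ))]
        exact Real.log_le_log (by linarith) hLe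
      have e2 : (Real.log L₀) ^ m' ≤ (t ^ (1 / m' : ℝ)) ^ m' :=
        pow_le_pow_left₀ (Real.log_nonneg hL00) e1 m'
      refine e2.trans (le_of_eq ?_)
      rw [← Real.rpow_natCast, ← Real.rpow_mul ht0.le]
      rw [show 1 / (m' : ℝ) * m' = 1 by field_simp, Real.rpow_one]
    have hpw : (L₀ : ℝ) ^ (1 : ℕ) ≤ (L₀ : ℝ) ^ d := pow_le_pow_right₀ hL00 (by omega)
    have h5 := hpoly L₀ hlogL₀ (hnt0.trans hpw) 0
    have h6 := h2 L L₀ R₀ hR hLL t n D (by linarith) hD x 0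
    have h7 := h4 L L₀ R₀ hR hLL t n D (by linarith) hD x 0
    -- the error of the change of the torus
    have hE : C₂ * (2 * (R₀ : ℝ) + 1) ^ d * t * Real.exp (-(D / t)) ≤ ε / 4 * t ^ (-(d / 2 : ℝ)) ∧
        C₄ * (2 * (R₀ : ℝ) + 1) ^ d * t * Real.exp (-(D / t)) ≤ ε / 4 * t ^ (-(d / 2 : ℝ)) := by
      obtain ⟨X, hX⟩ : ∃ X : ℝ, X = (2 * (R₀ : ℝ) + 1) ^ d * t * Real.exp (-(D / t)) := ⟨_, rfl⟩
      have hX0 : 0 ≤ X := by rw [hX]; positivity
      have e1 : (C₂ + C₄) * (4 / ε + 1) * X ≤ t ^ (-(d / 2 : ℝ)) := by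
        rw [hX, ← hC']
        refine le_trans (le_of_eq ?_) herr
        ring
      have e2 : (C₂ + C₄) * X * (4 / ε) ≤ t ^ (-(d / 2 : ℝ)) := by
        have : 0 ≤ (C₂ + C₄) * X := by positivity
        nlinarith
      have e3 : (C₂ + C₄) * X ≤ ε / 4 * t ^ (-(d / 2 : ℝ)) := by
        rw [mul_div_assoc', div_le_iff₀ hε] at e2
        linarith
      have e4 : 0 ≤ C₂ * X := by positivity
      have e5 : 0 ≤ C₄ * X := by positivity
      constructor
      · have : C₂ * (2 * (R₀ : ℝ) + 1) ^ d * t * Real.exp (-(D / t)) = C₂ * X := by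
          rw [hX]; ring
        rw [this]
        nlinarith
      · have : C₄ * (2 * (R₀ : ℝ) + 1) ^ d * t * Real.exp (-(D / t)) = C₄ * X := by
          rw [hX]; ring
        rw [this]
        nlinarith
    -- n / L₀^d is small
    have hbigL : 4 * C / ε ≤ L₀ := by
      have e0 : 0 ≤ 4 * C / ε + 1 := by positivity
      have e1 : 4 * C / ε + 1 ≤ t ^ (1 / m' : ℝ) := by
        have e2 : ((4 * C / ε + 1) ^ m') ^ (1 / m' : ℝ) ≤ t ^ (1 / m' : ℝ) :=
          Real.rpow_le_rpow (by positivity) ht4 (by positivity)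
        rw [← Real.rpow_natCast, ← Real.rpow_mul e0,
          show (m' : ℝ) * (1 / m') = 1 by field_simp, Real.rpow_one] at e2
        exact e2
      have e3 := Real.add_one_le_exp (t ^ (1 / m' : ℝ))
      linarith
    have h8 : C * ((n : ℝ) / (L₀ : ℝ) ^ d) ≤ ε / 4 * t ^ (-(d / 2 : ℝ)) := by
      have hL0p : (0 : ℝ) < L₀ := by linarith
      have e1 : (L₀ : ℝ) * L₀ ≤ (L₀ : ℝ) ^ d := by
        rw [← sq]
        exact pow_le_pow_right₀ hL00 (by omega)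
      have e2 : (n : ℝ) / (L₀ : ℝ) ^ d ≤ (n / L₀) * (1 / L₀) := by
        rw [div_mul_div_comm, mul_one]
        exact div_le_div_of_nonneg_left (by positivity) (by positivity) e1
      have e3 : C * (1 / (L₀ : ℝ)) ≤ ε / 4 := by
        rw [mul_one_div, div_le_iff₀ hL0p]
        rw [div_le_iff₀ hε] at hbigL
        linarith
      calc C * ((n : ℝ) / (L₀ : ℝ) ^ d) ≤ C * ((n / L₀) * (1 / L₀)) :=
            mul_le_mul_of_nonneg_left e2 hC
        _ = (C * (1 / (L₀ : ℝ))) * (n / L₀) := by ring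
        _ ≤ ε / 4 * (n / L₀) := mul_le_mul_of_nonneg_right e3 (by positivity)
        _ ≤ ε / 4 * t ^ (-(d / 2 : ℝ)) := mul_le_mul_of_nonneg_left hnL (by positivity)
    have h9 : 0 ≤ C * ((n : ℝ) / (L : ℝ) ^ d) := by positivity
    have h10 := abs_le.1 h5
    rw [abs_le]
    constructor <;> linarith [h10.1, h10.2, hE.1, hE.2]

end Pool.Agent.K9h51.SH
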