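import Pool.Agent.K9h51.SH.Stm

set_option autoImplicit false

namespace Pool.Agent.K9h51.SH

open Finset Filter Topology
open Pool.Agent.Y998.ST (rc lam gk nnRate qq hk)

/-- the symbol -/
noncomputable def hka_F (s : ℝ) (θ : ℝ) : ℝ := Real.exp (-(s * (2 - 2 * Real.cos (2 * Real.pi * θ))))

theorem hka_F_anti {s : ℝ} (hs : 0 ≤ s) : AntitoneOn (hka_F s) (Set.Icc 0 (1 / 2)) := by
  intro a ha b hb hab
  unfold hka_F
  refine Real.exp_le_exp.2 (neg_le_neg (mul_le_mul_of_nonneg_left ?_ hs))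
  have hpi := Real.pi_pos
  have h := Real.cos_le_cos_of_nonneg_of_le_pi (x := 2 * Real.pi * a) (y := 2 * Real.pi * b)
    (by have := ha.1; positivity) (by have := hb.2; nlinarith) (by nlinarith)
  linarith

theorem hka_F_pos (s θ : ℝ) : 0 < hka_F s θ := Real.exp_pos _

theorem hka_F_le {s : ℝ} (hs : 0 ≤ s) (θ : ℝ) : hka_F s θ ≤ 1 := by
  unfold hka_F
  rw [Real.exp_le_one_iff]
  have := Real.cos_le_one (2 * Real.pi * θ)
  nlinarith [mul_nonneg hs (by linarith : (0 : ℝ) ≤ 2 - 2 * Real.cos (2 * Real.pi * θ))]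

theorem hka_F_symm (s θ : ℝ) : hka_F s (1 - θ) = hka_F s θ := by
  unfold hka_F
  have e : 2 * Real.pi * (1 - θ) = 2 * Real.pi - 2 * Real.pi * θ := by ring
  rw [e, Real.cos_two_pi_sub]

theorem hka_F_cont (s : ℝ) : Continuous (hka_F s) := by
  unfold hka_F
  fun_prop

variable {L : ℕ} [NeZero L]

theorem hka_rc (k : ZMod L) : rc k = Real.cos (2 * Real.pi * ((k.val : ℝ) / L)) := by
  unfold rc
  have h2 : (ZMod.stdAddChar k : ℂ) = Complex.exp (2 * Real.pi * Complex.I * k.val / L) := by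
    have h := ZMod.stdAddChar_coe (N := L) (k.val : ℤ)
    rw [Int.cast_natCast, ZMod.natCast_zmod_val, Int.cast_natCast] at h
    exact h
  have h3 : (2 * Real.pi * Complex.I * k.val / L : ℂ) =
      ((2 * Real.pi * ((k.val : ℝ) / L) : ℝ) : ℂ) * Complex.I := by
    push_cast
    ring
  rw [h2, h3, Complex.exp_ofReal_mul_I_re]

/-- the kernel as a Riemann sum -/
theorem hka_gk (s : ℝ) : gk L s 0 = (1 / L : ℝ) * ∑ j ∈ range L, hka_F s ((j : ℝ) / L) := by
  unfold gk
  congr 1
  have h1 : ∀ k : ZMod L, Real.exp (-(s * lam k)) * rc (k * 0) = hka_F s ((k.val : ℝ) / L) := by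
    intro k
    rw [mul_zero, Pool.Agent.Y998.ST.rc_zero, mul_one]
    unfold lam hka_F
    rw [hka_rc]
  rw [Finset.sum_congr rfl fun k _ => h1 k]
  refine Finset.sum_bij (fun (k : ZMod L) _ => k.val) ?_ ?_ ?_ ?_
  · intro k _
    exact Finset.mem_range.2 (ZMod.val_lt k)
  · intro a _ b _ h
    exact ZMod.val_injective L h
  · intro j hj
    refine ⟨(j : ZMod L), Finset.mem_univ _, ?_⟩
    exact ZMod.val_cast_of_lt (Finset.mem_range.1 hj)
  · intro k _
    rfl

/-- Riemann sums -/
theorem hka_sum {s : ℝ} (hs : 0 ≤ s) :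
    |gk L s 0 - 2 * ∫ θ in (0 : ℝ)..(1 / 2), hka_F s θ| ≤ 3 / L := by
  have hL : 0 < L := Nat.pos_of_ne_zero (NeZero.ne L)
  have hL' : (0 : ℝ) < L := by exact_mod_cast hL
  rw [hka_gk]
  set G : ℝ → ℝ := fun x => hka_F s (x / L) with hG
  set M : ℕ := L / 2 with hM
  have hML : (M : ℝ) ≤ L / 2 := by
    rw [hM]
    exact Nat.cast_div_le
  have hML2 : (L : ℝ) / 2 ≤ M + 1 / 2 := by
    have : L ≤ 2 * M + 1 := by omega
    have h : (L : ℝ) ≤ 2 * M + 1 := by exact_mod_cast this
    linarith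
  have hGanti : AntitoneOn G (Set.Icc (0 : ℝ) (0 + M)) := by
    intro a ha b hb hab
    rw [zero_add] at hb ha
    refine hka_F_anti hs ?_ ?_ (div_le_div_of_nonneg_right hab hL'.le)
    · exact ⟨div_nonneg ha.1 hL'.le, by rw [div_le_iff₀ hL']; linarith [ha.2]⟩
    · exact ⟨div_nonneg hb.1 hL'.le, by rw [div_le_iff₀ hL']; linarith [hb.2]⟩
  have h1 := AntitoneOn.integral_le_sum hGanti
  have h2 := AntitoneOn.sum_le_integral hGanti
  rw [zero_add] at h1 h2
  simp only [zero_add] at h1 h2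
  have hGc : Continuous G := (hka_F_cont s).comp (continuous_id.div_const _)
  have hGpos : ∀ x, 0 ≤ G x := fun x => (hka_F_pos s _).le
  have hGle : ∀ x, G x ≤ 1 := fun x => hka_F_le hs _
  -- the integral
  have hI : ∫ x in (0 : ℝ)..(L / 2), G x = L * ∫ θ in (0 : ℝ)..(1 / 2), hka_F s θ := by
    rw [hG]
    rw [intervalIntegral.integral_comp_div (fun θ => hka_F s θ) hL'.ne', smul_eq_mul]
    congr 2
    · simp
    · field_simp
  have hsplit : ∫ x in (0 : ℝ)..(L / 2), G x = (∫ x in (0 : ℝ)..M, G x) +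
      ∫ x in (M : ℝ)..(L / 2), G x :=
    (intervalIntegral.integral_add_adjacent_intervals (hGc.intervalIntegrable _ _)
      (hGc.intervalIntegrable _ _)).symm
  have hrest : 0 ≤ ∫ x in (M : ℝ)..(L / 2), G x :=
    intervalIntegral.integral_nonneg hML fun x _ => hGpos x
  have hrest2 : ∫ x in (M : ℝ)..(L / 2), G x ≤ 1 / 2 := by
    have h := intervalIntegral.integral_mono_on hML (hGc.intervalIntegrable _ _)
      (continuous_const.intervalIntegrable (μ := MeasureTheory.volume) _ _)
      (fun x _ => hGle x)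
    rw [intervalIntegral.integral_const, smul_eq_mul, mul_one] at h
    linarith
  -- the sum
  have hS : ∑ j ∈ range L, hka_F s ((j : ℝ) / L) =
      ∑ j ∈ range (M + 1), G j + ∑ j ∈ range (L - (M + 1)), G ((j + 1 : ℕ) : ℝ) := by
    have e : L = (M + 1) + (L - (M + 1)) := by omega
    conv_lhs => rw [e]
    rw [Finset.sum_range_add]
    have e' : ((M + 1 + (L - (M + 1)) : ℕ) : ℝ) = L := by rw [← e]
    rw [← e]
    congr 1
    rw [← Finset.sum_range_reflect]
    refine Finset.sum_congr rfl fun j hj => ?_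
    have hj' := Finset.mem_range.1 hj
    rw [hG]
    dsimp only
    rw [← hka_F_symm]
    congr 1
    have e3 : ((M + 1 + (L - (M + 1) - 1 - j) : ℕ) : ℝ) = L - (j + 1 : ℕ) := by
      rw [← Nat.cast_sub (by omega)]
      congr 1
      omega
    rw [e3]
    field_simp
    ring
  have hS1 : ∑ j ∈ range (M + 1), G j = G 0 + ∑ j ∈ range M, G ((j + 1 : ℕ) : ℝ) := by
    rw [Finset.sum_range_succ', add_comm]
    simp
  have hS2 : ∑ j ∈ range (M + 1), G j = ∑ j ∈ range M, G j + G M := by
    rw [Finset.sum_range_succ]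
  have hS3 : ∑ j ∈ range (L - (M + 1)), G ((j + 1 : ℕ) : ℝ) ≤
      ∑ j ∈ range M, G ((j + 1 : ℕ) : ℝ) := by
    refine Finset.sum_le_sum_of_subset_of_nonneg ?_ fun j _ _ => hGpos _
    intro j hj
    rw [Finset.mem_range] at hj ⊢
    omega
  have hS4 : ∑ j ∈ range M, G ((j + 1 : ℕ) : ℝ) ≤
      ∑ j ∈ range (L - (M + 1)), G ((j + 1 : ℕ) : ℝ) + 1 := by
    have h : M ≤ (L - (M + 1)) + 1 := by omega
    calc ∑ j ∈ range M, G ((j + 1 : ℕ) : ℝ) ≤
        ∑ j ∈ range ((L - (M + 1)) + 1), G ((j + 1 : ℕ) : ℝ) := by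
          refine Finset.sum_le_sum_of_subset_of_nonneg ?_ fun j _ _ => hGpos _
          intro j hj
          rw [Finset.mem_range] at hj ⊢
          omega
      _ ≤ _ := by
          rw [Finset.sum_range_succ]
          linarith [hGle (((L - (M + 1)) + 1 : ℕ) : ℝ)]
  have hG0 := hGle 0
  have hG0' := hGpos 0
  have hGM := hGle M
  have hGM' := hGpos M
  rw [hS]
  have hfin : |∑ j ∈ range (M + 1), G j + ∑ j ∈ range (L - (M + 1)), G ((j + 1 : ℕ) : ℝ) -
      2 * (L * ∫ θ in (0 : ℝ)..(1 / 2), hka_F s θ)| ≤ 3 := by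
    rw [← hI, hsplit, abs_le]
    constructor <;> linarith
  have e : (1 / (L : ℝ)) * (∑ j ∈ range (M + 1), G j + ∑ j ∈ range (L - (M + 1)),
      G ((j + 1 : ℕ) : ℝ)) - 2 * ∫ θ in (0 : ℝ)..(1 / 2), hka_F s θ =
      (1 / (L : ℝ)) * (∑ j ∈ range (M + 1), G j + ∑ j ∈ range (L - (M + 1)),
      G ((j + 1 : ℕ) : ℝ) - 2 * (L * ∫ θ in (0 : ℝ)..(1 / 2), hka_F s θ)) := by
    field_simp
  rw [e, abs_mul, abs_of_pos (by positivity : (0 : ℝ) < 1 / L), div_mul_eq_mul_div, one_mul]
  exact div_le_div_of_nonneg_right hfin hL'.le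

/-- the Laplace integral -/
theorem hka_lim : Tendsto (fun s : ℝ => Real.sqrt s * (2 * ∫ θ in (0 : ℝ)..(1 / 2), hka_F s θ)) atTop
    (𝓝 (1 / Real.sqrt (4 * Real.pi))) := by
  have hpi := Real.pi_pos
  -- substitution
  have h1 : ∀ s : ℝ, 0 < s → Real.sqrt s * (2 * ∫ θ in (0 : ℝ)..(1 / 2), hka_F s θ) =
      2 * ∫ u in Set.Ioi (0 : ℝ), (Set.Ioc (0 : ℝ) (Real.sqrt s / 2)).indicator
        (fun u => hka_F s (u / Real.sqrt s)) u := by
    intro s hs
    have hr : 0 < Real.sqrt s := Real.sqrt_pos.2 hs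
    have h2 : ∫ u in (0 : ℝ)..(Real.sqrt s / 2), hka_F s (u / Real.sqrt s) =
        Real.sqrt s * ∫ θ in (0 : ℝ)..(1 / 2), hka_F s θ := by
      rw [intervalIntegral.integral_comp_div (fun θ => hka_F s θ) hr.ne', smul_eq_mul]
      congr 2
      · simp
      · field_simp
    rw [MeasureTheory.setIntegral_indicator measurableSet_Ioc,
      Set.inter_eq_self_of_subset_right Set.Ioc_subset_Ioi_self,
      ← intervalIntegral.integral_of_le (by positivity), h2]
    ring
  have hgauss : ∫ u in Set.Ioi (0 : ℝ), Real.exp (-(4 * Real.pi ^ 2) * u ^ 2) =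
      1 / (2 * Real.sqrt (4 * Real.pi)) := by
    rw [integral_gaussian_Ioi]
    have e : Real.pi / (4 * Real.pi ^ 2) = 1 / (4 * Real.pi) := by
      field_simp
    rw [e, Real.sqrt_div (by norm_num), Real.sqrt_one]
    field_simp
  have hint : Tendsto (fun s : ℝ => ∫ u in Set.Ioi (0 : ℝ),
      (Set.Ioc (0 : ℝ) (Real.sqrt s / 2)).indicator (fun u => hka_F s (u / Real.sqrt s)) u) atTop
      (𝓝 (∫ u in Set.Ioi (0 : ℝ), Real.exp (-(4 * Real.pi ^ 2) * u ^ 2))) := by
    refine MeasureTheory.tendsto_integral_filter_of_dominated_convergence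
      (fun u => Real.exp (-16 * u ^ 2)) ?_ ?_ ?_ ?_
    · refine Eventually.of_forall fun s => ?_
      refine Measurable.aestronglyMeasurable ?_
      refine Measurable.indicator ?_ measurableSet_Ioc
      unfold hka_F
      fun_prop
    · filter_upwards [eventually_gt_atTop (0 : ℝ)] with s hs
      refine Eventually.of_forall fun u => ?_
      by_cases hu : u ∈ Set.Ioc (0 : ℝ) (Real.sqrt s / 2)
      · rw [Set.indicator_of_mem hu]
        unfold hka_F
        rw [Real.norm_eq_abs, abs_of_pos (Real.exp_pos _)]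
        refine Real.exp_le_exp.2 ?_
        have hr : 0 < Real.sqrt s := Real.sqrt_pos.2 hs
        have hx : |2 * Real.pi * (u / Real.sqrt s)| ≤ Real.pi := by
          rw [abs_of_nonneg (by have := hu.1.le; positivity)]
          have h3 : u / Real.sqrt s ≤ 1 / 2 := by
            rw [div_le_iff₀ hr]
            linarith [hu.2]
          nlinarith
        have h4 := Real.cos_le_one_sub_mul_cos_sq hx
        have h5 : s * (2 / Real.pi ^ 2 * (2 * Real.pi * (u / Real.sqrt s)) ^ 2) = 8 * u ^ 2 := by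
          have h6 : (Real.sqrt s) ^ 2 = s := Real.sq_sqrt hs.le
          rw [mul_pow, div_pow, h6]
          field_simp
          ring
        have h6 := mul_le_mul_of_nonneg_left h4 hs.le
        nlinarith
      · rw [Set.indicator_of_notMem hu, norm_zero]
        exact (Real.exp_pos _).le
    · exact (integrable_exp_neg_mul_sq (by norm_num : (0 : ℝ) < 16)).integrableOn
    · refine (MeasureTheory.ae_restrict_iff' measurableSet_Ioi).2 (Eventually.of_forall fun u hu => ?_)
      have hu0 : 0 < u := hu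
      -- pointwise limit
      have hsq : Tendsto (fun s : ℝ => Real.sqrt s) atTop atTop := Real.tendsto_sqrt_atTop
      have hev : ∀ᶠ s : ℝ in atTop, (Set.Ioc (0 : ℝ) (Real.sqrt s / 2)).indicator
          (fun u => hka_F s (u / Real.sqrt s)) u = hka_F s (u / Real.sqrt s) := by
        filter_upwards [hsq.eventually_ge_atTop (2 * u)] with s hs
        rw [Set.indicator_of_mem]
        exact ⟨hu0, by linarith⟩
      refine Tendsto.congr' (EventuallyEq.symm hev) ?_
      unfold hka_F
      refine (Real.continuous_exp.tendsto _).comp ?_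
      have hexp : Tendsto (fun s : ℝ => s * (2 - 2 * Real.cos (2 * Real.pi * (u / Real.sqrt s)))) atTop
          (𝓝 (4 * Real.pi ^ 2 * u ^ 2)) := by
        have hb : ∀ᶠ s : ℝ in atTop, |s * (2 - 2 * Real.cos (2 * Real.pi * (u / Real.sqrt s))) -
            4 * Real.pi ^ 2 * u ^ 2| ≤ ((2 * Real.pi * u) ^ 4) * s⁻¹ := by
          filter_upwards [eventually_gt_atTop (0 : ℝ), hsq.eventually_ge_atTop (2 * Real.pi * u)]
            with s hs hs2
          have hr : 0 < Real.sqrt s := Real.sqrt_pos.2 hs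
          have h6 : (Real.sqrt s) ^ 2 = s := Real.sq_sqrt hs.le
          set x : ℝ := 2 * Real.pi * (u / Real.sqrt s) with hx
          have hx1 : |x| ≤ 1 := by
            rw [abs_of_nonneg (by positivity), hx, ← mul_div_assoc, div_le_one hr]
            exact hs2
          have h7 := Real.cos_bound hx1
          have h8 : s * x ^ 2 = 4 * Real.pi ^ 2 * u ^ 2 := by
            rw [hx, mul_pow, div_pow, h6]
            field_simp
            ring
          have h9 : s * |x| ^ 4 = (2 * Real.pi * u) ^ 4 * s⁻¹ := by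
            have h10 : |x| ^ 4 = (x ^ 2) ^ 2 := by
              rw [← sq_abs x]
              ring
            have h11 : x ^ 2 = 4 * Real.pi ^ 2 * u ^ 2 / s := by
              rw [← h8]
              field_simp
            rw [h10, h11]
            field_simp
            ring
          have h12 : s * (2 - 2 * Real.cos x) - 4 * Real.pi ^ 2 * u ^ 2 =
              -(2 * s) * (Real.cos x - (1 - x ^ 2 / 2)) := by
            rw [← h8]
            ring
          rw [h12, abs_mul, abs_neg, abs_of_pos (by positivity : (0 : ℝ) < 2 * s), ← h9]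
          have h13 : (0 : ℝ) ≤ |x| ^ 4 := by positivity
          calc 2 * s * |Real.cos x - (1 - x ^ 2 / 2)| ≤ 2 * s * (|x| ^ 4 * (5 / 96)) :=
                mul_le_mul_of_nonneg_left h7 (by positivity)
            _ ≤ s * |x| ^ 4 := by nlinarith [mul_nonneg hs.le h13]
        have hz : Tendsto (fun s : ℝ => ((2 * Real.pi * u) ^ 4) * s⁻¹) atTop (𝓝 0) := by
          have h14 := (tendsto_inv_atTop_zero (𝕜 := ℝ)).const_mul ((2 * Real.pi * u) ^ 4)
          rw [mul_zero] at h14
          exact h14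
        rw [tendsto_iff_norm_sub_tendsto_zero]
        refine squeeze_zero' (Eventually.of_forall fun s => norm_nonneg _) ?_ hz
        filter_upwards [hb] with s hs
        rw [Real.norm_eq_abs]
        exact hs
      have := hexp.neg
      simpa [neg_mul] using this
  have h3 := hint.const_mul 2
  rw [hgauss] at h3
  have e : (2 : ℝ) * (1 / (2 * Real.sqrt (4 * Real.pi))) = 1 / Real.sqrt (4 * Real.pi) := by
    field_simp
  rw [e] at h3
  refine h3.congr' ?_
  filter_upwards [eventually_gt_atTop (0 : ℝ)] with s hs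
  exact (h1 s hs).symm

/-- leaf HKA -/
theorem hka : S_HKA := by
  intro d hd ε hε
  have hpi := Real.pi_pos
  set b : ℝ := 1 / Real.sqrt (4 * Real.pi) with hb
  have hb0 : 0 < b := by positivity
  have hb1 : b ≤ 1 := by
    rw [hb, div_le_one (by positivity), Real.one_le_sqrt]
    linarith [Real.pi_gt_three]
  have hcont : ContinuousAt (fun x : ℝ => x ^ d) b := by fun_prop
  obtain ⟨δ, hδ, hδ2⟩ := Metric.continuousAt_iff.1 hcont ε hε
  have hlim := Metric.tendsto_atTop.1 hka_lim (δ / 2) (by linarith)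
  obtain ⟨s₁, hs₁⟩ := hlim
  refine ⟨(1 + 6 / δ) ^ d, max 1 s₁, by positivity, le_max_left _ _, ?_⟩
  intro L _ hL s hs x
  have hs1 : 1 ≤ s := (le_max_left _ _).trans hs
  have hs2 : s₁ ≤ s := (le_max_right _ _).trans hs
  have hs0 : 0 < s := by linarith
  have hL0 : (0 : ℝ) < L := by exact_mod_cast Nat.pos_of_ne_zero (NeZero.ne L)
  have hr : 0 < Real.sqrt s := Real.sqrt_pos.2 hs0
  have hq : qq (nnRate d L) s x x = gk L s 0 ^ d := by
    rw [Pool.Agent.Y998.ST.qq_eq_hk hL]
    unfold hk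
    simp only [sub_self]
    rw [Finset.prod_const, Finset.card_univ, Fintype.card_fin]
  have hh : (4 * Real.pi * s) ^ (-(d / 2 : ℝ)) = (b / Real.sqrt s) ^ d := by
    have e1 : b / Real.sqrt s = (Real.sqrt (4 * Real.pi * s))⁻¹ := by
      rw [hb, div_div, one_div, ← Real.sqrt_mul (by positivity)]
    rw [e1, inv_pow, Real.sqrt_eq_rpow, ← Real.rpow_natCast, ← Real.rpow_mul (by positivity),
      Real.rpow_neg (by positivity)]
    congr 2
    ring
  have hss : s ^ (-(d / 2 : ℝ)) = (1 / Real.sqrt s) ^ d := by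
    rw [one_div, inv_pow, Real.sqrt_eq_rpow, ← Real.rpow_natCast, ← Real.rpow_mul (by positivity),
      Real.rpow_neg (by positivity)]
    congr 2
    ring
  rw [hq, hh, hss]
  have hg0 : 0 ≤ gk L s 0 := (abs_nonneg _).trans (Pool.Agent.Y998.ST.gk_abs (L := L) s 0)
  have hgle := Pool.Agent.Y998.ST.gk_le (L := L) hs0
  have hsum := hka_sum (L := L) hs0.le
  have hl := hs₁ s hs2
  rw [Real.dist_eq] at hl
  by_cases hcase : |Real.sqrt s * gk L s 0 - b| < δ
  · have h1 := hδ2 (x := Real.sqrt s * gk L s 0) (by rw [Real.dist_eq]; exact hcase)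
    rw [Real.dist_eq] at h1
    have h2 : gk L s 0 ^ d - (b / Real.sqrt s) ^ d =
        ((Real.sqrt s * gk L s 0) ^ d - b ^ d) * (1 / Real.sqrt s) ^ d := by
      rw [sub_mul, ← mul_pow, ← mul_pow]
      congr 2
      · field_simp
      · field_simp
    rw [h2, abs_mul, abs_of_pos (by positivity : (0 : ℝ) < (1 / Real.sqrt s) ^ d)]
    have h3 : |(Real.sqrt s * gk L s 0) ^ d - b ^ d| * (1 / Real.sqrt s) ^ d ≤
        ε * (1 / Real.sqrt s) ^ d := mul_le_mul_of_nonneg_right h1.le (by positivity)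
    have h4 : 0 ≤ (1 + 6 / δ) ^ d / (L : ℝ) ^ d := by positivity
    linarith
  · push Not at hcase
    have h1 : |Real.sqrt s * gk L s 0 - b| ≤ Real.sqrt s * (3 / L) + δ / 2 := by
      have e : Real.sqrt s * gk L s 0 - b =
          Real.sqrt s * (gk L s 0 - 2 * ∫ θ in (0 : ℝ)..(1 / 2), hka_F s θ) +
          (Real.sqrt s * (2 * ∫ θ in (0 : ℝ)..(1 / 2), hka_F s θ) - b) := by ring
      rw [e]
      refine (abs_add_le _ _).trans (add_le_add ?_ hl.le)
      rw [abs_mul, abs_of_pos hr]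
      exact mul_le_mul_of_nonneg_left hsum hr.le
    have h2 : δ / 2 ≤ Real.sqrt s * (3 / L) := by linarith
    have h3 : 1 / Real.sqrt s ≤ 6 / δ / L := by
      rw [div_div, div_le_div_iff₀ hr (by positivity)]
      have h4 : Real.sqrt s * (3 / L) * (2 * L) = 6 * Real.sqrt s := by
        field_simp
        ring
      have h5 := mul_le_mul_of_nonneg_right h2 (by positivity : (0 : ℝ) ≤ 2 * L)
      rw [h4] at h5
      linarith
    have h4 : gk L s 0 ≤ (1 + 6 / δ) / L := by
      rw [add_div]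
      exact hgle.trans (add_le_add le_rfl h3)
    have h5 : b / Real.sqrt s ≤ (1 + 6 / δ) / L := by
      have h6 : b / Real.sqrt s ≤ 1 / Real.sqrt s := div_le_div_of_nonneg_right hb1 hr.le
      rw [add_div]
      have h7 : 0 ≤ 1 / (L : ℝ) := by positivity
      linarith
    have h6 : gk L s 0 ^ d ≤ (1 + 6 / δ) ^ d / (L : ℝ) ^ d := by
      rw [← div_pow]
      exact pow_le_pow_left₀ hg0 h4 d
    have h7 : (b / Real.sqrt s) ^ d ≤ (1 + 6 / δ) ^ d / (L : ℝ) ^ d := by
      rw [← div_pow]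
      exact pow_le_pow_left₀ (by positivity) h5 d
    have h8 : 0 ≤ gk L s 0 ^ d := by positivity
    have h9 : 0 ≤ (b / Real.sqrt s) ^ d := by positivity
    have h10 : 0 ≤ ε * (1 / Real.sqrt s) ^ d := by positivity
    rw [abs_le]
    constructor <;> linarith

end Pool.Agent.K9h51.SH
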