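import Mathlib

/-!
# Leaf TAU of project SH: from generating functions to distribution functions (Mathlib only)
-/

set_option autoImplicit false

namespace Pool.Agent.K9h51.SH.TAU_

open Finset

theorem summ {a : ℕ → ℝ} (ha : ∀ j, 0 ≤ a j) (hs : Summable a) {w : ℝ} (hw : 0 ≤ w) (hw1 : w ≤ 1) :
    Summable fun j => w ^ j * a j :=
  Summable.of_nonneg_of_le (fun j => mul_nonneg (pow_nonneg hw j) (ha j))
    (fun j => mul_le_of_le_one_left (ha j) (pow_le_one₀ hw hw1)) hs

theorem gen_le {a : ℕ → ℝ} (ha : ∀ j, 0 ≤ a j) (hs : Summable a) {w : ℝ} (hw : 0 ≤ w) (hw1 : w ≤ 1) :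
    ∑' j, w ^ j * a j ≤ ∑' j, a j :=
  (summ ha hs hw hw1).tsum_le_tsum (fun j => mul_le_of_le_one_left (ha j) (pow_le_one₀ hw hw1)) hs

theorem coeffs (b : ℕ → ℝ) (hb : ∀ j, 0 ≤ b j) (hbs : Summable b) (J : ℕ) :
    ∀ ε : ℝ, 0 < ε → ∃ η : ℝ, 0 < η ∧ ∀ a : ℕ → ℝ, (∀ j, 0 ≤ a j) → Summable a →
      (∀ w : ℝ, 0 ≤ w → w ≤ 1 / 2 → |(∑' j, w ^ j * a j) - ∑' j, w ^ j * b j| ≤ η) →
      ∀ j < J, |a j - b j| ≤ ε := by
  induction J with
  | zero => exact fun ε _ => ⟨1, one_pos, fun a _ _ _ j hj => absurd hj (Nat.not_lt_zero j)⟩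
  | succ J ih =>
    intro ε hε
    set B : ℝ := ∑' j, b j with hB
    have hB0 : 0 ≤ B := tsum_nonneg hb
    -- the value of `w`
    set w : ℝ := min (1 / 2) (ε / 2 / (2 ^ (J + 1) * (2 * B + 1))) with hw
    have hden : 0 < (2 : ℝ) ^ (J + 1) * (2 * B + 1) := by positivity
    have hw0 : 0 < w := lt_min (by norm_num) (by positivity)
    have hw1 : w ≤ 1 / 2 := min_le_left _ _
    have hw2 : w * (2 ^ (J + 1) * (2 * B + 1)) ≤ ε / 2 := by
      rw [← le_div_iff₀ hden]
      exact min_le_right _ _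
    have hwJ : 0 < w ^ J := pow_pos hw0 J
    have hwJ1 : w ^ J ≤ 1 := pow_le_one₀ hw0.le (by linarith)
    set ε2 : ℝ := w ^ J * ε / (4 * (J + 1)) with hε2
    have hJ0 : (0 : ℝ) < J + 1 := by positivity
    have hε20 : 0 < ε2 := by positivity
    have hε21 : ε2 ≤ ε := by
      rw [hε2, div_le_iff₀ (by positivity)]
      have h1 : w ^ J * ε ≤ 1 * ε := mul_le_mul_of_nonneg_right hwJ1 hε.le
      have h2 : (0 : ℝ) ≤ J := Nat.cast_nonneg J
      nlinarith
    have hε22 : J * ε2 ≤ w ^ J * ε / 4 := by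
      have h1 : (J : ℝ) ≤ J + 1 := by linarith
      calc (J : ℝ) * ε2 ≤ (J + 1) * ε2 := mul_le_mul_of_nonneg_right h1 hε20.le
        _ = w ^ J * ε / 4 := by
          rw [hε2]
          field_simp
    obtain ⟨η1, hη1, h1⟩ := ih ε2 hε20
    refine ⟨min 1 (min η1 (w ^ J * ε / 4)), lt_min one_pos (lt_min hη1 (by positivity)), ?_⟩
    intro a ha has hcl j hj
    set η : ℝ := min 1 (min η1 (w ^ J * ε / 4)) with hη
    have hη1' : η ≤ 1 := min_le_left _ _
    have hη2 : η ≤ η1 := (min_le_right _ _).trans (min_le_left _ _)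
    have hη3 : η ≤ w ^ J * ε / 4 := (min_le_right _ _).trans (min_le_right _ _)
    have hsmall : ∀ j < J, |a j - b j| ≤ ε2 :=
      h1 a ha has fun w hw hw' => (hcl w hw hw').trans hη2
    rcases Nat.lt_succ_iff_lt_or_eq.1 hj with hj | hj
    · exact (hsmall j hj).trans hε21
    · subst hj
      -- the sum of the values at 1/2
      have hw1' : w ≤ 1 := by linarith
      have hh := hcl (1 / 2) (by norm_num) le_rfl
      have hFb : ∑' i, (1 / 2 : ℝ) ^ i * b i ≤ B := gen_le hb hbs (by norm_num) (by norm_num)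
      have hFa : ∑' i, (1 / 2 : ℝ) ^ i * a i ≤ B + 1 := by
        have := (abs_le.1 hh).2
        linarith
      -- decomposition at `w`
      have hA := summ ha has hw0.le hw1'
      have hBb := summ hb hbs hw0.le hw1'
      have hA2 := summ ha has (w := 1 / 2) (by norm_num) (by norm_num)
      have hB2 := summ hb hbs (w := 1 / 2) (by norm_num) (by norm_num)
      have hsplit : (∑' i, w ^ i * a i) - ∑' i, w ^ i * b i =
          (∑ i ∈ range j, w ^ i * (a i - b i)) + w ^ j * (a j - b j) +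
          ((∑' i, w ^ (i + (j + 1)) * a (i + (j + 1))) - ∑' i, w ^ (i + (j + 1)) * b (i + (j + 1))) := by
        rw [← hA.sum_add_tsum_nat_add (j + 1), ← hBb.sum_add_tsum_nat_add (j + 1), sum_range_succ,
          sum_range_succ]
        simp only [mul_sub, sum_sub_distrib]
        ring
      have htail : ∀ c : ℕ → ℝ, (∀ i, 0 ≤ c i) → Summable (fun i => w ^ i * c i) →
          Summable (fun i => (1 / 2 : ℝ) ^ i * c i) →
          0 ≤ ∑' i, w ^ (i + (j + 1)) * c (i + (j + 1)) ∧
          ∑' i, w ^ (i + (j + 1)) * c (i + (j + 1)) ≤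
            w ^ (j + 1) * 2 ^ (j + 1) * ∑' i, (1 / 2 : ℝ) ^ i * c i := by
        intro c hc h3 h4
        constructor
        · exact tsum_nonneg fun i => mul_nonneg (pow_nonneg hw0.le _) (hc _)
        · have h5 : Summable fun i => w ^ (i + (j + 1)) * c (i + (j + 1)) :=
            (summable_nat_add_iff (j + 1)).2 h3
          have h6 : Summable fun i => (1 / 2 : ℝ) ^ (i + (j + 1)) * c (i + (j + 1)) :=
            (summable_nat_add_iff (j + 1)).2 h4
          calc ∑' i, w ^ (i + (j + 1)) * c (i + (j + 1))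
              ≤ ∑' i, w ^ (j + 1) * 2 ^ (j + 1) * ((1 / 2 : ℝ) ^ (i + (j + 1)) * c (i + (j + 1))) := by
                apply h5.tsum_le_tsum _ (h6.mul_left _)
                intro i
                have h7 : w ^ i ≤ (1 / 2 : ℝ) ^ i := pow_le_pow_left₀ hw0.le hw1 i
                have h8 : w ^ (j + 1) * 2 ^ (j + 1) * ((1 / 2 : ℝ) ^ (i + (j + 1)) * c (i + (j + 1))) =
                    w ^ (j + 1) * (1 / 2 : ℝ) ^ i * c (i + (j + 1)) := by
                  rw [pow_add (1 / 2 : ℝ) i (j + 1)]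
                  have h9 : (2 : ℝ) ^ (j + 1) * (1 / 2) ^ (j + 1) = 1 := by
                    rw [← mul_pow]; norm_num
                  calc w ^ (j + 1) * 2 ^ (j + 1) * ((1 / 2 : ℝ) ^ i * (1 / 2) ^ (j + 1) *
                        c (i + (j + 1)))
                      = w ^ (j + 1) * (1 / 2 : ℝ) ^ i * c (i + (j + 1)) *
                        ((2 : ℝ) ^ (j + 1) * (1 / 2) ^ (j + 1)) := by ring
                    _ = _ := by rw [h9, mul_one]
                rw [h8, pow_add, mul_comm (w ^ i)]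
                apply mul_le_mul_of_nonneg_right _ (hc _)
                exact mul_le_mul_of_nonneg_left h7 (by positivity)
            _ = w ^ (j + 1) * 2 ^ (j + 1) * ∑' i, (1 / 2 : ℝ) ^ (i + (j + 1)) * c (i + (j + 1)) :=
                tsum_mul_left
            _ ≤ w ^ (j + 1) * 2 ^ (j + 1) * ∑' i, (1 / 2 : ℝ) ^ i * c i := by
                apply mul_le_mul_of_nonneg_left _ (by positivity)
                rw [← h4.sum_add_tsum_nat_add (j + 1)]
                have : 0 ≤ ∑ i ∈ range (j + 1), (1 / 2 : ℝ) ^ i * c i :=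
                  sum_nonneg fun i _ => mul_nonneg (by positivity) (hc i)
                linarith
      have hta := htail a ha hA hA2
      have htb := htail b hb hBb hB2
      have hcw := hcl w hw0.le hw1
      rw [hsplit] at hcw
      have hsum : |∑ i ∈ range j, w ^ i * (a i - b i)| ≤ j * ε2 := by
        calc |∑ i ∈ range j, w ^ i * (a i - b i)| ≤ ∑ i ∈ range j, |w ^ i * (a i - b i)| :=
              abs_sum_le_sum_abs _ _
          _ ≤ ∑ _i ∈ range j, ε2 := by
              apply sum_le_sum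
              intro i hi
              rw [abs_mul, abs_of_nonneg (pow_nonneg hw0.le i)]
              calc w ^ i * |a i - b i| ≤ 1 * |a i - b i| :=
                    mul_le_mul_of_nonneg_right (pow_le_one₀ hw0.le hw1') (abs_nonneg _)
                _ ≤ ε2 := by rw [one_mul]; exact hsmall i (mem_range.1 hi)
          _ = j * ε2 := by rw [sum_const, card_range, nsmul_eq_mul]
      set Ta := ∑' i, w ^ (i + (j + 1)) * a (i + (j + 1)) with hTa
      set Tb := ∑' i, w ^ (i + (j + 1)) * b (i + (j + 1)) with hTb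
      have hK : 0 ≤ w ^ (j + 1) * 2 ^ (j + 1) := by positivity
      have hTdiff : |Ta - Tb| ≤ w ^ (j + 1) * 2 ^ (j + 1) * (B + 1) := by
        rw [abs_le]
        constructor
        · have : Tb ≤ w ^ (j + 1) * 2 ^ (j + 1) * (B + 1) :=
            htb.2.trans (mul_le_mul_of_nonneg_left (by linarith) hK)
          linarith [hta.1]
        · have : Ta ≤ w ^ (j + 1) * 2 ^ (j + 1) * (B + 1) :=
            hta.2.trans (mul_le_mul_of_nonneg_left hFa hK)
          linarith [htb.1]
      have hfin : w ^ j * |a j - b j| ≤ η + j * ε2 + w ^ (j + 1) * 2 ^ (j + 1) * (B + 1) := by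
        have h3 : w ^ j * (a j - b j) = ((∑ i ∈ range j, w ^ i * (a i - b i)) + w ^ j * (a j - b j) +
            (Ta - Tb)) - (∑ i ∈ range j, w ^ i * (a i - b i)) - (Ta - Tb) := by ring
        have h4 : |w ^ j * (a j - b j)| ≤ |(∑ i ∈ range j, w ^ i * (a i - b i)) + w ^ j * (a j - b j) +
            (Ta - Tb)| + |∑ i ∈ range j, w ^ i * (a i - b i)| + |Ta - Tb| := by
          conv_lhs => rw [h3]
          refine (abs_sub _ _).trans ?_
          have := abs_sub ((∑ i ∈ range j, w ^ i * (a i - b i)) + w ^ j * (a j - b j) +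
            (Ta - Tb)) (∑ i ∈ range j, w ^ i * (a i - b i))
          linarith
        rw [abs_mul, abs_of_nonneg hwJ.le] at h4
        linarith
      have h5 : w ^ (j + 1) * 2 ^ (j + 1) * (B + 1) ≤ w ^ j * (ε / 2) := by
        calc w ^ (j + 1) * 2 ^ (j + 1) * (B + 1) = w ^ j * (w * (2 ^ (j + 1) * (B + 1))) := by
              rw [pow_succ w j]; ring
          _ ≤ w ^ j * (w * (2 ^ (j + 1) * (2 * B + 1))) := by
              apply mul_le_mul_of_nonneg_left _ hwJ.le
              apply mul_le_mul_of_nonneg_left _ hw0.le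
              apply mul_le_mul_of_nonneg_left _ (by positivity)
              linarith
          _ ≤ w ^ j * (ε / 2) := mul_le_mul_of_nonneg_left hw2 hwJ.le
      have h6 : w ^ j * |a j - b j| ≤ w ^ j * ε := by
        calc w ^ j * |a j - b j| ≤ η + j * ε2 + w ^ (j + 1) * 2 ^ (j + 1) * (B + 1) := hfin
          _ ≤ w ^ j * ε / 4 + w ^ j * ε / 4 + w ^ j * (ε / 2) := by linarith
          _ = w ^ j * ε := by ring
      exact le_of_mul_le_mul_left h6 hwJ

theorem tau0 : ∀ b : ℕ → ℝ, (∀ j, 0 ≤ b j) → Summable b → ∀ ε : ℝ, 0 < ε →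
  ∃ (η : ℝ) (M : ℕ), 0 < η ∧ 2 ≤ M ∧ ∀ a : ℕ → ℝ, (∀ j, 0 ≤ a j) → Summable a →
  ∀ n : ℕ, 1 ≤ n → (∀ w : ℝ, 0 ≤ w → w ≤ 1 - 1 / ((M : ℝ) * n) →
    |(∑' j, w ^ j * a j) - ∑' j, w ^ j * b j| ≤ η) →
  |(∑ j ∈ range (n + 1), a j) - ∑ j ∈ range (n + 1), b j| ≤ ε := by
  intro b hb hbs ε hε
  set B : ℝ := ∑' j, b j with hB
  have hB0 : 0 ≤ B := tsum_nonneg hb
  obtain ⟨N₀, hN₀⟩ : ∃ N₀ : ℕ, B - ε / 4 ≤ ∑ j ∈ range (N₀ + 1), b j := by
    have h1 := (hbs.hasSum.tendsto_sum_nat).eventually (lt_mem_nhds (show B - ε / 4 < ∑' j, b j by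
      rw [← hB]; linarith))
    obtain ⟨N, hN⟩ := Filter.eventually_atTop.1 h1
    exact ⟨N, (hN (N + 1) (by omega)).le⟩
  have hN0 : (0 : ℝ) < N₀ + 1 := by positivity
  obtain ⟨η1, hη1, hco⟩ := coeffs b hb hbs (N₀ + 1) (ε / (4 * (N₀ + 1))) (by positivity)
  obtain ⟨M0, hM0⟩ := exists_nat_ge ((B + ε / 2) * 4 / ε)
  refine ⟨min η1 (ε / 4), max 2 M0, lt_min hη1 (by positivity), le_max_left _ _, ?_⟩
  intro a ha has n hn hcl
  set M : ℕ := max 2 M0 with hM
  have hM2 : (2 : ℝ) ≤ M := by exact_mod_cast le_max_left 2 M0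
  have hMM : (B + ε / 2) * 4 / ε ≤ M := hM0.trans (by exact_mod_cast le_max_right 2 M0)
  have hnr : (1 : ℝ) ≤ n := by exact_mod_cast hn
  have hMn : (2 : ℝ) ≤ M * n := by nlinarith
  have hMn0 : (0 : ℝ) < M * n := by linarith
  have hinv : 1 / ((M : ℝ) * n) ≤ 1 / 2 := one_div_le_one_div_of_le (by norm_num) hMn
  have hinv0 : 0 < 1 / ((M : ℝ) * n) := by positivity
  have hsm : ∀ j < N₀ + 1, |a j - b j| ≤ ε / (4 * (N₀ + 1)) :=
    hco a ha has fun w hw hw' => (hcl w hw (by linarith)).trans (min_le_left _ _)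
  have hsum : ∀ m : ℕ, m ≤ N₀ + 1 → |(∑ j ∈ range m, a j) - ∑ j ∈ range m, b j| ≤ ε / 4 := by
    intro m hm
    rw [← sum_sub_distrib]
    calc |∑ j ∈ range m, (a j - b j)| ≤ ∑ j ∈ range m, |a j - b j| := abs_sum_le_sum_abs _ _
      _ ≤ ∑ _j ∈ range m, ε / (4 * (N₀ + 1)) :=
          sum_le_sum fun j hj => hsm j (lt_of_lt_of_le (mem_range.1 hj) hm)
      _ = m * (ε / (4 * (N₀ + 1))) := by rw [sum_const, card_range, nsmul_eq_mul]
      _ ≤ (N₀ + 1) * (ε / (4 * (N₀ + 1))) := by
          apply mul_le_mul_of_nonneg_right _ (by positivity)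
          exact_mod_cast hm
      _ = ε / 4 := by field_simp
  rcases Nat.lt_or_ge n N₀ with hnN | hnN
  · exact (hsum (n + 1) (by omega)).trans (by linarith)
  · have hbn : B - ε / 4 ≤ ∑ j ∈ range (n + 1), b j :=
      hN₀.trans (sum_le_sum_of_subset_of_nonneg (range_subset_range.2 (by omega)) fun j _ _ => hb j)
    have hbB : ∑ j ∈ range (n + 1), b j ≤ B := hbs.sum_le_tsum _ fun j _ => hb j
    rw [abs_le]
    constructor
    · have h1 := (abs_le.1 (hsum (N₀ + 1) le_rfl)).1
      have h2 : ∑ j ∈ range (N₀ + 1), a j ≤ ∑ j ∈ range (n + 1), a j :=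
        sum_le_sum_of_subset_of_nonneg (range_subset_range.2 (by omega)) fun j _ _ => ha j
      linarith
    · set w : ℝ := 1 - 1 / ((M : ℝ) * n) with hw
      have hw0 : 0 ≤ w := by linarith
      have hw1 : w ≤ 1 := by linarith
      have hpow : 1 - 1 / (M : ℝ) ≤ w ^ n := by
        have h1 := one_add_mul_le_pow (a := -(1 / ((M : ℝ) * n))) (by linarith) n
        have h2 : 1 + (n : ℝ) * -(1 / ((M : ℝ) * n)) = 1 - 1 / M := by
          have : (n : ℝ) ≠ 0 := by linarith
          have : (M : ℝ) ≠ 0 := by linarith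
          field_simp
          ring
        rw [h2] at h1
        have h3 : (1 + -(1 / ((M : ℝ) * n))) = w := by rw [hw]; ring
        rw [h3] at h1
        exact h1
      have hM1 : 1 / (M : ℝ) ≤ 1 / 2 := one_div_le_one_div_of_le (by norm_num) hM2
      have hpos : 0 < 1 - 1 / (M : ℝ) := by linarith
      have hSa : 0 ≤ ∑ j ∈ range (n + 1), a j := sum_nonneg fun j _ => ha j
      have h4 : (∑ j ∈ range (n + 1), a j) * (1 - 1 / (M : ℝ)) ≤ B + ε / 4 := by
        calc (∑ j ∈ range (n + 1), a j) * (1 - 1 / (M : ℝ)) ≤ (∑ j ∈ range (n + 1), a j) * w ^ n :=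
              mul_le_mul_of_nonneg_left hpow hSa
          _ = ∑ j ∈ range (n + 1), w ^ n * a j := by rw [mul_comm, mul_sum]
          _ ≤ ∑ j ∈ range (n + 1), w ^ j * a j := by
              apply sum_le_sum
              intro j hj
              apply mul_le_mul_of_nonneg_right _ (ha j)
              exact pow_le_pow_of_le_one hw0 hw1 (by have := mem_range.1 hj; omega)
          _ ≤ ∑' j, w ^ j * a j := (summ ha has hw0 hw1).sum_le_tsum _ fun j _ =>
              mul_nonneg (pow_nonneg hw0 j) (ha j)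
          _ ≤ (∑' j, w ^ j * b j) + min η1 (ε / 4) := by
              have := (abs_le.1 (hcl w hw0 le_rfl)).2
              linarith
          _ ≤ B + ε / 4 := add_le_add (gen_le hb hbs hw0 hw1) (min_le_right _ _)
      have h5 : B + ε / 4 ≤ (B + ε / 2) * (1 - 1 / (M : ℝ)) := by
        have h6 : (B + ε / 2) * (1 / (M : ℝ)) ≤ ε / 4 := by
          rw [mul_one_div, div_le_iff₀ (by linarith)]
          rw [div_le_iff₀ hε] at hMM
          linarith
        nlinarith
      have h7 : ∑ j ∈ range (n + 1), a j ≤ B + ε / 2 :=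
        le_of_mul_le_mul_right (h4.trans h5) hpos
      linarith

end Pool.Agent.K9h51.SH.TAU_
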