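import Pool.Agent.K9h51.SH.Stm
import Pool.Agent.K9h51.SH.Tau0

/-!
# Leaf TAU of project SH
-/

set_option autoImplicit false

namespace Pool.Agent.K9h51.SH

theorem tau : S_TAU := TAU_.tau0

end Pool.Agent.K9h51.SH
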