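import Pool.Agent.K9h51.SH.Sti
import Pool.Agent.K9h51.SH.Tau
import Pool.Agent.K9h51.SH.Hka

/-!
# Project SH: from generating functions to the distribution function
-/

set_option autoImplicit false
set_option linter.unusedVariables false

namespace Pool.Agent.K9h51.SH

open Finset Equiv Matrix Q292.LC
open Pool.Agent.Y998.ST (stirExp nnRate qq stirLaw)

section gf

variable {V : Type} [Fintype V] [DecidableEq V]

theorem gf_term (R : V → V → ℝ) (t κ : ℝ) (x : V) (j : ℕ) (hj : Fintype.card V < j) :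
    κ * stirExp R t (fun g => if (cyc g x).card = j then 1 else 0) = 0 := by
  unfold stirExp
  rw [sum_eq_zero, mul_zero]
  intro g _
  have h : (cyc g x).card ≠ j := by
    have := Finset.card_le_univ (cyc g x)
    omega
  beta_reduce
  rw [if_neg h, mul_zero]

theorem gf_summable (R : V → V → ℝ) (t κ : ℝ) (x : V) :
    Summable (fun j => κ * stirExp R t (fun g => if (cyc g x).card = j then 1 else 0)) := by
  refine summable_of_ne_finset_zero (s := range (Fintype.card V + 1)) fun j hj => ?_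
  exact gf_term R t κ x j (by simpa using hj)

theorem gf_sum (R : V → V → ℝ) (t κ w : ℝ) (x : V) :
    (∑' j, w ^ j * (κ * stirExp R t (fun g => if (cyc g x).card = j then 1 else 0))) =
      κ * stirExp R t (fun g => w ^ (cyc g x).card) := by
  rw [tsum_eq_sum (s := range (Fintype.card V + 1)) (fun j hj => by
    rw [gf_term R t κ x j (by simpa using hj), mul_zero])]
  unfold stirExp
  have h1 : ∀ j ∈ range (Fintype.card V + 1),
      w ^ j * (κ * ∑ g, stirLaw R t g * (if (cyc g x).card = j then (1 : ℝ) else 0)) =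
      κ * ∑ g, stirLaw R t g * (if (cyc g x).card = j then w ^ j else 0) := by
    intro j _
    rw [← mul_assoc, mul_comm (w ^ j) κ, mul_assoc, Finset.mul_sum]
    congr 1
    refine sum_congr rfl fun g _ => ?_
    split_ifs <;> ring
  rw [sum_congr rfl h1, ← Finset.mul_sum, sum_comm]
  congr 1
  refine sum_congr rfl fun g _ => ?_
  rw [← Finset.mul_sum]
  congr 1
  rw [Finset.sum_ite_eq, if_pos]
  rw [mem_range]
  have := Finset.card_le_univ (cyc g x)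
  omega

theorem gf_partial (R : V → V → ℝ) (t κ : ℝ) (x : V) (n : ℕ) :
    ∑ j ∈ range (n + 1), κ * stirExp R t (fun g => if (cyc g x).card = j then 1 else 0) =
      κ * stirExp R t (fun g => if (cyc g x).card ≤ n then 1 else 0) := by
  unfold stirExp
  rw [← Finset.mul_sum, sum_comm]
  congr 1
  refine sum_congr rfl fun g _ => ?_
  rw [← Finset.mul_sum]
  congr 1
  rw [Finset.sum_ite_eq]
  simp only [mem_range, Nat.lt_succ_iff]

end gf

/-- the tail of the series of the walk -/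
theorem b_tail (d : ℕ) (hd : 3 ≤ d) (J : ℕ) (hJ : 1 ≤ J) (w : ℝ) (hw0 : 0 ≤ w) (hw1 : w < 1) :
    |∑ k ∈ range J, w ^ (k + 1) * ((k : ℝ) + 1) ^ (-(d / 2 : ℝ)) -
      ∑' j : ℕ, w ^ j * (j : ℝ) ^ (-(d / 2 : ℝ))| ≤ 2 * (J : ℝ) ^ (-(1 / 2 : ℝ)) := by
  have hd3 : (3 : ℝ) ≤ d := by exact_mod_cast hd
  have hb : Summable (fun j : ℕ => (j : ℝ) ^ (-(d / 2 : ℝ))) :=
    Real.summable_nat_rpow.2 (by linarith)
  have hf : Summable (fun j : ℕ => w ^ j * (j : ℝ) ^ (-(d / 2 : ℝ))) := by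
    refine Summable.of_nonneg_of_le (fun j => by positivity) (fun j => ?_) hb
    exact mul_le_of_le_one_left (by positivity) (pow_le_one₀ hw0 hw1.le)
  rw [← hf.sum_add_tsum_nat_add (J + 1), sum_range_succ']
  have h0 : w ^ 0 * ((0 : ℕ) : ℝ) ^ (-(d / 2 : ℝ)) = 0 := by
    rw [Nat.cast_zero, Real.zero_rpow (by
      rw [neg_ne_zero]
      positivity), mul_zero]
  rw [h0, add_zero]
  have h1 : ∑ k ∈ range J, w ^ (k + 1) * ((k : ℝ) + 1) ^ (-(d / 2 : ℝ)) =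
      ∑ k ∈ range J, w ^ (k + 1) * ((k + 1 : ℕ) : ℝ) ^ (-(d / 2 : ℝ)) := by
    push_cast
    rfl
  rw [h1, sub_add_cancel_left, abs_neg]
  have h2 : ∀ j : ℕ, 0 ≤ w ^ (j + (J + 1)) * ((j + (J + 1) : ℕ) : ℝ) ^ (-(d / 2 : ℝ)) :=
    fun j => by positivity
  rw [abs_of_nonneg (tsum_nonneg h2)]
  refine Real.tsum_le_of_sum_range_le h2 fun N => ?_
  have h3 := rpow_tail d hd J hJ (J + N) (by omega)
  rw [Finset.sum_Ico_eq_sum_range, Nat.add_sub_cancel_left] at h3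
  refine le_trans (sum_le_sum fun k _ => ?_) h3
  have h4 : ((k + (J + 1) : ℕ) : ℝ) = ((J + k : ℕ) : ℝ) + 1 := by push_cast; ring
  rw [h4]
  exact mul_le_of_le_one_left (by positivity) (pow_le_one₀ hw0 hw1.le)

theorem gen (d : ℕ) (hd : 3 ≤ d) : ∃ m : ℕ, ∀ ε : ℝ, 0 < ε → ∃ C t₀ : ℝ, 0 ≤ C ∧ 1 ≤ t₀ ∧
    ∀ t : ℝ, t₀ ≤ t → ∀ (L : ℕ) [NeZero L] (n : ℕ), 1 ≤ n → (n : ℝ) * t ≤ (L : ℝ) ^ d →
    (Real.log L) ^ m ≤ t → ∀ x : Fin d → ZMod L,
    |stirExp (nnRate d L) t (fun g => if (cyc g x).card ≤ n then 1 else 0) -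
      (4 * Real.pi * t) ^ (-(d / 2 : ℝ)) * ∑ j ∈ range (n + 1), (j : ℝ) ^ (-(d / 2 : ℝ))| ≤
    ε * t ^ (-(d / 2 : ℝ)) + C * (n / (L : ℝ) ^ d) := by
  have hd3 : (3 : ℝ) ≤ d := by exact_mod_cast hd
  have hd0 : (0 : ℝ) < d := by linarith
  obtain ⟨C₁, m₁, hC₁, hS⟩ := sti d hd
  obtain ⟨C₃, m₃, hC₃, hT⟩ := Q292.LC.all_tls d hd
  refine ⟨m₁ + m₃, fun ε hε => ?_⟩
  have hpi := Real.pi_pos
  obtain ⟨Γ, hΓ⟩ : ∃ Γ : ℝ, Γ = (4 * Real.pi) ^ (d / 2 : ℝ) := ⟨_, rfl⟩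
  have hΓ0 : 0 < Γ := by rw [hΓ]; positivity
  have hb : Summable (fun j : ℕ => (j : ℝ) ^ (-(d / 2 : ℝ))) :=
    Real.summable_nat_rpow.2 (by linarith)
  obtain ⟨Bs, hBs⟩ : ∃ Bs : ℝ, Bs = ∑' j : ℕ, (j : ℝ) ^ (-(d / 2 : ℝ)) := ⟨_, rfl⟩
  have hBs0 : 0 ≤ Bs := by rw [hBs]; exact tsum_nonneg fun j => by positivity
  have hBn : ∀ n : ℕ, ∑ j ∈ range (n + 1), (j : ℝ) ^ (-(d / 2 : ℝ)) ≤ Bs := fun n => by
    rw [hBs]
    exact hb.sum_le_tsum _ fun j _ => by positivity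
  obtain ⟨η, M, hη, hM, htau⟩ := tau (fun j : ℕ => (j : ℝ) ^ (-(d / 2 : ℝ)))
    (fun j => by positivity) hb (ε * Γ) (by positivity)
  have hM0 : (0 : ℝ) < M := by
    have : 0 < M := by omega
    exact_mod_cast this
  -- the choice of J
  obtain ⟨J, hJ1, hJη⟩ : ∃ J : ℕ, 1 ≤ J ∧ (Γ * C₁ + 2) * (J : ℝ) ^ (-(1 / 2 : ℝ)) ≤ η / 4 := by
    obtain ⟨J0, hJ0⟩ := exists_nat_gt (((Γ * C₁ + 2) * 4 / η) ^ 2)
    refine ⟨J0 + 1, by omega, ?_⟩
    have e1 : (0 : ℝ) < ((J0 + 1 : ℕ) : ℝ) := by positivity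
    have e2 : (Γ * C₁ + 2) * 4 / η ≤ Real.sqrt ((J0 + 1 : ℕ) : ℝ) := by
      refine Real.le_sqrt_of_sq_le (hJ0.le.trans ?_)
      push_cast
      linarith
    have e3 : 0 < Real.sqrt ((J0 + 1 : ℕ) : ℝ) := Real.sqrt_pos.2 e1
    rw [Real.rpow_neg e1.le, ← Real.sqrt_eq_rpow, ← div_eq_mul_inv, div_le_iff₀ e3]
    rw [div_le_iff₀ hη] at e2
    linarith
  have hJ0 : (0 : ℝ) < J := by
    have : 0 < J := by omega
    exact_mod_cast this
  obtain ⟨ε₂, hε₂⟩ : ∃ ε₂ : ℝ, ε₂ = η / (4 * Γ * J) := ⟨_, rfl⟩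
  have hε₂0 : 0 < ε₂ := by rw [hε₂]; positivity
  obtain ⟨C₂, s₀, hC₂, hs₀, hH⟩ := hka d (by omega) ε₂ hε₂0
  obtain ⟨η', hη'⟩ : ∃ η' : ℝ, η' = min (1 / (M : ℝ)) (η / (4 * Γ * J * (C₁ * M + C₂))) :=
    ⟨_, rfl⟩
  have hη'0 : 0 < η' := by
    rw [hη']
    exact lt_min (by positivity) (by positivity)
  have hη'1 : (M : ℝ) * η' ≤ 1 := by
    have : η' ≤ 1 / M := by rw [hη']; exact min_le_left _ _
    rw [le_div_iff₀ hM0] at this
    linarith
  have hη'2 : Γ * J * (C₁ * M + C₂) * η' ≤ η / 4 := by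
    have h1 : η' ≤ η / (4 * Γ * J * (C₁ * M + C₂)) := by rw [hη']; exact min_le_right _ _
    rw [le_div_iff₀ (by positivity)] at h1
    linarith
  obtain ⟨t₁, ht₁⟩ : ∃ t₁ : ℝ, t₁ = (4 * Γ * C₁ * J ^ 2 / η) ^ (4 : ℕ) := ⟨_, rfl⟩
  refine ⟨C₃ * (1 / η' + 1) + Γ⁻¹ * Bs / η', max (max s₀ (m₁ + m₃ : ℕ)) (max t₁ (3 ^ d + 1)),
    by positivity, (hs₀.trans (le_max_left _ _)).trans (le_max_left _ _), ?_⟩
  intro t ht L _ n hn hnt hlog x
  have hts : s₀ ≤ t := ((le_max_left _ _).trans (le_max_left _ _)).trans ht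
  have htm : ((m₁ + m₃ : ℕ) : ℝ) ≤ t := ((le_max_right _ _).trans (le_max_left _ _)).trans ht
  have htt : t₁ ≤ t := ((le_max_left _ _).trans (le_max_right _ _)).trans ht
  have ht3 : (3 : ℝ) ^ d + 1 ≤ t := ((le_max_right _ _).trans (le_max_right _ _)).trans ht
  have ht1 : 1 ≤ t := hs₀.trans hts
  have ht0 : 0 < t := by linarith
  have hn1 : (1 : ℝ) ≤ n := by exact_mod_cast hn
  have hLpos : 0 < L := Nat.pos_of_ne_zero (NeZero.ne L)
  have hLr : (0 : ℝ) < L := by exact_mod_cast hLpos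
  have hLd : (0 : ℝ) < (L : ℝ) ^ d := by positivity
  have htL : t ≤ (L : ℝ) ^ d := by nlinarith
  have hL3 : 3 ≤ L := by
    by_contra hcon
    push Not at hcon
    have h1 : (L : ℝ) ≤ 3 := by
      have : L ≤ 3 := by omega
      exact_mod_cast this
    have h2 : (L : ℝ) ^ d ≤ 3 ^ d := pow_le_pow_left₀ hLr.le h1 d
    linarith
  have hlog1 : 1 ≤ Real.log L := by
    rw [Real.le_log_iff_exp_le hLr]
    have h1 := Real.exp_one_lt_d9
    have h2 : (3 : ℝ) ≤ L := by exact_mod_cast hL3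
    linarith
  have hlogm : ∀ m' ≤ m₁ + m₃, (Real.log L) ^ m' ≤ t := fun m' hm' =>
    (pow_le_pow_right₀ hlog1 hm').trans hlog
  have hcm : ∀ m' ≤ m₁ + m₃, (m' : ℝ) ≤ t := fun m' hm' => by
    have : (m' : ℝ) ≤ ((m₁ + m₃ : ℕ) : ℝ) := by exact_mod_cast hm'
    linarith
  obtain ⟨τ, hτ⟩ : ∃ τ : ℝ, τ = t ^ (-(d / 2 : ℝ)) := ⟨_, rfl⟩
  have hτ0 : 0 < τ := by rw [hτ]; positivity
  obtain ⟨κ, hκ⟩ : ∃ κ : ℝ, κ = Γ * t ^ (d / 2 : ℝ) := ⟨_, rfl⟩
  have hκ0 : 0 < κ := by rw [hκ]; positivity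
  have hκτ : κ * τ = Γ := by
    rw [hκ, hτ, mul_assoc, ← Real.rpow_add ht0]
    simp
  have h4pi : ∀ s : ℝ, 0 < s → (4 * Real.pi * s) ^ (-(d / 2 : ℝ)) = Γ⁻¹ * s ^ (-(d / 2 : ℝ)) := by
    intro s hs
    rw [Real.mul_rpow (by positivity) hs.le, hΓ, ← Real.rpow_neg (by positivity)]
  have hκ4 : κ * (4 * Real.pi * t) ^ (-(d / 2 : ℝ)) = 1 := by
    rw [h4pi t ht0, ← hτ, ← mul_assoc, mul_comm κ, mul_assoc, hκτ, inv_mul_cancel₀ hΓ0.ne']
  rw [← hτ]
  obtain ⟨P, hP⟩ : ∃ P, P = stirExp (nnRate d L) t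
    (fun g => if (cyc g x).card ≤ n then 1 else 0) := ⟨_, rfl⟩
  rw [← hP]
  by_cases hbig : η' * τ < n / (L : ℝ) ^ d
  · -- the trivial case
    have h1 : P ≤ C₃ * (τ + n / (L : ℝ) ^ d) := by
      rw [hP, hτ]
      exact hT L n t (hcm m₃ (by omega)) (hlogm m₃ (by omega)) hn hnt x
    have h2 : 0 ≤ P := by
      rw [hP]
      have h := Pool.Agent.Y998.ST.exp_mono (J := nnRate d L) Pool.Agent.Y998.ST.nn_nonneg
        (t := t) ht0.le (F := fun _ => (0 : ℝ))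
        (G := fun g => if (cyc g x).card ≤ n then 1 else 0) (fun g => by
          split_ifs <;> norm_num)
      rw [Pool.Agent.Y998.ST.exp_const] at h
      exact h
    have h3 : τ ≤ (1 / η') * (n / (L : ℝ) ^ d) := by
      rw [one_div, inv_mul_eq_div, le_div_iff₀ hη'0]
      linarith
    have h4 : 0 ≤ (4 * Real.pi * t) ^ (-(d / 2 : ℝ)) *
        ∑ j ∈ range (n + 1), (j : ℝ) ^ (-(d / 2 : ℝ)) :=
      mul_nonneg (by positivity) (sum_nonneg fun j _ => by positivity)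
    have h5 : (4 * Real.pi * t) ^ (-(d / 2 : ℝ)) *
        ∑ j ∈ range (n + 1), (j : ℝ) ^ (-(d / 2 : ℝ)) ≤
        Γ⁻¹ * Bs / η' * (n / (L : ℝ) ^ d) := by
      calc (4 * Real.pi * t) ^ (-(d / 2 : ℝ)) *
          ∑ j ∈ range (n + 1), (j : ℝ) ^ (-(d / 2 : ℝ)) ≤ (Γ⁻¹ * τ) * Bs := by
            rw [h4pi t ht0, ← hτ]
            exact mul_le_mul_of_nonneg_left (hBn n) (by positivity)
        _ ≤ (Γ⁻¹ * ((1 / η') * (n / (L : ℝ) ^ d))) * Bs := by gcongr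
        _ = _ := by ring
    have h6 : C₃ * (τ + n / (L : ℝ) ^ d) ≤ C₃ * (1 / η' + 1) * (n / (L : ℝ) ^ d) := by
      have : C₃ * τ ≤ C₃ * ((1 / η') * (n / (L : ℝ) ^ d)) := by gcongr
      linarith
    have h7 : 0 ≤ ε * τ := by positivity
    rw [abs_le]
    have h8 : 0 ≤ C₃ * (1 / η' + 1) * (n / (L : ℝ) ^ d) := by positivity
    have h9 : 0 ≤ Γ⁻¹ * Bs / η' * (n / (L : ℝ) ^ d) := by positivity
    constructor <;> nlinarith
  · push Not at hbig
    have hwn : ∀ w : ℝ, 0 ≤ w → w ≤ 1 - 1 / ((M : ℝ) * n) →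
        |(∑' j, w ^ j * (κ * stirExp (nnRate d L) t
          (fun g => if (cyc g x).card = j then 1 else 0))) -
          ∑' j : ℕ, w ^ j * (j : ℝ) ^ (-(d / 2 : ℝ))| ≤ η := by
      intro w hw0 hwM
      have hMn : (0 : ℝ) < (M : ℝ) * n := by positivity
      have hw1' : 1 / ((M : ℝ) * n) ≤ 1 - w := by linarith
      have h1w : 0 < 1 - w := lt_of_lt_of_le (by positivity) hw1'
      have hw1 : w < 1 := by linarith
      have hD : 1 / ((L : ℝ) ^ d * (1 - w)) ≤ M * (n / (L : ℝ) ^ d) := by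
        rw [div_le_iff₀ (by positivity)]
        have e1 : M * (n / (L : ℝ) ^ d) * ((L : ℝ) ^ d * (1 - w)) = (M * n) * (1 - w) := by
          field_simp
        rw [e1]
        rw [div_le_iff₀ hMn] at hw1'
        linarith
      have hD2 : 1 / ((L : ℝ) ^ d * (1 - w)) ≤ M * (η' * τ) :=
        hD.trans (mul_le_mul_of_nonneg_left hbig hM0.le)
      have hD3 : 1 / ((L : ℝ) ^ d * (1 - w)) ≤ t ^ (-(d / 2 : ℝ)) := by
        rw [← hτ]
        refine hD2.trans ?_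
        rw [← mul_assoc]
        exact mul_le_of_le_one_left hτ0.le hη'1
      have h1 := hS L J t w (hcm m₁ (by omega)) (hlogm m₁ (by omega)) hw0 hw1 hD3 hJ1 x
      rw [← hτ] at h1
      have h2 : |∑ k ∈ range J, w ^ (k + 1) * qq (nnRate d L) (((k : ℝ) + 1) * t) x x -
          ∑ k ∈ range J, w ^ (k + 1) * (κ⁻¹ * ((k : ℝ) + 1) ^ (-(d / 2 : ℝ)))| ≤
          J * (ε₂ * τ + C₂ * (η' * τ)) := by
        rw [← Finset.sum_sub_distrib]
        refine (Finset.abs_sum_le_sum_abs _ _).trans ?_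
        have h3 : ∀ k ∈ range J, |w ^ (k + 1) * qq (nnRate d L) (((k : ℝ) + 1) * t) x x -
            w ^ (k + 1) * (κ⁻¹ * ((k : ℝ) + 1) ^ (-(d / 2 : ℝ)))| ≤
            ε₂ * τ + C₂ * (η' * τ) := by
          intro k _
          rw [← mul_sub, abs_mul, abs_of_nonneg (pow_nonneg hw0 _)]
          have hk1 : (1 : ℝ) ≤ (k : ℝ) + 1 := by
            have : (0 : ℝ) ≤ k := Nat.cast_nonneg k
            linarith
          have hkt : s₀ ≤ ((k : ℝ) + 1) * t := by nlinarith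
          have hkt0 : 0 < ((k : ℝ) + 1) * t := by positivity
          have h4 := hH L hL3 (((k : ℝ) + 1) * t) hkt x
          have h5 : (4 * Real.pi * (((k : ℝ) + 1) * t)) ^ (-(d / 2 : ℝ)) =
              κ⁻¹ * ((k : ℝ) + 1) ^ (-(d / 2 : ℝ)) := by
            rw [h4pi _ hkt0, Real.mul_rpow (by positivity) ht0.le, ← hτ, ← hκτ]
            field_simp
          rw [h5] at h4
          have h6 : (((k : ℝ) + 1) * t) ^ (-(d / 2 : ℝ)) ≤ τ := by
            rw [hτ]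
            refine Real.rpow_le_rpow_of_nonpos ht0 (by nlinarith) ?_
            rw [neg_nonpos]
            positivity
          have h7 : C₂ / (L : ℝ) ^ d ≤ C₂ * (η' * τ) := by
            rw [div_eq_mul_one_div]
            refine mul_le_mul_of_nonneg_left ?_ hC₂.le
            refine le_trans ?_ hbig
            exact div_le_div_of_nonneg_right hn1 hLd.le
          refine (mul_le_of_le_one_left (abs_nonneg _) (pow_le_one₀ hw0 hw1.le)).trans ?_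
          refine h4.trans (add_le_add ?_ h7)
          exact mul_le_mul_of_nonneg_left h6 hε₂0.le
        refine (Finset.sum_le_sum h3).trans (le_of_eq ?_)
        rw [sum_const, card_range, nsmul_eq_mul]
      have h3 := b_tail d hd J hJ1 w hw0 hw1
      rw [gf_sum]
      -- put together
      have h8 : ∑ k ∈ range J, w ^ (k + 1) * (κ⁻¹ * ((k : ℝ) + 1) ^ (-(d / 2 : ℝ))) =
          κ⁻¹ * ∑ k ∈ range J, w ^ (k + 1) * ((k : ℝ) + 1) ^ (-(d / 2 : ℝ)) := by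
        rw [Finset.mul_sum]
        exact sum_congr rfl fun k _ => by ring
      rw [h8] at h2
      obtain ⟨X, hX⟩ : ∃ X, X = stirExp (nnRate d L) t (fun g => w ^ (cyc g x).card) := ⟨_, rfl⟩
      obtain ⟨Y, hY⟩ : ∃ Y, Y = ∑ k ∈ range J, w ^ (k + 1) *
        qq (nnRate d L) (((k : ℝ) + 1) * t) x x := ⟨_, rfl⟩
      obtain ⟨W, hW⟩ : ∃ W, W = ∑ k ∈ range J, w ^ (k + 1) * ((k : ℝ) + 1) ^ (-(d / 2 : ℝ)) :=
        ⟨_, rfl⟩
      obtain ⟨U, hU⟩ : ∃ U, U = ∑' j : ℕ, w ^ j * (j : ℝ) ^ (-(d / 2 : ℝ)) := ⟨_, rfl⟩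
      rw [← hX, ← hY] at h1
      rw [← hY, ← hW] at h2
      rw [← hW, ← hU] at h3
      rw [← hX, ← hU]
      have h9 : |X - κ⁻¹ * W| ≤ C₁ * (τ * ((J : ℝ) ^ 2 * t ^ (-(1 / 4 : ℝ)) +
          (J : ℝ) ^ (-(1 / 2 : ℝ))) + J * (M * (η' * τ))) + J * (ε₂ * τ + C₂ * (η' * τ)) := by
        have e1 : |X - κ⁻¹ * W| ≤ |X - Y| + |Y - κ⁻¹ * W| := abs_sub_le _ _ _
        have e2 : (J : ℝ) / ((L : ℝ) ^ d * (1 - w)) ≤ J * (M * (η' * τ)) := by
          rw [div_eq_mul_one_div]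
          exact mul_le_mul_of_nonneg_left hD2 hJ0.le
        have e3 : C₁ * (τ * ((J : ℝ) ^ 2 * t ^ (-(1 / 4 : ℝ)) +
          (J : ℝ) ^ (-(1 / 2 : ℝ))) + J / ((L : ℝ) ^ d * (1 - w))) ≤
          C₁ * (τ * ((J : ℝ) ^ 2 * t ^ (-(1 / 4 : ℝ)) +
          (J : ℝ) ^ (-(1 / 2 : ℝ))) + J * (M * (η' * τ))) :=
          mul_le_mul_of_nonneg_left (by linarith) (by linarith)
        linarith
      have h10 : |κ * X - W| ≤ κ * (C₁ * (τ * ((J : ℝ) ^ 2 * t ^ (-(1 / 4 : ℝ)) +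
          (J : ℝ) ^ (-(1 / 2 : ℝ))) + J * (M * (η' * τ))) + J * (ε₂ * τ + C₂ * (η' * τ))) := by
        have e1 : κ * X - W = κ * (X - κ⁻¹ * W) := by
          rw [mul_sub, ← mul_assoc, mul_inv_cancel₀ hκ0.ne', one_mul]
        rw [e1, abs_mul, abs_of_pos hκ0]
        exact mul_le_mul_of_nonneg_left h9 hκ0.le
      have h11 : κ * (C₁ * (τ * ((J : ℝ) ^ 2 * t ^ (-(1 / 4 : ℝ)) +
          (J : ℝ) ^ (-(1 / 2 : ℝ))) + J * (M * (η' * τ))) + J * (ε₂ * τ + C₂ * (η' * τ))) =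
          Γ * C₁ * ((J : ℝ) ^ 2 * t ^ (-(1 / 4 : ℝ))) + Γ * C₁ * (J : ℝ) ^ (-(1 / 2 : ℝ)) +
          Γ * J * (C₁ * M + C₂) * η' + Γ * J * ε₂ := by
        rw [← hκτ]
        ring
      rw [h11] at h10
      have h12 : Γ * C₁ * ((J : ℝ) ^ 2 * t ^ (-(1 / 4 : ℝ))) ≤ η / 4 := by
        have e1 : 4 * Γ * C₁ * J ^ 2 / η ≤ t ^ (1 / 4 : ℝ) := by
          have e2 : 0 ≤ 4 * Γ * C₁ * J ^ 2 / η := by positivity
          calc 4 * Γ * C₁ * J ^ 2 / η =
                ((4 * Γ * C₁ * J ^ 2 / η) ^ (4 : ℕ)) ^ (1 / 4 : ℝ) := by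
                rw [← Real.rpow_natCast (4 * Γ * C₁ * J ^ 2 / η) 4, ← Real.rpow_mul e2]
                norm_num
            _ ≤ t ^ (1 / 4 : ℝ) := by
                refine Real.rpow_le_rpow (by positivity) ?_ (by norm_num)
                rw [← ht₁]
                exact htt
        have e3 : 0 < t ^ (1 / 4 : ℝ) := by positivity
        rw [Real.rpow_neg ht0.le, ← mul_assoc, ← div_eq_mul_inv, div_le_iff₀ e3]
        rw [div_le_iff₀ hη] at e1
        linarith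
      have h13 : Γ * J * ε₂ = η / 4 := by
        rw [hε₂]
        field_simp
      have h14 : |κ * X - U| ≤ |κ * X - W| + |W - U| := abs_sub_le _ _ _
      have h15 : (Γ * C₁ + 2) * (J : ℝ) ^ (-(1 / 2 : ℝ)) = Γ * C₁ * (J : ℝ) ^ (-(1 / 2 : ℝ)) +
        2 * (J : ℝ) ^ (-(1 / 2 : ℝ)) := by ring
      rw [h15] at hJη
      linarith
    have hfin := htau (fun j => κ * stirExp (nnRate d L) t
      (fun g => if (cyc g x).card = j then 1 else 0)) (fun j => ?_)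
      (gf_summable (nnRate d L) t κ x) n hn hwn
    · rw [gf_partial, ← hP] at hfin
      have h1 : P - (4 * Real.pi * t) ^ (-(d / 2 : ℝ)) *
          ∑ j ∈ range (n + 1), (j : ℝ) ^ (-(d / 2 : ℝ)) =
          (4 * Real.pi * t) ^ (-(d / 2 : ℝ)) *
          (κ * P - ∑ j ∈ range (n + 1), (j : ℝ) ^ (-(d / 2 : ℝ))) := by
        rw [mul_sub, ← mul_assoc, mul_comm _ κ, hκ4, one_mul]
      rw [h1, abs_mul, abs_of_nonneg (by positivity)]
      calc (4 * Real.pi * t) ^ (-(d / 2 : ℝ)) *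
          |κ * P - ∑ j ∈ range (n + 1), (j : ℝ) ^ (-(d / 2 : ℝ))|
          ≤ (4 * Real.pi * t) ^ (-(d / 2 : ℝ)) * (ε * Γ) :=
            mul_le_mul_of_nonneg_left hfin (by positivity)
        _ = ε * τ := by
            rw [h4pi t ht0, ← hτ]
            field_simp
        _ ≤ _ := by
            have : 0 ≤ (C₃ * (1 / η' + 1) + Γ⁻¹ * Bs / η') * (n / (L : ℝ) ^ d) := by positivity
            linarith
    · refine mul_nonneg hκ0.le ?_
      have h := Pool.Agent.Y998.ST.exp_mono (J := nnRate d L) Pool.Agent.Y998.ST.nn_nonneg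
        (t := t) ht0.le (F := fun _ => (0 : ℝ))
        (G := fun g => if (cyc g x).card = j then 1 else 0) (fun g => by
          split_ifs <;> norm_num)
      rw [Pool.Agent.Y998.ST.exp_const] at h
      exact h

end Pool.Agent.K9h51.SH
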