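import Pool.Agent.K9h51.SH.Stm
import Pool.Agent.Q257.LC.KerU

/-!
# Project SH: the kernel bounds for all powers in a good environment
-/

set_option autoImplicit false

namespace Pool.Agent.K9h51.SH

open Finset Equiv Matrix Q292.LC
open Pool.Agent.Q257.LC (one_bound pow_bound pow_zero_col pow_eq_sdiff TT_units sh_ed)

section one

variable {d L : ℕ} [NeZero L]

/-- one lap is bounded by its two halves -/
theorem lap_one (hB1 : S_BAS1) (hB2 : S_BAS2) (hSUB : S_SUB) (hREV : S_REV) (hd1 : 1 ≤ d)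
    (hL3 : 3 ≤ L) {σ : ℕ → (Fin d → ZMod L) × Fin d} (hσ : Per σ) (q K lam r ρ κ : ℕ) (δ : ℝ)
    (hδ : 0 ≤ δ) (hδ1 : δ ≤ 1) (c m0 : ℝ) (hc : 0 < c) (hm0n : 0 ≤ m0) (hK1 : 1 ≤ K)
    (n8 : K ≤ 3 * (K / 2)) (n9 : K ≤ 3 * (K - K / 2))
    (hlap1 : ∀ σ : ℕ → (Fin d → ZMod L) × Fin d, Per σ → ∀ (ω : ℕ → Bool)
      (A : Finset (Fin d → ZMod L)), Ev σ q (K / 2) lam r ρ κ ω A →
      ∀ f : (Fin d → ZMod L) → ℝ, (∀ x, 0 ≤ f x) → (∀ x ∈ A, f x = 0) → ∑ x, f x ≤ 1 →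
      ∑ x, (vecMul f (TT (ed ∘ σ) ω A δ ((K / 2) * (q * ms d L))) x) ^ 2 ≤
        max m0 (((∑ x, (f x) ^ 2) ^ (-(2 / d : ℝ)) + c * ((K / 2 : ℕ) : ℝ)) ^ (-(d / 2 : ℝ))))
    (hlap2 : ∀ σ : ℕ → (Fin d → ZMod L) × Fin d, Per σ → ∀ (ω : ℕ → Bool)
      (A : Finset (Fin d → ZMod L)), Ev σ q (K - K / 2) lam r ρ κ ω A →
      ∀ f : (Fin d → ZMod L) → ℝ, (∀ x, 0 ≤ f x) → (∀ x ∈ A, f x = 0) → ∑ x, f x ≤ 1 →
      ∑ x, (vecMul f (TT (ed ∘ σ) ω A δ ((K - K / 2) * (q * ms d L))) x) ^ 2 ≤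
        max m0 (((∑ x, (f x) ^ 2) ^ (-(2 / d : ℝ)) + c * ((K - K / 2 : ℕ) : ℝ)) ^ (-(d / 2 : ℝ))))
    (ω : ℕ → Bool) (R : Finset (Fin d → ZMod L)) (hEv : Ev σ q K lam r ρ κ ω R)
    (x y : Fin d → ZMod L) (hxR : x ∉ R)
    (hy : y ∉ R.image (gp (ed ∘ σ) ω (K * (q * ms d L)))) :
    TT (ed ∘ σ) ω R δ (K * (q * ms d L)) x y ≤
      m0 + (c * K / 3 * (((0 : ℕ) : ℝ) + 1)) ^ (-(d / 2 : ℝ)) := by
  have hK0 : (0 : ℝ) < K := by exact_mod_cast hK1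
  obtain ⟨K1, hK1e⟩ : ∃ K1, K1 = K / 2 := ⟨_, rfl⟩
  obtain ⟨K2, hK2e⟩ : ∃ K2, K2 = K - K / 2 := ⟨_, rfl⟩
  have hKK : K = K1 + K2 := by omega
  obtain ⟨T1, hT1⟩ : ∃ T1, T1 = TT (ed ∘ σ) ω R δ (K1 * (q * ms d L)) := ⟨_, rfl⟩
  obtain ⟨ω1, hω1⟩ : ∃ ω1 : ℕ → Bool, ω1 = sh (K1 * (q * ms d L)) ω := ⟨_, rfl⟩
  obtain ⟨R1, hR1⟩ : ∃ R1, R1 = R.image (gp (ed ∘ σ) ω (K1 * (q * ms d L))) := ⟨_, rfl⟩
  obtain ⟨T2, hT2⟩ : ∃ T2, T2 = TT (ed ∘ σ) ω1 R1 δ (K2 * (q * ms d L)) := ⟨_, rfl⟩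
  have hTT : TT (ed ∘ σ) ω R δ (K * (q * ms d L)) = T1 * T2 := by
    rw [hT1, hT2, hω1, hR1, hKK]
    exact TT_units hB2 hσ ω R hδ hδ1 q K1 K2
  have hE1 : Ev σ q K1 lam r ρ κ ω R := by
    have h4 := (hSUB d L hL3 σ hσ q K lam r ρ κ ω R hEv 0 K1 (by omega)).2
    have h5 : sh (0 * (q * ms d L)) ω = ω := by
      funext k
      simp [sh]
    have h6 : R.image (gp (ed ∘ σ) ω (0 * (q * ms d L))) = R := by
      rw [Nat.zero_mul]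
      simp [gp]
    rw [h5, h6] at h4
    exact h4
  have hE2 : Ev σ q K2 lam r ρ κ ω1 R1 := by
    rw [hω1, hR1]
    exact (hSUB d L hL3 σ hσ q K lam r ρ κ ω R hEv K1 K2 (by omega)).2
  obtain ⟨hσr, -, -⟩ := hREV d L hd1 hL3 σ hσ q K lam r ρ κ ω R δ
  obtain ⟨-, hEvr2, hTr2⟩ := hREV d L hd1 hL3 σ hσ q K2 lam r ρ κ ω1 R1 δ
  have hB1' := hB2 _ (ed ∘ σ) ω R δ hδ hδ1
  have hB2' := hB2 _ (ed ∘ σ) ω1 R1 δ hδ hδ1
  have hy2 : y ∉ R1.image (gp (ed ∘ σ) ω1 (K2 * (q * ms d L))) := by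
    intro h7
    apply hy
    rw [hR1, image_image] at h7
    rw [hKK, add_mul, (hB1 _ (ed ∘ σ) ω).1, sh_ed hσ, ← hω1]
    obtain ⟨a, ha, hay⟩ := mem_image.1 h7
    exact mem_image.2 ⟨a, ha, hay⟩
  rw [hTT]
  refine one_bound T1 T2 ?_ ?_ ?_ ?_ ?_ ?_ R
    (R1.image (gp (ed ∘ σ) ω1 (K2 * (q * ms d L)))) d hd1 m0 c K K1 K2 hc hK0 ?_ ?_ hm0n
    ?_ ?_ x y hxR hy2
  · rw [hT1]
    exact hB1'.1 _
  · rw [hT1]
    exact hB1'.2.1 _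
  · rw [hT1]
    exact hB1'.2.2.1 _
  · rw [hT2]
    exact hB2'.1 _
  · rw [hT2]
    exact hB2'.2.1 _
  · rw [hT2]
    exact hB2'.2.2.1 _
  · rw [hK1e]
    exact_mod_cast n8
  · rw [hK2e]
    exact_mod_cast n9
  · rw [hT1, hK1e]
    rw [hK1e] at hE1
    exact hlap1 σ hσ ω R hE1
  · rw [hT2, ← hTr2]
    have hE3 := hEvr2 hE2
    subst hK2e
    exact hlap2 (rvs σ) hσr _ _ hE3

end one

/-- KR2. The kernel bounds in a good environment. -/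
theorem kr2 : ∀ d : ℕ, 3 ≤ d → ∃ (C m : ℕ), 1 ≤ C ∧ ∀ Z : ℕ, C ≤ Z →
  ∀ (L K lam r ρ κ₀ : ℕ) [NeZero L], lam ≤ Z → ρ ≤ Z → κ₀ + 1 ≤ Z → (L : ℝ) ^ d ≤ Real.exp Z →
  Z ^ m ≤ r → 8 * Z ^ m ≤ L → Z ^ m ≤ K → ∃ q₀ : ℕ, ∀ q ≥ q₀,
  ∀ σ : ℕ → (Fin d → ZMod L) × Fin d, Per σ → ∀ δ : ℝ, 1 ≤ δ * q → δ * q ≤ 2 →
  ∀ (ω : ℕ → Bool) (R : Finset (Fin d → ZMod L)), Gd σ q K lam r ρ κ₀ ω R →
  Inv (gp (ed ∘ σ) ω (K * (q * ms d L))) R → ∀ x : Fin d → ZMod L, x ∉ R →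
  (∀ U : Finset (Fin d → ZMod L), Disjoint U R → ∀ k : ℕ,
    (TT (ed ∘ σ) ω R δ (K * (q * ms d L)) *
      (dg U * TT (ed ∘ σ) ω R δ (K * (q * ms d L))) ^ k) x x ≤
      C * (1 / (L : ℝ) ^ d + (K : ℝ) ^ (-(d / 2 : ℝ)) * ((k : ℝ) + 1) ^ (-(d / 2 : ℝ)))) ∧
  ∀ a : Fin d → ZMod L,
    TT (ed ∘ σ) (sh ((K / 2) * (q * ms d L)) ω)
      (R.image (gp (ed ∘ σ) ω ((K / 2) * (q * ms d L)))) δ ((K - K / 2) * (q * ms d L)) a x ≤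
      C * (1 / (L : ℝ) ^ d + (K : ℝ) ^ (-(d / 2 : ℝ))) := by
  have hB1 : S_BAS1 := Pool.Agent.Q68.LC.bas1
  have hB2 : S_BAS2 := Pool.Agent.Q68.LC.bas2
  have hLAP : S_LAP := Pool.Agent.Q257.LC.lap
  have hGE : S_GE := Pool.Agent.Q277.LC.ge
  have hSUB : S_SUB := Pool.Agent.Q277.LC.sub
  have hREV : S_REV := Pool.Agent.Q187.LC.Rev.rev
  intro d hd
  obtain ⟨Cl, ml, c, hCl, hc, hlap⟩ := hLAP d hd
  have hd1 : 1 ≤ d := by omega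
  have hd0 : (0 : ℝ) < d := by exact_mod_cast hd1
  obtain ⟨S, hS⟩ : ∃ S : ℝ, S = (c / 9) ^ (-(d / 2 : ℝ)) := ⟨_, rfl⟩
  refine ⟨⌈S⌉₊ + Cl + 3, ml + 2, by omega, ?_⟩
  intro Z hZ L K lam r ρ κ₀ _ hlam hρ hκ hLd hr hL hK
  obtain ⟨n1, n2, n3, n4, n5, n6, hL3, n8, n9, n10⟩ :=
    Pool.Agent.Q257.LC.ker_nat Z ml r ρ K L (by omega) hρ hr hL hK
  obtain ⟨K2, hK2e⟩ : ∃ K2, K2 = K - K / 2 := ⟨_, rfl⟩
  have hbig : 9 * Z ^ ml ≤ K := by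
    have h2 : Z ^ (ml + 2) = Z * Z * Z ^ ml := by ring
    have h3 : 3 * 3 ≤ Z * Z := Nat.mul_le_mul (by omega) (by omega)
    have h4 : 9 * Z ^ ml ≤ Z ^ (ml + 2) := by
      rw [h2]
      exact Nat.mul_le_mul_right _ h3
    omega
  have hZm : 1 ≤ Z ^ ml := Nat.one_le_pow _ _ (by omega)
  obtain ⟨q1, hq1⟩ := hlap Z (by omega) L K lam (r - ρ) ρ (κ₀ + 1) hlam hρ hκ hLd n1 n3 n4
  obtain ⟨q2, hq2⟩ := hlap Z (by omega) L (K / 2) lam (r - ρ) ρ (κ₀ + 1) hlam hρ hκ hLd n1 n3 n5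
  obtain ⟨q3, hq3⟩ := hlap Z (by omega) L (K - K / 2) lam (r - ρ) ρ (κ₀ + 1) hlam hρ hκ hLd n1
    n3 n6
  obtain ⟨q4, hq4⟩ := hlap Z (by omega) L (K2 / 2) lam (r - ρ) ρ (κ₀ + 1) hlam hρ hκ hLd n1
    n3 (by omega)
  obtain ⟨q5, hq5⟩ := hlap Z (by omega) L (K2 - K2 / 2) lam (r - ρ) ρ (κ₀ + 1) hlam hρ hκ hLd n1
    n3 (by omega)
  refine ⟨q1 + q2 + q3 + q4 + q5 + 2, ?_⟩
  intro q hq σ hσ δ h1 h2 ω R hGd hInv x hxR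
  have hqr : (2 : ℝ) ≤ q := by
    have : 2 ≤ q := by omega
    exact_mod_cast this
  have hδ : 0 < δ := by
    by_contra h
    push Not at h
    nlinarith
  have hδ1 : δ ≤ 1 := by nlinarith
  have hEv : Ev σ q K lam (r - ρ) ρ (κ₀ + 1) ω R :=
    hGE d L hL3 σ hσ q K lam (r - ρ) ρ κ₀ ω R (by omega) n10 (by rw [n2]; exact hGd)
  obtain ⟨hσr, hEvr, hTr⟩ := hREV d L hd1 hL3 σ hσ q K lam (r - ρ) ρ (κ₀ + 1) ω R δ
  have hB := hB2 _ (ed ∘ σ) ω R δ hδ.le hδ1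
  have hRim : R.image (gp (ed ∘ σ) ω (K * (q * ms d L))) = R := by
    refine eq_of_subset_of_card_le ?_ ?_
    · intro b hb
      obtain ⟨a, ha, rfl⟩ := mem_image.1 hb
      exact hInv a ha
    · rw [card_image_of_injective _ (Equiv.injective _)]
  have hL0 : (0 : ℝ) < L := by
    have : 0 < L := by omega
    exact_mod_cast this
  have hK0 : (0 : ℝ) < K := by exact_mod_cast n10
  obtain ⟨m0, hm0⟩ : ∃ m0 : ℝ, m0 = Cl / (L : ℝ) ^ d := ⟨_, rfl⟩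
  have hm0n : 0 ≤ m0 := by
    rw [hm0]
    positivity
  have hS0 : 0 ≤ S := by
    rw [hS]
    exact Real.rpow_nonneg (by positivity) _
  have hCS : S ≤ ((⌈S⌉₊ + Cl + 3 : ℕ) : ℝ) := by
    push_cast
    have := Nat.le_ceil S
    have : (0 : ℝ) ≤ Cl := Nat.cast_nonneg _
    linarith
  have hCC : (Cl : ℝ) ≤ ((⌈S⌉₊ + Cl + 3 : ℕ) : ℝ) := by
    push_cast
    have : (0 : ℝ) ≤ (⌈S⌉₊ : ℝ) := Nat.cast_nonneg _
    linarith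
  have hfin : ∀ (c' : ℝ), c / 9 ≤ c' → ∀ X : ℝ, 0 < X →
      m0 + (c' * K * X) ^ (-(d / 2 : ℝ)) ≤
      ((⌈S⌉₊ + Cl + 3 : ℕ) : ℝ) * (1 / (L : ℝ) ^ d + (K : ℝ) ^ (-(d / 2 : ℝ)) *
        X ^ (-(d / 2 : ℝ))) := by
    intro c' hc' X hX
    have e1 : (c' * K * X) ^ (-(d / 2 : ℝ)) ≤ S * ((K : ℝ) ^ (-(d / 2 : ℝ)) *
        X ^ (-(d / 2 : ℝ))) := by
      have hc9 : 0 < c / 9 := by positivity
      have e2 : (c' * K * X) ^ (-(d / 2 : ℝ)) ≤ (c / 9 * (K * X)) ^ (-(d / 2 : ℝ)) := by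
        refine Real.rpow_le_rpow_of_nonpos (by positivity) ?_ (by
          rw [neg_nonpos]
          positivity)
        rw [mul_assoc]
        exact mul_le_mul_of_nonneg_right hc' (by positivity)
      refine e2.trans (le_of_eq ?_)
      rw [Real.mul_rpow hc9.le (by positivity), Real.mul_rpow hK0.le hX.le, hS]
    have e3 : 0 ≤ (K : ℝ) ^ (-(d / 2 : ℝ)) * X ^ (-(d / 2 : ℝ)) := by positivity
    calc m0 + (c' * K * X) ^ (-(d / 2 : ℝ)) ≤ Cl * (1 / (L : ℝ) ^ d) +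
          S * ((K : ℝ) ^ (-(d / 2 : ℝ)) * X ^ (-(d / 2 : ℝ))) := by
          rw [hm0, mul_one_div]
          linarith
      _ ≤ ((⌈S⌉₊ + Cl + 3 : ℕ) : ℝ) * (1 / (L : ℝ) ^ d) + ((⌈S⌉₊ + Cl + 3 : ℕ) : ℝ) *
          ((K : ℝ) ^ (-(d / 2 : ℝ)) * X ^ (-(d / 2 : ℝ))) :=
          add_le_add (mul_le_mul_of_nonneg_right hCC (by positivity))
            (mul_le_mul_of_nonneg_right hCS e3)
      _ = _ := by ring
  constructor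
  · intro U hUR k
    obtain ⟨T, hT⟩ : ∃ T, T = TT (ed ∘ σ) ω R δ (K * (q * ms d L)) := ⟨_, rfl⟩
    have hT0 : ∀ x y, 0 ≤ T x y := by
      rw [hT]
      exact hB.1 _
    have hrow : ∀ x, ∑ y, T x y = 1 := by
      rw [hT]
      exact hB.2.1 _
    have hcol : ∀ y, ∑ x, T x y = 1 := by
      rw [hT]
      exact hB.2.2.1 _
    rw [← hT]
    have hLap1 : ∀ f : (Fin d → ZMod L) → ℝ, (∀ x, 0 ≤ f x) → (∀ x ∈ R, f x = 0) →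
        ∑ x, f x ≤ 1 → ∑ x, (vecMul f T x) ^ 2 ≤
        max m0 (((∑ x, (f x) ^ 2) ^ (-(2 / d : ℝ)) + c * K) ^ (-(d / 2 : ℝ))) := by
      rw [hT, hm0]
      exact hq1 q (by omega) σ hσ δ h1 h2 ω R hEv
    have hLap2 : ∀ f : (Fin d → ZMod L) → ℝ, (∀ x, 0 ≤ f x) → (∀ x ∈ R, f x = 0) →
        ∑ x, f x ≤ 1 → ∑ x, (vecMul f Tᵀ x) ^ 2 ≤
        max m0 (((∑ x, (f x) ^ 2) ^ (-(2 / d : ℝ)) + c * K) ^ (-(d / 2 : ℝ))) := by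
      have h3 := hq1 q (by omega) (rvs σ) hσr δ h1 h2 _ _ (hEvr hEv)
      rw [hTr, hRim, ← hm0, ← hT] at h3
      exact h3
    have hpow : (T * (dg U * T) ^ k) x x ≤
        m0 + (c * K / 3 * ((k : ℝ) + 1)) ^ (-(d / 2 : ℝ)) := by
      rcases Nat.eq_zero_or_pos k with hk | hk
      · subst hk
        rw [pow_zero, Matrix.mul_one, hT]
        refine lap_one hB1 hB2 hSUB hREV hd1 hL3 hσ q K lam (r - ρ) ρ (κ₀ + 1) δ hδ.le hδ1 c m0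
          hc hm0n n10 n8 n9 ?_ ?_ ω R hEv x x hxR (by rw [hRim]; exact hxR)
        · intro σ' hσ' ω' A hEv'
          rw [hm0]
          exact hq2 q (by omega) σ' hσ' δ h1 h2 ω' A hEv'
        · intro σ' hσ' ω' A hEv'
          rw [hm0]
          exact hq3 q (by omega) σ' hσ' δ h1 h2 ω' A hEv'
      · exact pow_bound T hT0 hrow hcol R R U hUR hUR d hd1 m0 c K hc hK0 hm0n
          hLap1 hLap2 x x hxR hxR k hk
    refine hpow.trans ?_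
    have h5 := hfin (c / 3) (by linarith) ((k : ℝ) + 1) (by positivity)
    have h6 : c * K / 3 * ((k : ℝ) + 1) = c / 3 * K * ((k : ℝ) + 1) := by ring
    rw [h6]
    exact h5
  · intro a
    obtain ⟨ω1, hω1⟩ : ∃ ω1 : ℕ → Bool, ω1 = sh ((K / 2) * (q * ms d L)) ω := ⟨_, rfl⟩
    obtain ⟨R1, hR1⟩ : ∃ R1, R1 = R.image (gp (ed ∘ σ) ω ((K / 2) * (q * ms d L))) := ⟨_, rfl⟩
    rw [← hω1, ← hR1, ← hK2e]
    have hE2 : Ev σ q K2 lam (r - ρ) ρ (κ₀ + 1) ω1 R1 := by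
      rw [hω1, hR1]
      exact (hSUB d L hL3 σ hσ q K lam (r - ρ) ρ (κ₀ + 1) ω R hEv (K / 2) K2 (by omega)).2
    have hR2 : R1.image (gp (ed ∘ σ) ω1 (K2 * (q * ms d L))) = R := by
      rw [← hRim, hR1, image_image, hω1]
      have hKK : K = K / 2 + K2 := by omega
      have h7 : gp (ed ∘ σ) ω (K * (q * ms d L)) =
          gp (ed ∘ σ) (sh ((K / 2) * (q * ms d L)) ω) (K2 * (q * ms d L)) *
            gp (ed ∘ σ) ω ((K / 2) * (q * ms d L)) := by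
        conv_lhs => rw [hKK]
        rw [add_mul, (hB1 _ (ed ∘ σ) ω).1, sh_ed hσ]
      rw [h7]
      rfl
    have hB' := hB2 _ (ed ∘ σ) ω1 R1 δ hδ.le hδ1
    have hCpos : 0 ≤ ((⌈S⌉₊ + Cl + 3 : ℕ) : ℝ) * (1 / (L : ℝ) ^ d + (K : ℝ) ^ (-(d / 2 : ℝ))) := by
      positivity
    by_cases ha : a ∈ R1
    · rw [hB'.2.2.2.1 _ a ha x, if_neg ?_]
      · exact hCpos
      · intro h8
        apply hxR
        rw [← hR2]
        exact mem_image.2 ⟨a, ha, h8⟩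
    · have h9 := lap_one hB1 hB2 hSUB hREV hd1 hL3 hσ q K2 lam (r - ρ) ρ (κ₀ + 1) δ hδ.le hδ1 c m0
          hc hm0n (by omega) (by omega) (by omega)
          (fun σ' hσ' ω' A hEv' => by
            rw [hm0]
            exact hq4 q (by omega) σ' hσ' δ h1 h2 ω' A hEv')
          (fun σ' hσ' ω' A hEv' => by
            rw [hm0]
            exact hq5 q (by omega) σ' hσ' δ h1 h2 ω' A hEv')
          ω1 R1 hE2 a x ha (by rw [hR2]; exact hxR)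
      refine h9.trans ?_
      have hK2r : (K : ℝ) ≤ 3 * K2 := by
        have : K ≤ 3 * K2 := by omega
        exact_mod_cast this
      have h10 : (c * K2 / 3 * (((0 : ℕ) : ℝ) + 1)) ^ (-(d / 2 : ℝ)) ≤
          (c / 9 * K * 1) ^ (-(d / 2 : ℝ)) := by
        refine Real.rpow_le_rpow_of_nonpos (by positivity) ?_ (by
          rw [neg_nonpos]
          positivity)
        push_cast
        nlinarith
      have h11 := hfin (c / 9) le_rfl 1 one_pos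
      rw [Real.one_rpow, mul_one (_ ^ (-(d / 2 : ℝ)))] at h11
      linarith


end Pool.Agent.K9h51.SH
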