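import Pool.Agent.K9h51.SH.Cir3

/-!
# Project SH: the sharp estimate for stirring
-/

set_option autoImplicit false
set_option linter.unusedVariables false

namespace Pool.Agent.K9h51.SH

open Finset Equiv Matrix Q292.LC
open Pool.Agent.Y998.ST (stirExp nnRate qq)
open Pool.Agent.Q257.LC (TT_units)

/-- STI. The sharp estimate for stirring. -/
def S_STI : Prop := ∀ d : ℕ, 3 ≤ d → ∃ (C : ℝ) (m : ℕ), 1 ≤ C ∧ ∀ (L J : ℕ) [NeZero L] (t w : ℝ),
  m ≤ t → (Real.log L) ^ m ≤ t → 0 ≤ w → w < 1 →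
  1 / ((L : ℝ) ^ d * (1 - w)) ≤ t ^ (-(d / 2 : ℝ)) → 1 ≤ J → ∀ x : Fin d → ZMod L,
  |stirExp (nnRate d L) t (fun g => w ^ (cyc g x).card) -
    ∑ k ∈ range J, w ^ (k + 1) * qq (nnRate d L) (((k : ℝ) + 1) * t) x x| ≤
  C * (t ^ (-(d / 2 : ℝ)) * ((J : ℝ) ^ 2 * t ^ (-(1 / 4 : ℝ)) +
    (J : ℝ) ^ (-(1 / 2 : ℝ))) + J / ((L : ℝ) ^ d * (1 - w)))

theorem PP_pow {d L : ℕ} [NeZero L] {σ : ℕ → (Fin d → ZMod L) × Fin d} (hσ : Per σ) {δ : ℝ}
    (h0 : 0 ≤ δ) (h1 : δ ≤ 1) (q K k : ℕ) :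
    (PP (ed ∘ σ) δ (K * (q * ms d L))) ^ k = PP (ed ∘ σ) δ ((k * K) * (q * ms d L)) := by
  induction k with
  | zero =>
    rw [pow_zero, Nat.zero_mul, Nat.zero_mul]
    rfl
  | succ k ih =>
    rw [pow_succ, ih]
    have h := TT_units Pool.Agent.Q68.LC.bas2 hσ (fun _ => false) ∅ h0 h1 q (k * K) K
    rw [image_empty] at h
    have e1 : (k + 1) * K = k * K + K := by ring
    rw [e1]
    exact h.symm

theorem sti : S_STI := by
  intro d hd
  have hd1 : 1 ≤ d := by omega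
  have hd3 : (3 : ℝ) ≤ d := by exact_mod_cast hd
  obtain ⟨C₁, m₁, hC₁, hT⟩ := cir d hd
  have h2d : (1 : ℝ) ≤ (2 : ℝ) ^ (d / 2 : ℝ) := Real.one_le_rpow (by norm_num) (by positivity)
  refine ⟨2 * (2 : ℝ) ^ (d / 2 : ℝ) * C₁, 2 ^ (m₁ + 1) + m₁ + 1 + (2 ^ d + 1), ?_, ?_⟩
  · nlinarith
  intro L J _ t w hmt hlog hw0 hw1 hwt hJ x
  have pw1 : 0 < 2 ^ (m₁ + 1) := by positivity
  have pw2 : 0 < 2 ^ d := by positivity
  obtain ⟨m, hm⟩ : ∃ m, m = 2 ^ (m₁ + 1) + m₁ + 1 + (2 ^ d + 1) := ⟨_, rfl⟩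
  rw [← hm] at hmt hlog
  have hLpos : 0 < L := Nat.pos_of_ne_zero (NeZero.ne L)
  have hLr : (0 : ℝ) < L := by exact_mod_cast hLpos
  have hLd : (0 : ℝ) < (L : ℝ) ^ d := by positivity
  have hm1 : (1 : ℝ) ≤ m := by exact_mod_cast (by omega : 1 ≤ m)
  have ht1 : 1 ≤ t := hm1.trans hmt
  have ht0 : 0 < t := by linarith
  have h1w : 0 < 1 - w := by linarith
  have htL : t ≤ (L : ℝ) ^ d := by
    have e1 : 1 / (L : ℝ) ^ d ≤ 1 / ((L : ℝ) ^ d * (1 - w)) := by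
      refine one_div_le_one_div_of_le (by positivity) ?_
      nlinarith
    have e2 : t ^ (-(d / 2 : ℝ)) ≤ t ^ (-(1 : ℝ)) :=
      Real.rpow_le_rpow_of_exponent_le ht1 (by linarith)
    rw [Real.rpow_neg_one, ← one_div] at e2
    have e3 : 1 / (L : ℝ) ^ d ≤ 1 / t := (e1.trans hwt).trans e2
    rwa [one_div_le_one_div hLd ht0] at e3
  obtain ⟨K, hK⟩ : ∃ K, K = ⌊t⌋₊ := ⟨_, rfl⟩
  have hKt : (K : ℝ) ≤ t := by rw [hK]; exact Nat.floor_le (by linarith)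
  have hK1 : 1 ≤ K := by rw [hK]; exact Nat.le_floor (by rw [Nat.cast_one]; exact ht1)
  have hK1' : (1 : ℝ) ≤ K := by exact_mod_cast hK1
  have htK : t < K + 1 := by rw [hK]; exact Nat.lt_floor_add_one t
  have ht2K : t ≤ 2 * K := by linarith
  have hK0 : (0 : ℝ) < K := by linarith
  have hL3 : 3 ≤ L := by
    by_contra hcon
    have h1 : L ≤ 2 := by omega
    have h2 : L ^ d ≤ 2 ^ d := Nat.pow_le_pow_left h1 d
    have h3 : (m : ℝ) ≤ (L : ℝ) ^ d := hmt.trans htL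
    have h4 : m ≤ L ^ d := by exact_mod_cast h3
    have h5 : 2 ^ d < m := by omega
    omega
  have hKL : K ≤ L ^ d := by
    have : (K : ℝ) ≤ ((L ^ d : ℕ) : ℝ) := by push_cast; linarith
    exact_mod_cast this
  have hmK : m₁ ≤ K := by
    have h1 : (m₁ : ℝ) + 1 ≤ t := by
      have : m₁ + 1 ≤ m := by omega
      have h2 : ((m₁ + 1 : ℕ) : ℝ) ≤ m := by exact_mod_cast this
      push_cast at h2
      linarith
    have h3 : (m₁ : ℝ) < (K : ℝ) + 1 := by linarith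
    have h4 : m₁ < K + 1 := by exact_mod_cast h3
    omega
  have hlogK : (Real.log L) ^ m₁ ≤ K := by
    have hℓ : 0 ≤ Real.log L := Real.log_natCast_nonneg L
    have hK2 : t / 2 ≤ K := by linarith
    refine le_trans ?_ hK2
    rcases le_total (Real.log L) 2 with h | h
    · have h1 : (Real.log L) ^ m₁ ≤ 2 ^ m₁ := pow_le_pow_left₀ hℓ h _
      have h2 : ((2 ^ (m₁ + 1) : ℕ) : ℝ) ≤ m := by
        have : 2 ^ (m₁ + 1) ≤ m := by omega
        exact_mod_cast this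
      push_cast at h2
      rw [pow_succ] at h2
      linarith
    · have h1 : (Real.log L) ^ (m₁ + 1) ≤ (Real.log L) ^ m :=
        pow_le_pow_right₀ (by linarith) (by omega)
      have h2 : (Real.log L) ^ m₁ * 2 ≤ (Real.log L) ^ (m₁ + 1) := by
        rw [pow_succ]
        exact mul_le_mul_of_nonneg_left h (by positivity)
      linarith
  have hKt2 : t ^ (-(d / 2 : ℝ)) ≤ (K : ℝ) ^ (-(d / 2 : ℝ)) :=
    Real.rpow_le_rpow_of_nonpos hK0 hKt (by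
      rw [neg_nonpos]
      positivity)
  obtain ⟨q₀, hq₀⟩ := hT L K J w hmK hKL hlogK hw0 hw1 (hwt.trans hKt2) hJ
  obtain ⟨CA, hCA⟩ := Pool.Agent.Q297.LC.tro d L hd1 hL3 K
  obtain ⟨CB, hCB⟩ := Pool.Agent.Q297.LC.tro d L hd1 hL3 (J * K)
  obtain ⟨σ, hσ⟩ := Pool.Agent.Q297.LC.exists_Per d L hd1
  have hF : ∀ g : Perm (Fin d → ZMod L), |w ^ (cyc g x).card| ≤ 1 := by
    intro g
    rw [abs_of_nonneg (by positivity)]
    exact pow_le_one₀ hw0 hw1.le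
  obtain ⟨X, hX⟩ : ∃ X, X = stirExp (nnRate d L) t (fun g => w ^ (cyc g x).card) := ⟨_, rfl⟩
  obtain ⟨Y, hY⟩ : ∃ Y, Y = ∑ k ∈ range J, w ^ (k + 1) * qq (nnRate d L) (((k : ℝ) + 1) * t) x x :=
    ⟨_, rfl⟩
  obtain ⟨B, hB⟩ : ∃ B : ℝ, B = C₁ * ((K : ℝ) ^ (-(d / 2 : ℝ)) * ((J : ℝ) ^ 2 *
    (K : ℝ) ^ (-(1 / 4 : ℝ)) + (J : ℝ) ^ (-(1 / 2 : ℝ))) + J / ((L : ℝ) ^ d * (1 - w))) := ⟨_, rfl⟩
  have key : ∀ q : ℕ, q₀ ≤ q → 2 ≤ q → |X - Y| ≤ B + (CA + J * CB) / q := by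
    intro q hq hq2
    have hq' : (0 : ℝ) < q := by
      have : 0 < q := by omega
      exact_mod_cast this
    obtain ⟨δ, hδ⟩ : ∃ δ, δ = t / (K * q) := ⟨_, rfl⟩
    have hδq : δ * q = t / K := by rw [hδ]; field_simp
    have h1 : 1 ≤ δ * q := by
      rw [hδq, le_div_iff₀ hK0]; linarith
    have h2 : δ * q ≤ 2 := by
      rw [hδq, div_le_iff₀ hK0]; linarith
    have h0 : 0 ≤ δ := by
      rw [hδ]
      positivity
    have h3 : δ ≤ 1 := by
      rw [hδ, div_le_one (by positivity)]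
      have : (2 : ℝ) ≤ q := by exact_mod_cast hq2
      nlinarith
    have h4 := (hCA q (by omega) σ hσ δ h0 h3 h2 (K * q) le_rfl).1 _ hF
    have h6 : ((K * q : ℕ) : ℝ) * δ = t := by
      rw [hδ]
      push_cast; field_simp
    rw [h6, Nat.mul_assoc, ← hX] at h4
    have h5 := hq₀ q hq σ hσ δ h1 h2 x
    have h7 : |∑ k ∈ range J, w ^ (k + 1) * ((PP (ed ∘ σ) δ (K * (q * ms d L))) ^ (k + 1)) x x - Y| ≤
        J * (CB / q) := by
      rw [hY, ← Finset.sum_sub_distrib]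
      refine (Finset.abs_sum_le_sum_abs _ _).trans ?_
      have h8 : ∀ k ∈ range J, |w ^ (k + 1) * ((PP (ed ∘ σ) δ (K * (q * ms d L))) ^ (k + 1)) x x -
          w ^ (k + 1) * qq (nnRate d L) (((k : ℝ) + 1) * t) x x| ≤ CB / q := by
        intro k hk
        rw [← mul_sub, abs_mul, abs_of_nonneg (pow_nonneg hw0 _), PP_pow hσ h0 h3]
        have h9 := (hCB q (by omega) σ hσ δ h0 h3 h2 (((k + 1) * K) * q)
          (Nat.mul_le_mul_right _ (Nat.mul_le_mul_right _ (mem_range.1 hk)))).2 x x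
        have h10 : ((((k + 1) * K) * q : ℕ) : ℝ) * δ = ((k : ℝ) + 1) * t := by
          rw [← h6]
          push_cast
          ring
        rw [h10, Nat.mul_assoc ((k + 1) * K) q (ms d L)] at h9
        exact (mul_le_of_le_one_left (abs_nonneg _) (pow_le_one₀ hw0 hw1.le)).trans h9
      refine (Finset.sum_le_sum h8).trans (le_of_eq ?_)
      rw [sum_const, card_range, nsmul_eq_mul]
    rw [← hB] at h5
    have h11 := abs_le.1 h4
    have h12 := abs_le.1 h5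
    have h13 := abs_le.1 h7
    have h14 : (CA + J * CB) / q = CA / q + J * (CB / q) := by ring
    rw [h14, abs_le]
    constructor <;> linarith [h11.1, h11.2, h12.1, h12.2, h13.1, h13.2]
  have hXY : |X - Y| ≤ B := by
    refine le_of_forall_pos_le_add fun ε hε => ?_
    obtain ⟨q₁, hq₁⟩ := exists_nat_gt (|CA + J * CB| / ε)
    have h1 := key (max (max q₀ 2) (q₁ + 1)) (by omega) (by omega)
    refine h1.trans (add_le_add le_rfl ?_)
    obtain ⟨q, hq⟩ : ∃ q, q = max (max q₀ 2) (q₁ + 1) := ⟨_, rfl⟩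
    rw [← hq]
    have hq' : (q₁ : ℝ) < q := by
      have : q₁ < q := by omega
      exact_mod_cast this
    have hqp : (0 : ℝ) < q := by
      have : 0 < q := by omega
      exact_mod_cast this
    rw [div_le_iff₀ hqp]
    have h2 : |CA + J * CB| < q * ε := by
      have := hq₁.trans hq'
      rwa [div_lt_iff₀ hε] at this
    linarith [le_abs_self (CA + J * CB)]
  rw [← hX, ← hY]
  refine hXY.trans ?_
  have hK2t : ∀ a : ℝ, 0 ≤ a → (K : ℝ) ^ (-a) ≤ (2 : ℝ) ^ a * t ^ (-a) := by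
    intro a ha
    have e1 : (t / 2) ^ (-a) = (2 : ℝ) ^ a * t ^ (-a) := by
      rw [Real.div_rpow (by linarith) (by norm_num), Real.rpow_neg (by norm_num : (0 : ℝ) ≤ 2)]
      rw [div_inv_eq_mul]; ring
    rw [← e1]
    exact Real.rpow_le_rpow_of_nonpos (by linarith) (by linarith) (by linarith)
  have f1 := hK2t (d / 2 : ℝ) (by positivity)
  have f2 : (K : ℝ) ^ (-(1 / 4 : ℝ)) ≤ 2 * t ^ (-(1 / 4 : ℝ)) := by
    refine (hK2t (1 / 4) (by norm_num)).trans ?_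
    refine mul_le_mul_of_nonneg_right ?_ (by positivity)
    calc (2 : ℝ) ^ (1 / 4 : ℝ) ≤ (2 : ℝ) ^ (1 : ℝ) :=
          Real.rpow_le_rpow_of_exponent_le (by norm_num) (by norm_num)
      _ = 2 := Real.rpow_one 2
  have f3 : 0 ≤ t ^ (-(d / 2 : ℝ)) := by positivity
  have f4 : 0 ≤ t ^ (-(1 / 4 : ℝ)) := by positivity
  have f5 : 0 ≤ (J : ℝ) ^ (-(1 / 2 : ℝ)) := by positivity
  have f6 : 0 ≤ (J : ℝ) / ((L : ℝ) ^ d * (1 - w)) := by positivity
  rw [hB]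
  calc C₁ * ((K : ℝ) ^ (-(d / 2 : ℝ)) * ((J : ℝ) ^ 2 *
      (K : ℝ) ^ (-(1 / 4 : ℝ)) + (J : ℝ) ^ (-(1 / 2 : ℝ))) + J / ((L : ℝ) ^ d * (1 - w)))
      ≤ C₁ * (((2 : ℝ) ^ (d / 2 : ℝ) * t ^ (-(d / 2 : ℝ))) * ((J : ℝ) ^ 2 *
        (2 * t ^ (-(1 / 4 : ℝ))) + 2 * (J : ℝ) ^ (-(1 / 2 : ℝ))) +
        (2 * (2 : ℝ) ^ (d / 2 : ℝ)) * (J / ((L : ℝ) ^ d * (1 - w)))) := by
        refine mul_le_mul_of_nonneg_left (add_le_add (mul_le_mul f1 (add_le_add
          (mul_le_mul_of_nonneg_left f2 (by positivity)) (by linarith)) (by positivity)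
          (by positivity)) ?_) (by linarith)
        exact le_mul_of_one_le_left f6 (by linarith)
    _ = _ := by ring

end Pool.Agent.K9h51.SH
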