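import Pool.Agent.Q292.LC.FinT

/-!
# Project SH: the sharp law of the short cycles (statements)

Aim: for nearest neighbour stirring on the torus, `d ≥ 3`, the cycle of a point has at most `n` points
with probability `(4 π t)^(-d/2) ∑_{1 ≤ j ≤ n} j^(-d/2)` up to a factor `1 + o(1)` as `t → ∞` (plus
`O(n / L^d)`). Conventions as in Pool.Agent.Q292.LC.Defs. Every statement may be used as a hypothesis
by the later ones.
-/

set_option autoImplicit false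

namespace Pool.Agent.K9h51.SH

open Finset Equiv Matrix Q292.LC
open Pool.Agent.Y998.ST (stirExp nnRate qq)

section defs

variable {V : Type} [Fintype V] [DecidableEq V]

/-- Expectation over the coins and over the marked cycles different from the cycle of `x` (each of
them is marked with probability `w ^ length`, independently). -/
noncomputable def PX (e : ℕ → V × V) (n : ℕ) (δ w : ℝ) (x : V)
    (F : (ℕ → Bool) → Finset V → ℝ) : ℝ :=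
  EE n δ fun ω => ∑ A : Finset V, if Inv (gp e ω n) A ∧ x ∉ A then
    w ^ A.card * dS w (univ \ insert x A) (pm (gp e ω n)) * F ω A else 0

end defs

/-- HKA. Return probabilities of the walk on the torus.
Proof. `qq (nnRate d L) s x x = (gk L s 0) ^ d` (Pool.Agent.Y998.ST `qq_eq_hk`, see
Pool.Agent.Q229.LC.HK), `gk L s 0 = (1/L) ∑_{k mod L} exp (- s (2 - 2 cos (2 π k / L)))`. The function
`φ(θ) = exp (- s (2 - 2 cos (2 π θ)))` is even, has period `1` and decreases on `[0, 1/2]` from a value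
`≤ 1`, so the Riemann sum differs from `I(s) = ∫_{-1/2}^{1/2} φ` by at most `2 / L` (or `4 / L`).
`√(4 π s) I(s) → 1`: `1 - cos x ≤ x² / 2` gives `I(s) ≥ ∫_{-1/2}^{1/2} exp (- 4 π² s θ²) dθ`, and for
the upper bound use dominated convergence, `1 - cos x ≥ 2 x² / π²` on `[-π, π]`, after the substitution
`θ = u / √s`. So `|gk L s 0 - (4 π s)^(-1/2)| ≤ ε' s^(-1/2) + 4 / L` for `s ≥ s₀(ε')`. Finally
`|a^d - b^d| ≤ d |a - b| (|a| + |b|)^(d-1)`, and mixed terms `s^(-j/2) L^(-(d-j))`, `0 < j < d`, are at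
most `ε' s^(-d/2) + C_ε' L^(-d)` (if `L^(-1) ≤ η s^(-1/2)` the term is `≤ η s^(-d/2)`, otherwise it is
`≤ η^(-d) L^(-d)`). -/
def S_HKA : Prop := ∀ d : ℕ, 1 ≤ d → ∀ ε : ℝ, 0 < ε → ∃ C s₀ : ℝ, 0 < C ∧ 1 ≤ s₀ ∧
  ∀ (L : ℕ) [NeZero L], 3 ≤ L → ∀ s : ℝ, s₀ ≤ s → ∀ x : Fin d → ZMod L,
  |qq (nnRate d L) s x x - (4 * Real.pi * s) ^ (-(d / 2 : ℝ))| ≤
    ε * s ^ (-(d / 2 : ℝ)) + C / (L : ℝ) ^ d

/-- TAU. From generating functions to distribution functions, uniformly.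
Proof. Let `B = ∑ b`. (1) Coefficients: for every `J` and `ε'` there is `η'` such that
`|F_a(w) - F_b(w)| ≤ η'` for all `w ∈ [0, 1/2]` implies `|a j - b j| ≤ ε'` for all `j ≤ J`: induction on
`J`. For `w ≤ 1/4`: `w^J |a J - b J| ≤ η' + ∑_{j<J} |a j - b j| + ∑_{j>J} w^j (a j + b j)`, and
`∑_{j>J} w^j (a j + b j) ≤ 2 w^(J+1) 2^(J+1) (F_a(1/2) + F_b(1/2)) ≤ C_J w^(J+1)`; choose first `w` small
and then `η'` and the earlier `ε'` small. (`F_a(1/2) ≤ B + η'`.)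
(2) `n ≥ N₀` where `∑_{j ≤ N₀} b j ≥ B - ε/4`: with `w = 1 - 1/(M n)`, `w^n ≥ 1 - 1/M` (Bernoulli), so
`∑_{j≤n} a j ≤ F_a(w) / w^n ≤ (B + η) / (1 - 1/M) ≤ B + ε/2` for `M` large and `η` small, and
`∑_{j≤n} a j ≥ ∑_{j≤N₀} a j ≥ ∑_{j≤N₀} b j - ε/4 ≥ B - ε/2` by (1). (3) `n < N₀`: (1). With `M ≥ 2` the
values `w ≤ 1/2` are allowed for every `n ≥ 1`. -/
def S_TAU : Prop := ∀ b : ℕ → ℝ, (∀ j, 0 ≤ b j) → Summable b → ∀ ε : ℝ, 0 < ε →
  ∃ (η : ℝ) (M : ℕ), 0 < η ∧ 2 ≤ M ∧ ∀ a : ℕ → ℝ, (∀ j, 0 ≤ a j) → Summable a →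
  ∀ n : ℕ, 1 ≤ n → (∀ w : ℝ, 0 ≤ w → w ≤ 1 - 1 / ((M : ℝ) * n) →
    |(∑' j, w ^ j * a j) - ∑' j, w ^ j * b j| ≤ η) →
  |(∑ j ∈ range (n + 1), a j) - ∑ j ∈ range (n + 1), b j| ≤ ε

/-- LCR. Short cycles do not see the size of the torus, the other direction of `S_LCS`
(Pool.Agent.Q292.LC.Stm7; proofs in Pool.Agent.Q297.LC.LocA, Loc, Lcs).
Proof. As `S_LOC` and `S_LCS` with the roles of the two tori exchanged: in `S_LOC` the event `E`
(there is `m`, `1 ≤ m ≤ n`, with `g^m 0 = 0` and the particles `g^i 0`, `i < m`, stay in `bal 0 R₀` during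
all steps) has the same probability for both tori, it implies `|cyc 0| ≤ n` in either torus, and
in either torus `|cyc 0| ≤ n` implies `E` unless some particle of `bal 0 R₀` has more than `D` jumps. -/
def S_LCR : Prop := ∀ d : ℕ, 1 ≤ d → ∃ C : ℝ, 1 ≤ C ∧ ∀ (L L₀ R₀ : ℕ) [NeZero L] [NeZero L₀],
  4 * R₀ + 8 ≤ L₀ → L₀ ≤ L → ∀ (t : ℝ) (n D : ℕ), 1 ≤ t → n * D ≤ R₀ →
  ∀ (x : Fin d → ZMod L) (x₀ : Fin d → ZMod L₀),
  stirExp (nnRate d L₀) t (fun g => if (cyc g x₀).card ≤ n then 1 else 0) ≤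
    stirExp (nnRate d L) t (fun g => if (cyc g x).card ≤ n then 1 else 0) +
    C * (2 * R₀ + 1) ^ d * t * Real.exp (-(D / t))

/-- CTD. Contact numbers are dominated by sums over the positions at unit times.
Proof. Put `u = q ms`, `e = ed ∘ σ`, and `M j y = (8 ρ + 16 d) * exp (8 d) * ∑ p ∈ bal y (ρ + 1),
PP e δ ((j + 1) u) x p`. (a) `∑_y M j y = (8 ρ + 16 d) e^(8d) ∑_p PP .. x p |bal p (ρ+1)| ≤
(8 ρ + 16 d) e^(8 d) (2 ρ + 3)^d ≤ C (ρ + 1)^(d + 1)` (`card_bal_le` in Pool.Agent.Q277.LC.Ex; row sums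
of `PP` are `1`). (b) Staying: for `k ≤ n'`, `PP e δ n' x p ≥ PP e δ k x p * (1 - δ)^c`, `c` the number of
steps of `[k, n')` with `p` as an end point (`PP (m+1) x p ≥ PP m x p * (fr δ (e m)) p p`, and
`(fr δ (e m)) p p` is `1 - δ` if `p` is an end point, otherwise `1`). In a unit every `p` is an end point
of at most `2 d q` steps (TCH with `ω = fun _ => false`, shifted by periodicity), and
`(1 - δ)^(2 d q) ≥ exp (- 2 δ 2 d q) ≥ exp (- 8 d)` (`δ ≤ 1/2`, `δ q ≤ 2`). So `PP k x p ≤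
e^(8d) PP ((j+1) u) x p` for `k` in unit `j`. (c) As in the proof of CON2 (Pool.Agent.Q292.LC.Stm3, the
Lean proof is `S_CON2` in the library): `cc x ≤ 2 ∑_{a ∈ A} ∑_{j < K} ∑_{k in unit j touches a}
w_k (PP_k x p_k + PP_k x p_k')`, `w_k = 1` if `ω k`, else `δ`; `∑_k w_k ≤ 2 ρ + 4 d` over the steps of
unit `j` which touch `a`; the end points `p_k, p_k'` have distance `≤ ρ + 1` from the position `y` of `a`
at the start of the unit, so `PP_k x p_k + PP_k x p_k' ≤ 2 e^(8d) ∑_{p ∈ bal y (ρ+1)} PP ((j+1) u) x p`. -/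
def S_CTD : Prop := ∀ d : ℕ, 1 ≤ d → ∃ C : ℝ, 1 ≤ C ∧ ∀ (L : ℕ) [NeZero L], 3 ≤ L →
  ∀ σ : ℕ → (Fin d → ZMod L) × Fin d, Per σ → ∀ (δ : ℝ) (q K ρ : ℕ) (x : Fin d → ZMod L),
  0 < δ → 4 * d * δ ≤ 1 → δ * q ≤ 2 →
  ∃ M : ℕ → (Fin d → ZMod L) → ℝ, (∀ j y, 0 ≤ M j y) ∧
  (∀ j < K, ∑ y, M j y ≤ C * (ρ + 1) ^ (d + 1)) ∧
  ∀ (ω : ℕ → Bool) (A : Finset (Fin d → ZMod L)),
  (∀ j < K, ∀ a ∈ A, jumps (ed ∘ σ) ω (j * (q * ms d L)) ((j + 1) * (q * ms d L)) a ≤ ρ) →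
  cc (ed ∘ σ) ω A δ (K * (q * ms d L)) x ≤
    ∑ j ∈ range K, ∑ a ∈ A, M j (gp (ed ∘ σ) ω (j * (q * ms d L)) a)

/-- CTM. Mean of a sum over the positions of the marked particles.
Proof. `e` has period `u`, `n = K u`. For fixed `ω` and `z`:
`∑_{A : Inv g A, x ∉ A, z ∈ A} w^|A| dS w (univ \ insert x A) (pm g) ≤ w^|cyc g z|`: if
`x ∈ cyc g z` the sum is empty; otherwise `A = cyc g z ∪ A'` with `A'` invariant, disjoint from
`cyc g z` and `x ∉ A'`, and the sum is `w^|cyc g z|` times the sum of P1 with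
`X = insert x (cyc g z)`, which is `1` (compare `wt_point` in Pool.Agent.Q277.LC.Pe). So the left side
is at most `E ∑_z w^|cyc g z| f (gp e ω (j u) z) = ∑_y f y E w^|cyc g (h⁻¹ y)|`, `h = gp e ω (j u)`. By ROT
(third line) `|cyc g (h⁻¹ y)| = |cyc g' y|` for `g' = gp e (rot n (j u) ω) n = h g h⁻¹`, and
`E w^|cyc g' y| = E w^|cyc g y| ≤ κ` (BAS3 (6); if `K = 0` or `u = 0` all is trivial: `h = 1` when `j = 0`
or `u = 0`). -/
def S_CTM : Prop := ∀ (V : Type) [Fintype V] [DecidableEq V] (e : ℕ → V × V) (u K j : ℕ)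
  (δ w κ : ℝ) (x : V) (f : V → ℝ), 0 ≤ δ → δ ≤ 1 → 0 ≤ w → w < 1 → 0 < u → 0 < K → j ≤ K →
  (∀ k, e (k + u) = e k) → (∀ y, 0 ≤ f y) →
  (∀ y, EE (K * u) δ (fun ω => w ^ (cyc (gp e ω (K * u)) y).card) ≤ κ) →
  PX e (K * u) δ w x (fun ω A => ∑ a ∈ A, f (gp e ω (j * u) a)) ≤ κ * ∑ y, f y

/-- PXF. The exact identity and its consequence.
Proof. Put `g = gp e ω n`, `U = univ \ insert x A`, `T = TT e ω A δ n`. (1) For fixed `ω` the weights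
`w^|A| dS w U (pm g)` of the invariant `A` with `x ∉ A` sum up to `1` (P1 with `X = {x}`). (2) For `A`
invariant with `x ∉ A` let `m = |cyc g x|`: P3 with `y = x` gives
`bd w U (pm g) x x - dS w U (pm g) = w^m dS w U (pm g)` (the points `g^i x`, `0 < i < m`, are different
from `x` and not in `A`). (3) By L1 with `Θ = 1[Inv g A ∧ x ∉ A ∧ Gd ω A] w^|A|` (compare `peel_of` in
Pool.Agent.Q257.LC.Peel, `bd_eq`, `dS_eq`) `E Θ (bd w U (pm g) x x - dS w U (pm g) - F dS w U (pm g)) =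
E Θ (bd w U T x x - dS w U T - F dS w U T)`, whose absolute value is at most
`E Θ err dS w U T = E Θ err dS w U (pm g)` (L1 with `Θ err`; `dS w U T > 0` by GRN). Sum over `A`:
`|PX (1_Gd w^m) - F PX (1_Gd)| ≤ PX (1_Gd err)`. (4) `PX (1[¬ Gd]) ≤ PW (¬ Gd)`: an invariant `A` with
`x ∉ A` occurs in `PW` with weight `w^|A| dS w (univ \ A) = (1 - w^m) w^|A| dS w U`
(P4 (4) and (3)), and `A ∪ cyc g x` with weight `w^m w^|A| dS w U` (P4 (3)); if `¬ Gd ω A` then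
`¬ Gd ω (A ∪ cyc g x)`. The map `A ↦ A ∪ cyc g x` is injective on the invariant sets without `x`.
(5) `EE w^m = PX (w^m) = PX (1_Gd w^m) + PX (1[¬Gd] w^m)`, `F = F PX (1_Gd) + F PX (1[¬Gd])`. -/
def S_PXF : Prop := ∀ (V : Type) [Fintype V] [DecidableEq V] (e : ℕ → V × V) (n : ℕ)
  (δ w F : ℝ) (x : V) (Gd : (ℕ → Bool) → Finset V → Prop) (err : (ℕ → Bool) → Finset V → ℝ),
  0 ≤ δ → δ ≤ 1 → 0 ≤ w → w < 1 → 0 ≤ F →
  (∀ R, Rmeas e n R (fun ω => Gd ω R)) → (∀ ω R R', R' ⊆ R → Gd ω R → Gd ω R') →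
  (∀ R, Rmeas e n R (fun ω => err ω R)) →
  (∀ ω A, Gd ω A → x ∉ A → Inv (gp e ω n) A →
    |bd w (univ \ insert x A) (TT e ω A δ n) x x - dS w (univ \ insert x A) (TT e ω A δ n) -
      F * dS w (univ \ insert x A) (TT e ω A δ n)| ≤
    err ω A * dS w (univ \ insert x A) (TT e ω A δ n)) →
  |EE n δ (fun ω => w ^ (cyc (gp e ω n) x).card) - F| ≤
    (1 + F) * PW e n δ w (fun ω A => ¬ Gd ω A) +
    PX e n δ w x (open Classical in fun ω A => if Gd ω A then err ω A else 0)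

/-- CMP. Comparison of the powers (abstract).
Proof. Rows: `T z y = 0` for `z ∉ A`, `y ∈ A` and for `z ∈ A`, `y ∉ A`. (1) `T^(k+1) - P^(k+1) =
∑_{i ≤ k} P^i (T - P) T^(k-i)`. For `i < k` the entry `x x` is at most `∑_z P^i x z c z s` in absolute
value, because `T^(k-i) y x = (T^(k-i-1) T1 T2) y x ≤ s` for all `y` (stochastic rows). For `i = k`:
`T - P = (T1 - P1) T2 + P1 (T2 - P2)`; the first part gives `∑_z P^k x z c z s`, the second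
`∑_y (P^k P1) x y (T2 - P2) y x`, `(P^k P1) x y ≤ s` (stochastic rows), so it is `≤ s γ`.
(2) With `U = univ \ insert x A`: `T^(k+1) - T (dg U T)^k = ∑_{1 ≤ i ≤ k} T (dg U T)^(i-1) (1 - dg U)
T^(k+1-i)`, and `(T (dg U T)^(i-1)) x a = 0` for `a ∈ A`; so the entry `x x` of the `i`-th term is
`(T (dg U T)^(i-1)) x x * T^(k+1-i) x x ∈ [0, s²]` (both factors are at most powers of `T`). -/
def S_CMP : Prop := ∀ (V : Type) [Fintype V] [DecidableEq V] (T1 T2 P1 P2 : Matrix V V ℝ)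
  (A : Finset V) (x : V) (s γ : ℝ) (c : V → ℝ),
  (∀ a b, 0 ≤ T1 a b) → (∀ a, ∑ b, T1 a b = 1) → (∀ a b, 0 ≤ T2 a b) → (∀ a, ∑ b, T2 a b = 1) →
  (∀ a b, 0 ≤ P1 a b) → (∀ a, ∑ b, P1 a b = 1) → (∀ a b, 0 ≤ P2 a b) → (∀ a, ∑ b, P2 a b = 1) →
  x ∉ A → (∀ a, a ∉ A → ∀ b ∈ A, (T1 * T2) a b = 0) → 0 ≤ s → (∀ a, T2 a x ≤ s) →
  (∀ a b, P1 a b ≤ s) → (∀ a, ∑ b, |(P1 * P2) a b - (T1 * T2) a b| ≤ c a) →
  (∀ a, ∑ b, |P1 a b - T1 a b| ≤ c a) → (∑ a, |P2 a x - T2 a x| ≤ γ) → ∀ k : ℕ,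
  |((T1 * T2) * (dg (univ \ insert x A) * (T1 * T2)) ^ k) x x - ((P1 * P2) ^ (k + 1)) x x| ≤
    s * (∑ i ∈ range (k + 1), ∑ z, ((P1 * P2) ^ i) x z * c z + γ) + k * s ^ 2

end Pool.Agent.K9h51.SH
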